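import Pool.Agent.H40.GG.CntU

/-! # Elements with a short section are rare

Fix M, J, v₀ ≠ v₁.  Let A = {g | rho g ≤ r, m (sec g v₀) < M, 2 J ≤ m (sec g v₁)}.  For g in A and
j ≤ J, j ≥ 0 let y_j ∈ K with m y_j = 2 j, m (sec g v₁ * y_j⁻¹) + 2 j = m (sec g v₁) (peel), and
g_j = g * E with E the element with trivial action and sections y_j⁻¹ at v₁, y_j at v₀, 1 elsewhere
(emb).  rho g_j ≤ rho g.  The map (g, j) ↦ (g_j, sec g v₀) is injective on A × {0..J}: from
sec g_j v₀ = sec g v₀ * y_j one recovers y_j, j = m y_j / 2, E and g.  So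
(J+1) card A ≤ F * card {rho ≤ r}, F = card {m < M} (B.fin).
If some section of g is shorter than M (at v₀, say) then either some other section has length ≥ 2 J
or all the other sections are shorter than 2 J, and there are at most C_J = card {g | all sections
shorter than 2 J + M} such g (finite: rho g ≤ card V * (2J + M)).  Hence
short ≤ card V ^ 2 * F * card {rho ≤ r} / (J+1) + C_J; choose J with card V ^ 2 * F / (J+1) ≤ ε. -/

namespace Pool.Agent.H40.GG

variable {Γ : Type} [Group Γ] {B : Base Γ} {V : Type} [Fintype V]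

theorem Short_key (L : Level Γ B V) (v₀ v₁ : V) (hv : v₀ ≠ v₁) (M J r : ℕ) :
    (J + 1) * ({g | L.rho g ≤ r ∧ B.m (L.sec g v₀) < M ∧ 2 * J ≤ B.m (L.sec g v₁)} : Set Γ).ncard ≤
      ({x | B.m x ≤ M} : Set Γ).ncard * ({g | L.rho g ≤ r} : Set Γ).ncard := by
  classical
  obtain ⟨A, hA⟩ : ∃ A : Set Γ, A =
    {g | L.rho g ≤ r ∧ B.m (L.sec g v₀) < M ∧ 2 * J ≤ B.m (L.sec g v₁)} := ⟨_, rfl⟩
  rw [← hA]
  have hmA : ∀ g, g ∈ A ↔ L.rho g ≤ r ∧ B.m (L.sec g v₀) < M ∧ 2 * J ≤ B.m (L.sec g v₁) := by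
    intro g
    rw [hA]
    exact Iff.rfl
  have hE : ∀ y : B.K, ∃ e, L.act e = 1 ∧ ∀ v, L.sec e v =
      (if v = v₀ then (y : Γ) else if v = v₁ then (y : Γ)⁻¹ else 1) := by
    intro y
    refine L.emb (fun v => if v = v₀ then (y : Γ) else if v = v₁ then (y : Γ)⁻¹ else 1) ?_
    intro v
    by_cases h0 : v = v₀
    · simp only [h0, if_true]
      exact y.2
    · by_cases h1 : v = v₁
      · simp only [h1, if_true]
        rw [if_neg (fun h => hv h.symm)]
        exact B.K.inv_mem y.2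
      · simp only [h0, h1, if_false]
        exact B.K.one_mem
  choose E hE1 hE2 using hE
  have hp : ∀ (g : Γ) (j : ℕ), ∃ y : B.K, g ∈ A → j ≤ J → B.m (y : Γ) = 2 * j ∧
      B.m (L.sec g v₁ * (y : Γ)⁻¹) + 2 * j = B.m (L.sec g v₁) := by
    intro g j
    by_cases h : g ∈ A ∧ j ≤ J
    · obtain ⟨y, hy, h1, h2⟩ := peel B (L.sec g v₁) j
        (le_trans (by omega) ((hmA g).1 h.1).2.2)
      exact ⟨⟨y, hy⟩, fun _ _ => ⟨h1, h2⟩⟩
    · exact ⟨1, fun h1 h2 => absurd ⟨h1, h2⟩ h⟩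
  choose Y hY using hp
  have hsec : ∀ g j v, L.sec (g * E (Y g j)) v = L.sec g v *
      (if v = v₀ then (Y g j : Γ) else if v = v₁ then (Y g j : Γ)⁻¹ else 1) := by
    intro g j v
    rw [L.sec_mul, hE1, hE2]
    rfl
  have hrho : ∀ g j, g ∈ A → j ≤ J → L.rho (g * E (Y g j)) ≤ r := by
    intro g j hg hj
    refine le_trans ?_ ((hmA g).1 hg).1
    have h1 := hY g j hg hj
    have hsplit : ∀ f : V → ℕ, ∑ v, f v =
        f v₀ + (f v₁ + ∑ v ∈ (Finset.univ.erase v₀).erase v₁, f v) := by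
      intro f
      rw [Finset.add_sum_erase _ f (Finset.mem_erase.2 ⟨hv.symm, Finset.mem_univ _⟩),
        Finset.add_sum_erase _ f (Finset.mem_univ _)]
    unfold Level.rho
    rw [hsplit, hsplit (fun v => B.m (L.sec g v))]
    have e1 : B.m (L.sec (g * E (Y g j)) v₀) ≤ B.m (L.sec g v₀) + 2 * j := by
      rw [hsec, if_pos rfl, ← h1.1]
      exact B.m_mul _ _
    have e2 : B.m (L.sec (g * E (Y g j)) v₁) + 2 * j = B.m (L.sec g v₁) := by
      rw [hsec, if_neg (fun h => hv h.symm), if_pos rfl]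
      exact h1.2
    have e3 : ∑ v ∈ (Finset.univ.erase v₀).erase v₁, B.m (L.sec (g * E (Y g j)) v) =
        ∑ v ∈ (Finset.univ.erase v₀).erase v₁, B.m (L.sec g v) := by
      refine Finset.sum_congr rfl fun v hv' => ?_
      rw [Finset.mem_erase, Finset.mem_erase] at hv'
      rw [hsec, if_neg hv'.2.1, if_neg hv'.1, mul_one]
    rw [e3]
    omega
  have hfin1 : ({x | B.m x ≤ M} : Set Γ).Finite := B.fin M
  have hfin2 : ({g | L.rho g ≤ r} : Set Γ).Finite := L.rho_finite r
  have hle : (A ×ˢ ((Finset.range (J + 1) : Finset ℕ) : Set ℕ)).ncard ≤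
      (({x | B.m x ≤ M} : Set Γ) ×ˢ ({g | L.rho g ≤ r} : Set Γ)).ncard := by
    refine Set.ncard_le_ncard_of_injOn (fun p : Γ × ℕ => (L.sec p.1 v₀, p.1 * E (Y p.1 p.2)))
      ?_ ?_ (hfin1.prod hfin2)
    · rintro ⟨g, j⟩ ⟨hg, hj⟩
      have hj' : j ≤ J := by
        have := Finset.mem_coe.1 hj
        rw [Finset.mem_range] at this
        omega
      exact ⟨((hmA g).1 hg).2.1.le, hrho g j hg hj'⟩
    · rintro ⟨g, j⟩ ⟨hg, hj⟩ ⟨g', j'⟩ ⟨hg', hj'⟩ heq
      have hj1 : j ≤ J := by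
        have := Finset.mem_coe.1 hj
        rw [Finset.mem_range] at this
        omega
      have hj2 : j' ≤ J := by
        have := Finset.mem_coe.1 hj'
        rw [Finset.mem_range] at this
        omega
      simp only [Prod.mk.injEq] at heq
      obtain ⟨h1, h2⟩ := heq
      have h3 : (Y g j : Γ) = (Y g' j' : Γ) := by
        have h4 := hsec g j v₀
        have h5 := hsec g' j' v₀
        rw [if_pos rfl] at h4 h5
        rw [h2, h1] at h4
        rw [h5] at h4
        exact (mul_left_cancel h4).symm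
      have h6 : Y g j = Y g' j' := Subtype.ext h3
      have h7 : g = g' := by
        rw [h6] at h2
        exact mul_right_cancel h2
      have h8 : j = j' := by
        have h9 := (hY g j hg hj1).1
        have h10 := (hY g' j' hg' hj2).1
        rw [h3] at h9
        omega
      rw [h7, h8]
  rw [Set.ncard_prod, Set.ncard_prod, Set.ncard_coe_finset, Finset.card_range] at hle
  rw [mul_comm (J + 1)]
  exact hle

theorem short_small (L : Level Γ B V) (hV : 2 ≤ Fintype.card V) (M : ℕ) (ε : ℝ) (hε : 0 < ε) :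
    ∃ C : ℝ, ∀ r : ℕ, (({g | L.rho g ≤ r ∧ ∃ v, B.m (L.sec g v) < M} : Set Γ).ncard : ℝ) ≤
      ε * ({g | L.rho g ≤ r} : Set Γ).ncard + C := by
  classical
  obtain ⟨F, hF⟩ : ∃ F : ℕ, F = ({x | B.m x ≤ M} : Set Γ).ncard := ⟨_, rfl⟩
  obtain ⟨J, hJ⟩ := exists_nat_gt (((Fintype.card V : ℝ) ^ 2 * F) / ε)
  rw [div_lt_iff₀ hε] at hJ
  obtain ⟨D, hD⟩ : ∃ D : Set Γ, D = {g | ∀ v, B.m (L.sec g v) < 2 * J + M} := ⟨_, rfl⟩
  have hDfin : D.Finite := by
    refine (L.rho_finite (Fintype.card V * (2 * J + M))).subset ?_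
    intro g hg
    rw [hD] at hg
    have h1 : ∀ v, B.m (L.sec g v) ≤ 2 * J + M := fun v => (hg v).le
    show L.rho g ≤ _
    calc L.rho g = ∑ v, B.m (L.sec g v) := rfl
      _ ≤ ∑ _v : V, (2 * J + M) := Finset.sum_le_sum fun v _ => h1 v
      _ = Fintype.card V * (2 * J + M) := by
          rw [Finset.sum_const, Finset.card_univ, smul_eq_mul]
  refine ⟨(D.ncard : ℝ), fun r => ?_⟩
  obtain ⟨β, hβ⟩ : ∃ β : ℕ, β = ({g | L.rho g ≤ r} : Set Γ).ncard := ⟨_, rfl⟩
  obtain ⟨A, hA⟩ : ∃ A : V × V → Set Γ, A = fun p => {g | p.1 ≠ p.2 ∧ L.rho g ≤ r ∧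
    B.m (L.sec g p.1) < M ∧ 2 * J ≤ B.m (L.sec g p.2)} := ⟨_, rfl⟩
  have hAfin : ∀ p, (A p).Finite := by
    intro p
    refine (L.rho_finite r).subset ?_
    intro g hg
    rw [hA] at hg
    exact hg.2.1
  have hAcard : ∀ p, ((A p).ncard : ℝ) * (J + 1) ≤ (F : ℝ) * β := by
    intro p
    by_cases hp : p.1 = p.2
    · have : A p = ∅ := by
        rw [hA]
        ext g
        constructor
        · intro hg
          exact absurd hp hg.1
        · intro hg
          exact absurd hg (Set.notMem_empty g)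
      rw [this, Set.ncard_empty]
      simp only [Nat.cast_zero, zero_mul]
      positivity
    · have h1 := Short_key L p.1 p.2 hp M J r
      have h2 : A p = {g | L.rho g ≤ r ∧ B.m (L.sec g p.1) < M ∧ 2 * J ≤ B.m (L.sec g p.2)} := by
        rw [hA]
        ext g
        constructor
        · intro hg
          exact hg.2
        · intro hg
          exact ⟨hp, hg⟩
      rw [← h2, ← hF, ← hβ] at h1
      have h3 : (((J + 1) * (A p).ncard : ℕ) : ℝ) ≤ ((F * β : ℕ) : ℝ) := Nat.cast_le.2 h1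
      push_cast at h3
      linarith
  have hsub : ({g | L.rho g ≤ r ∧ ∃ v, B.m (L.sec g v) < M} : Set Γ) ⊆
      (((Finset.univ.biUnion fun p : V × V => (hAfin p).toFinset) ∪ hDfin.toFinset :
        Finset Γ) : Set Γ) := by
    rintro g ⟨hg1, v₀, hg2⟩
    rw [Finset.mem_coe, Finset.mem_union]
    by_cases h : ∃ v₁, v₀ ≠ v₁ ∧ 2 * J ≤ B.m (L.sec g v₁)
    · obtain ⟨v₁, h1, h2⟩ := h
      left
      rw [Finset.mem_biUnion]
      refine ⟨(v₀, v₁), Finset.mem_univ _, ?_⟩
      rw [Set.Finite.mem_toFinset, hA]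
      exact ⟨h1, hg1, hg2, h2⟩
    · right
      rw [Set.Finite.mem_toFinset, hD]
      intro v
      by_cases hvv : v₀ = v
      · subst hvv
        omega
      · by_contra hcon
        exact h ⟨v, hvv, by omega⟩
  have h1 := Set.ncard_le_ncard hsub (Finset.finite_toSet _)
  rw [Set.ncard_coe_finset] at h1
  have h2 : ((Finset.univ.biUnion fun p : V × V => (hAfin p).toFinset) ∪ hDfin.toFinset).card ≤
      ∑ p : V × V, (A p).ncard + D.ncard := by
    refine (Finset.card_union_le _ _).trans (add_le_add ?_ ?_)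
    · refine Finset.card_biUnion_le.trans (Finset.sum_le_sum fun p _ => ?_)
      rw [Set.ncard_eq_toFinset_card _ (hAfin p)]
    · rw [Set.ncard_eq_toFinset_card _ hDfin]
  have h3 : (({g | L.rho g ≤ r ∧ ∃ v, B.m (L.sec g v) < M} : Set Γ).ncard : ℝ) ≤
      ∑ p : V × V, ((A p).ncard : ℝ) + D.ncard := by
    have := Nat.cast_le (α := ℝ).2 (h1.trans h2)
    push_cast at this
    exact this
  have hJ1 : (0 : ℝ) < J + 1 := by positivity
  have h4 : ∑ p : V × V, ((A p).ncard : ℝ) ≤ ε * β := by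
    calc ∑ p : V × V, ((A p).ncard : ℝ) ≤ ∑ _p : V × V, (F : ℝ) * β / (J + 1) :=
          Finset.sum_le_sum fun p _ => (le_div_iff₀ hJ1).2 (hAcard p)
      _ = (Fintype.card V : ℝ) ^ 2 * F * β / (J + 1) := by
          rw [Finset.sum_const, Finset.card_univ, Fintype.card_prod, nsmul_eq_mul]
          push_cast
          ring
      _ ≤ ε * β := by
          rw [div_le_iff₀ hJ1]
          have hb : (0 : ℝ) ≤ β := Nat.cast_nonneg _
          have h5 : (Fintype.card V : ℝ) ^ 2 * F ≤ ε * (J + 1) := by nlinarith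
          calc (Fintype.card V : ℝ) ^ 2 * F * β ≤ ε * (J + 1) * β :=
                mul_le_mul_of_nonneg_right h5 hb
            _ = ε * β * (J + 1) := by ring
  rw [← hβ]
  linarith

end Pool.Agent.H40.GG
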