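import Pool.Agent.H40.GG.CntU

/-! # Zero defect, part 2: reduction to elements of K on the level

E = {e | act e = 1, all sections in K} is a normal subgroup of Γ (sec_mul, sec_inv, K normal), and
Γ / E is finite: g ↦ (act g, v ↦ sec g v mod K) separates the cosets g E and K has finite index.
Let L be the set of letters; every g is a product of a list of letters (Submonoid.closure), so there is
M₀ such that every g in Γ is x₁ ... x_j e with xᵢ letters, j ≤ M₀, e ∈ E.
words_aux: by induction on j: if g = x₁ ... x_j e, e ∈ E, and all sections of g have length ≥ j, then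
g = g' * l.prod, g' ∈ E, all elements of l of rho ≤ 1, l.length = j, rho g = rho g' + (l.map rho).sum.
(letters applied to x = x_j gives e', s = x_j e', g s⁻¹ = x₁ ... x_(j-1) (x_j e e'⁻¹ x_j⁻¹), and by
sec_mul_inv the sections of g s⁻¹ have lengths ≥ j - 1 because m (sec s v) ≤ rho s ≤ 1.)
words: M = M₀ + 1; rho g' ≥ rho g - j ≥ M - M₀ ≥ 1 (V nonempty). -/

namespace Pool.Agent.H40.GG

variable {Γ : Type} [Group Γ] {B : Base Γ} {V : Type} [Fintype V]

/-- the property of belonging to E -/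
private def ZD2_E (L : Level Γ B V) (e : Γ) : Prop := L.act e = 1 ∧ ∀ v, L.sec e v ∈ B.K

private theorem ZD2_mul (L : Level Γ B V) {e f : Γ} (he : ZD2_E L e) (hf : ZD2_E L f) :
    ZD2_E L (e * f) := by
  refine ⟨by rw [map_mul, he.1, hf.1, one_mul], fun v => ?_⟩
  rw [L.sec_mul]
  exact B.K.mul_mem (he.2 _) (hf.2 _)

private theorem ZD2_inv (L : Level Γ B V) {e : Γ} (he : ZD2_E L e) : ZD2_E L e⁻¹ := by
  refine ⟨by rw [map_inv, he.1, inv_one], fun v => ?_⟩
  rw [L.sec_inv]
  exact B.K.inv_mem (he.2 _)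

private theorem ZD2_conj (L : Level Γ B V) (g : Γ) {e : Γ} (he : ZD2_E L e) :
    ZD2_E L (g * e * g⁻¹) := by
  refine ⟨by rw [map_mul, map_mul, he.1, map_inv, mul_one, mul_inv_cancel], fun v => ?_⟩
  have h1 : L.sec (g * e * g⁻¹) v = L.sec g (L.act g⁻¹ v) * L.sec e (L.act g⁻¹ v) *
      (L.sec g (L.act g⁻¹ v))⁻¹ := by
    rw [L.sec_mul, L.sec_mul, he.1, L.sec_inv, map_inv]
    rfl
  rw [h1]
  exact B.normal.conj_mem _ (he.2 _) _

private theorem ZD2_aux (L : Level Γ B V) (S : Set Γ)
    (hS : ∀ x ∈ S, ∀ g, (∀ v, 1 ≤ B.m (L.sec g v)) →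
      ∃ e, L.act e = 1 ∧ (∀ v, L.sec e v ∈ B.K) ∧
      (∑ v, B.m (L.sec (x * e) v)) ≤ 1 ∧
      (∑ v, B.m (L.sec (g * (x * e)⁻¹) v)) + (∑ v, B.m (L.sec (x * e) v)) =
        ∑ v, B.m (L.sec g v)) :
    ∀ (n : ℕ) (l : List Γ), l.length = n → (∀ x ∈ l, x ∈ S) → ∀ e g, ZD2_E L e →
      g = l.prod * e → (∀ v, n ≤ B.m (L.sec g v)) →
      ∃ (g' : Γ) (l' : List Γ), g = g' * l'.prod ∧ ZD2_E L g' ∧ (∀ s ∈ l', L.rho s ≤ 1) ∧
        l'.length = n ∧ L.rho g = L.rho g' + (l'.map L.rho).sum := by
  intro n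
  induction n with
  | zero =>
      intro l hl _ e g he hg _
      have hl0 : l = [] := List.length_eq_zero_iff.mp hl
      subst hl0
      refine ⟨g, [], by simp, ?_, by simp, rfl, by simp⟩
      rw [hg, List.prod_nil, one_mul]
      exact he
  | succ n ih =>
      intro l hl hmem e g he hg hm
      have hne : l ≠ [] := by
        rintro rfl
        simp at hl
      obtain ⟨l0, x, rfl⟩ : ∃ l0 x, l = l0 ++ [x] :=
        ⟨l.dropLast, l.getLast hne, (List.dropLast_append_getLast hne).symm⟩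
      have hx : x ∈ S := hmem x (by simp)
      obtain ⟨e', he1, he2, he3, he4⟩ := hS x hx g (fun v => le_trans (by omega) (hm v))
      have hE' : ZD2_E L e' := ⟨he1, he2⟩
      have hl0 : l0.length = n := by
        simpa using hl
      have hgs : g * (x * e')⁻¹ = l0.prod * (x * (e * e'⁻¹) * x⁻¹) := by
        rw [hg, List.prod_append, List.prod_singleton]
        group
      have hsec : ∀ v, n ≤ B.m (L.sec (g * (x * e')⁻¹) v) := by
        intro v
        obtain ⟨w, rfl⟩ := (L.act (x * e')).surjective v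
        rw [L.sec_mul_inv]
        have h1 := hm w
        have h2 : B.m (L.sec (x * e') w) ≤ 1 := (L.m_le_rho (x * e') w).trans he3
        have h3 := B.m_mul (L.sec g w * (L.sec (x * e') w)⁻¹) (L.sec (x * e') w)
        rw [inv_mul_cancel_right] at h3
        omega
      obtain ⟨g', l', h1, h2, h3, h4, h5⟩ := ih l0 hl0 (fun y hy => hmem y (by simp [hy]))
        _ _ (ZD2_conj L x (ZD2_mul L he (ZD2_inv L hE'))) hgs hsec
      refine ⟨g', l' ++ [x * e'], ?_, h2, ?_, by simp [h4], ?_⟩
      · rw [List.prod_append, List.prod_singleton, ← mul_assoc, ← h1, inv_mul_cancel_right]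
      · intro s hs
        rcases List.mem_append.mp hs with hs | hs
        · exact h3 s hs
        · rw [List.mem_singleton] at hs
          rw [hs]
          exact he3
      · rw [List.map_append, List.sum_append]
        simp only [List.map_cons, List.map_nil, List.sum_cons, List.sum_nil]
        have h6 : L.rho (g * (x * e')⁻¹) + L.rho (x * e') = L.rho g := he4
        omega

theorem words [Nonempty V] (L : Level Γ B V) : ∃ M : ℕ, 1 ≤ M ∧ ∀ g : Γ,
    (∀ v, M ≤ B.m (L.sec g v)) → ∃ (g' : Γ) (l : List Γ), g = g' * l.prod ∧ L.act g' = 1 ∧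
      (∀ v, L.sec g' v ∈ B.K) ∧ (∀ s ∈ l, L.rho s ≤ 1) ∧
      L.rho g = L.rho g' + (l.map L.rho).sum ∧ 1 ≤ L.rho g' := by
  classical
  obtain ⟨S, hS1, hS2⟩ := L.letters
  have hlist : ∀ g : Γ, ∃ l : List Γ, (∀ x ∈ l, x ∈ S) ∧ l.prod = g := by
    intro g
    have hg : g ∈ Submonoid.closure S := by rw [hS1]; trivial
    exact Submonoid.exists_list_of_mem_closure hg
  have : B.K.FiniteIndex := B.findex
  have : Finite (Γ ⧸ B.K) := inferInstance
  set φ : Γ → Equiv.Perm V × (V → Γ ⧸ B.K) :=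
    fun g => (L.act g, fun v => (QuotientGroup.mk (L.sec g v) : Γ ⧸ B.K)) with hφ
  have hφE : ∀ g h, φ g = φ h → ZD2_E L (g⁻¹ * h) := by
    intro g h hgh
    simp only [hφ, Prod.mk.injEq] at hgh
    obtain ⟨ha, hs⟩ := hgh
    refine ⟨by rw [map_mul, map_inv, ha, inv_mul_cancel], fun v => ?_⟩
    have h1 : (L.act h)⁻¹ (L.act h v) = v := (L.act h).symm_apply_apply v
    rw [L.sec_mul, L.sec_inv, ha, h1]
    exact QuotientGroup.eq.mp (congrFun hs v)
  choose lst hlst1 hlst2 using hlist
  have : Finite (Equiv.Perm V × (V → Γ ⧸ B.K)) := inferInstance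
  have : Fintype (Equiv.Perm V × (V → Γ ⧸ B.K)) := Fintype.ofFinite _
  set rep : Equiv.Perm V × (V → Γ ⧸ B.K) → Γ :=
    fun c => if h : ∃ g, φ g = c then h.choose else 1 with hrep
  have hrep2 : ∀ g, φ (rep (φ g)) = φ g := by
    intro g
    have h : ∃ g', φ g' = φ g := ⟨g, rfl⟩
    simp only [hrep, dif_pos h]
    exact h.choose_spec
  set M0 : ℕ := Finset.univ.sup (fun c => (lst (rep c)).length) with hM0
  refine ⟨M0 + 1, by omega, fun g hg => ?_⟩
  have hlen : (lst (rep (φ g))).length ≤ M0 :=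
    Finset.le_sup (f := fun c => (lst (rep c)).length) (Finset.mem_univ (φ g))
  obtain ⟨g', l', h1, h2, h3, h4, h5⟩ := ZD2_aux L S hS2 _ (lst (rep (φ g))) rfl
    (hlst1 _) _ g (hφE _ _ (hrep2 g)) (by rw [hlst2]; group)
    (fun v => le_trans (by omega) (hg v))
  refine ⟨g', l', h1, h2.1, h2.2, h3, h5, ?_⟩
  obtain ⟨v⟩ := (inferInstance : Nonempty V)
  have h6 : (l'.map L.rho).sum ≤ l'.length := by
    have : ∀ l : List Γ, (∀ s ∈ l, L.rho s ≤ 1) → (l.map L.rho).sum ≤ l.length := by
      intro l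
      induction l with
      | nil => intro _; simp
      | cons a l ih =>
          intro h
          simp only [List.map_cons, List.sum_cons, List.length_cons]
          have ha := h a (by simp)
          have hl := ih (fun s hs => h s (by simp [hs]))
          omega
    exact this l' h3
  have h7 := L.m_le_rho g v
  have h8 := hg v
  omega

end Pool.Agent.H40.GG
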