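import Pool.Agent.H40.GG.ZD1
import Pool.Agent.H40.GG.ZD2

/-! # Zero defect: elements with long sections

Call (h, t) good if h = u * w with u ∈ wordBall S i, rho w ≤ q, 1 ≤ q ≤ R, t = R i + q
(S = {s | rho s ≤ R}).  If (h, t) is good and rho s ≤ 1 then (h s, t + rho s) is good: if
q + rho s ≤ R use w s; otherwise q = R, rho s = 1: u w ∈ wordBall S (i+1), new w = s, q = 1.
Start with g' from words (even_ball), multiply by the elements of l: (g, rho g) is good, so
g ∈ wordBall S (i+1), rho g = R i + q, and rho g ≤ R n gives i + 1 ≤ n. -/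

namespace Pool.Agent.H40.GG

variable {Γ : Type} [Group Γ] {B : Base Γ} {V : Type} [Fintype V]

theorem ZD3_mul {Γ : Type} [Group Γ] (S : Set Γ) (i : ℕ) (u w : Γ) (hu : u ∈ wordBall S i)
    (hw : w ∈ S) : u * w ∈ wordBall S (i + 1) := by
  obtain ⟨l, hl, hS, hp⟩ := hu
  refine ⟨l ++ [w], ?_, ?_, ?_⟩
  · simp only [List.length_append, List.length_singleton]
    omega
  · intro x hx
    rcases List.mem_append.1 hx with h | h
    · exact hS x h
    · rw [List.mem_singleton] at h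
      subst h
      exact Or.inl hw
  · rw [List.prod_append, hp, List.prod_singleton]

theorem ZD3_mono {Γ : Type} [Group Γ] (S : Set Γ) (i n : ℕ) (h : i ≤ n) (g : Γ)
    (hg : g ∈ wordBall S i) : g ∈ wordBall S n := by
  obtain ⟨l, hl, hS, hp⟩ := hg
  exact ⟨l, hl.trans h, hS, hp⟩

/-- good pairs -/
def ZD3_good (L : Level Γ B V) (R : ℕ) (h : Γ) (t : ℕ) : Prop :=
  ∃ i u w q, h = u * w ∧ u ∈ wordBall {s | L.rho s ≤ R} i ∧ L.rho w ≤ q ∧ 1 ≤ q ∧ q ≤ R ∧
      t = R * i + q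

theorem ZD3_step (L : Level Γ B V) (R : ℕ) (hR2 : 2 ≤ R) (h s : Γ) (t : ℕ)
    (hg : ZD3_good L R h t) (hs : L.rho s ≤ 1) : ZD3_good L R (h * s) (t + L.rho s) := by
  obtain ⟨i, u, w, q, hh, hu, hw, h1, h2, ht⟩ := hg
  by_cases hq : q + L.rho s ≤ R
  · refine ⟨i, u, w * s, q + L.rho s, ?_, hu, ?_, by omega, hq, by omega⟩
    · rw [hh, mul_assoc]
    · exact (L.rho_mul w s).trans (by omega)
  · refine ⟨i + 1, u * w, s, 1, ?_, ?_, hs, le_refl 1, by omega, ?_⟩
    · rw [hh]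
    · exact ZD3_mul _ i u w hu (by
        show L.rho w ≤ R
        omega)
    · have h3 : q = R := by omega
      have h4 : L.rho s = 1 := by omega
      rw [ht, h3, h4]
      ring

theorem ZD3_list (L : Level Γ B V) (R : ℕ) (hR2 : 2 ≤ R) : ∀ (l : List Γ) (h : Γ) (t : ℕ),
    ZD3_good L R h t → (∀ s ∈ l, L.rho s ≤ 1) →
      ZD3_good L R (h * l.prod) (t + (l.map L.rho).sum)
  | [], h, t, hg, _ => by simpa using hg
  | s :: l, h, t, hg, hl => by
      have h1 := ZD3_step L R hR2 h s t hg (hl s (by simp))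
      have h2 := ZD3_list L R hR2 l (h * s) (t + L.rho s) h1
        (fun x hx => hl x (List.mem_cons_of_mem _ hx))
      rw [List.prod_cons, List.map_cons, List.sum_cons, ← mul_assoc, ← add_assoc]
      exact h2

theorem zero_defect [Nonempty V] (L : Level Γ B V) (R : ℕ) (hR : Even R) (hR2 : 2 ≤ R) :
    ∃ M : ℕ, ∀ g : Γ, (∀ v, M ≤ B.m (L.sec g v)) → ∀ n : ℕ, L.rho g ≤ R * n →
      g ∈ wordBall {s | L.rho s ≤ R} n := by
  obtain ⟨M, _, hM⟩ := words L
  refine ⟨M, ?_⟩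
  intro g hg n hn
  obtain ⟨g', l, hgl, _, hK, hl, hrho, h1⟩ := hM g hg
  obtain ⟨i, u, w, q, e1, e2, e3, e4, e5, e6⟩ := even_ball L R hR hR2 g' hK h1
  have hgood : ZD3_good L R g' (L.rho g') := ⟨i, u, w, q, e1, e2, e3, e4, e5, e6⟩
  have h2 := ZD3_list L R hR2 l g' (L.rho g') hgood hl
  rw [← hgl, ← hrho] at h2
  obtain ⟨i, u, w, q, f1, f2, f3, f4, f5, f6⟩ := h2
  have hin : i + 1 ≤ n := by
    by_contra hc
    have h3 : n ≤ i := by omega
    have h4 : R * n ≤ R * i := Nat.mul_le_mul_left R h3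
    omega
  rw [f1]
  exact ZD3_mono _ (i + 1) n hin _ (ZD3_mul _ i u w f2 (by
    show L.rho w ≤ R
    omega))

/-- The trivial inclusion. -/
theorem ball_sub (L : Level Γ B V) (R n : ℕ) (g : Γ) (hg : g ∈ wordBall {s | L.rho s ≤ R} n) :
    L.rho g ≤ R * n := by
  obtain ⟨l, hl, hS, hp⟩ := hg
  rw [← hp]
  refine (L.rho_prod l).trans ?_
  have h1 : ∀ x ∈ l.map L.rho, x ≤ R := by
    intro x hx
    obtain ⟨y, hy, rfl⟩ := List.mem_map.1 hx
    rcases hS y hy with h | h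
    · exact h
    · have h' : L.rho y⁻¹ ≤ R := h
      rwa [L.rho_inv] at h'
  have h2 := List.sum_le_card_nsmul (l.map L.rho) R h1
  rw [List.length_map, smul_eq_mul] at h2
  calc (l.map L.rho).sum ≤ l.length * R := h2
    _ ≤ n * R := Nat.mul_le_mul_right R hl
    _ = R * n := mul_comm _ _

end Pool.Agent.H40.GG
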