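import Pool.Agent.H40.GG.Cnt2
import Pool.Agent.H40.GG.Short
import Pool.Agent.H40.GG.ZD3

/-! # The abstract theorem

Given ε and R choose η > 0 with ((1 + 2η)/(1 - η))^(R/2) / (1 - 2η) ≤ 1 + ε, δ > 0 with exp δ small,
a₀ = 1 / (∑' ...) (or 1 if the sum is 0), N' with exp δ (1 + 1/(a₀ N')) ≤ 1 + η, N₀ = max (N' index) 2.
β r = ncard {rho ≤ r} → ∞ (Γ infinite, every g has finite rho).
β (r+2) ≤ ncard {rho ≤ r+2, all sections ≥ 2} + ncard {rho ≤ r+2, some section < 2}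
  ≤ (1+η) β r + η β (r+2) + C   (cnt_smooth, short_small), so β (r+2) ≤ ((1+2η)/(1-η)) β r for r large.
growth (n+1) ≤ β (R n + R) ≤ ((1+2η)/(1-η))^(R/2) β (R n), and (zero_defect, short_small)
growth n ≥ β (R n) - ncard {rho ≤ R n, some section < M} ≥ (1-2η) β (R n) for n large. -/


namespace Pool.Agent.H40.GG

variable {Γ : Type} [Group Γ]

theorem Abs_eta (k : ℕ) (ε : ℝ) (hε : 0 < ε) : ∃ η : ℝ, 0 < η ∧ η < 1 / 4 ∧
    ((1 + 2 * η) / (1 - η)) ^ k ≤ (1 + ε) * (1 - 2 * η) := by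
  have hc : ContinuousAt (fun η : ℝ => (1 + ε) * (1 - 2 * η) - ((1 + 2 * η) / (1 - η)) ^ k) 0 := by
    refine ContinuousAt.sub (by fun_prop) (ContinuousAt.pow (ContinuousAt.div (by fun_prop)
      (by fun_prop) (by norm_num)) k)
  have h0 : 0 < (fun η : ℝ => (1 + ε) * (1 - 2 * η) - ((1 + 2 * η) / (1 - η)) ^ k) 0 := by
    simp only [mul_zero, sub_zero, add_zero, mul_one, div_one, one_pow]
    linarith
  have h1 := hc.eventually (lt_mem_nhds h0)
  rw [Metric.eventually_nhds_iff] at h1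
  obtain ⟨r, hr, h⟩ := h1
  refine ⟨min (r / 2) (1 / 8), by positivity, ?_, ?_⟩
  · exact lt_of_le_of_lt (min_le_right _ _) (by norm_num)
  · have h2 := h (y := min (r / 2) (1 / 8)) (by
      rw [Real.dist_eq, sub_zero, abs_of_nonneg (by positivity)]
      exact lt_of_le_of_lt (min_le_left _ _) (by linarith))
    linarith

theorem Abs_infty [Infinite Γ] {B : Base Γ} {V : Type} [Fintype V] (L : Level Γ B V) (x : ℝ) :
    ∃ r₀ : ℕ, ∀ r ≥ r₀, x ≤ (({g | L.rho g ≤ r} : Set Γ).ncard : ℝ) := by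
  obtain ⟨K, hK⟩ := exists_nat_ge x
  obtain ⟨s, hs⟩ := Infinite.exists_subset_card_eq Γ K
  refine ⟨s.sup L.rho, fun r hr => hK.trans ?_⟩
  have h1 : (s : Set Γ) ⊆ {g | L.rho g ≤ r} := by
    intro g hg
    exact (Finset.le_sup (f := L.rho) (Finset.mem_coe.1 hg)).trans hr
  have h2 := Set.ncard_le_ncard h1 (L.rho_finite r)
  rw [Set.ncard_coe_finset, hs] at h2
  exact_mod_cast h2

theorem Abs_split {B : Base Γ} {V : Type} [Fintype V] (L : Level Γ B V) (M r : ℕ) :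
    (({g | L.rho g ≤ r} : Set Γ).ncard : ℝ) ≤
      (({g | L.rho g ≤ r ∧ ∀ v, M ≤ B.m (L.sec g v)} : Set Γ).ncard : ℝ) +
      (({g | L.rho g ≤ r ∧ ∃ v, B.m (L.sec g v) < M} : Set Γ).ncard : ℝ) := by
  have h1 : ({g | L.rho g ≤ r} : Set Γ) = ({g | L.rho g ≤ r ∧ ∀ v, M ≤ B.m (L.sec g v)} : Set Γ) ∪
      ({g | L.rho g ≤ r ∧ ∃ v, B.m (L.sec g v) < M} : Set Γ) := by
    ext g
    constructor
    · intro hg
      by_cases h : ∀ v, M ≤ B.m (L.sec g v)
      · exact Or.inl ⟨hg, h⟩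
      · push Not at h
        exact Or.inr ⟨hg, h⟩
    · rintro (h | h)
      · exact h.1
      · exact h.1
  rw [h1]
  exact_mod_cast Set.ncard_union_le _ _

theorem abs_main [Infinite Γ] (B : Base Γ) (R : ℕ) (hR : Even R) (hR2 : 2 ≤ R) (ε : ℝ)
    (hε : 0 < ε) : ∃ N₀ : ℕ, ∀ (V : Type) [Fintype V] (L : Level Γ B V), N₀ ≤ Fintype.card V →
      ∃ n₀ : ℕ, ∀ n ≥ n₀, (growth {s | L.rho s ≤ R} (n + 1) : ℝ) ≤
        (1 + ε) * growth {s | L.rho s ≤ R} n := by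
  obtain ⟨k, hk⟩ := hR
  obtain ⟨η, hη, hη4, hηε⟩ := Abs_eta k ε hε
  obtain ⟨δ, hδdef⟩ : ∃ δ : ℝ, δ = Real.log (1 + η / 2) := ⟨_, rfl⟩
  have hδ : 0 < δ := by
    rw [hδdef]
    exact Real.log_pos (by linarith)
  have hexp : Real.exp δ = 1 + η / 2 := by
    rw [hδdef, Real.exp_log (by linarith)]
  obtain ⟨S, hS⟩ : ∃ S : ℝ, S = ∑' k : ℕ, (cU B k : ℝ) * Real.exp (-(δ * (k + 1))) := ⟨_, rfl⟩
  have hS0 : 0 ≤ S := by
    rw [hS]
    exact tsum_nonneg fun k => mul_nonneg (Nat.cast_nonneg _) (Real.exp_pos _).le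
  obtain ⟨a₀, ha₀⟩ : ∃ a₀ : ℝ, a₀ = 1 / (S + 1) := ⟨_, rfl⟩
  have ha₀pos : 0 < a₀ := by rw [ha₀]; positivity
  have hs1 : a₀ * S ≤ 1 := by
    rw [ha₀, one_div, inv_mul_le_iff₀ (by linarith)]
    linarith
  obtain ⟨κ, hκ⟩ : ∃ κ : ℝ, κ = (η / 2) / (1 + η / 2) := ⟨_, rfl⟩
  have hκpos : 0 < κ := by rw [hκ]; positivity
  obtain ⟨N', hN'⟩ := exists_nat_gt (1 / (a₀ * κ))
  have hN'pos : (0 : ℝ) < N' := lt_trans (by positivity) hN'
  have hN'1 : 1 ≤ N' := by exact_mod_cast hN'pos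
  have hN'κ : 1 / (a₀ * N') ≤ κ := by
    rw [div_le_iff₀ (by positivity)]
    rw [div_lt_iff₀ (by positivity)] at hN'
    nlinarith
  have hfac : Real.exp δ * (1 + 1 / (a₀ * N')) ≤ 1 + η := by
    rw [hexp]
    have h1 : (1 + η / 2) * (1 + κ) = 1 + η := by
      rw [hκ]
      field_simp
      ring
    rw [← h1]
    exact mul_le_mul_of_nonneg_left (by linarith) (by linarith)
  refine ⟨max (N' * B.K.index) 2, fun V _ L hV => ?_⟩
  have hV2 : 2 ≤ Fintype.card V := (le_max_right _ _).trans hV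
  have hVN : N' * B.K.index ≤ Fintype.card V := (le_max_left _ _).trans hV
  have hne : Nonempty V := Fintype.card_pos_iff.1 (by omega)
  obtain ⟨β, hβ⟩ : ∃ β : ℕ → ℝ, β = fun r => (({g | L.rho g ≤ r} : Set Γ).ncard : ℝ) := ⟨_, rfl⟩
  have hβ0 : ∀ r, 0 ≤ β r := fun r => by rw [hβ]; exact Nat.cast_nonneg _
  obtain ⟨C, hC⟩ := short_small L hV2 2 η hη
  obtain ⟨M, hM⟩ := zero_defect L R ⟨k, hk⟩ hR2
  obtain ⟨C', hC'⟩ := short_small L hV2 M η hη
  obtain ⟨r₁, hr₁⟩ := Abs_infty L (C / η)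
  obtain ⟨r₂, hr₂⟩ := Abs_infty L (C' / η)
  have hstep : ∀ r ≥ r₁, β (r + 2) ≤ (1 + 2 * η) / (1 - η) * β r := by
    intro r hr
    have h1 := Abs_split L 2 (r + 2)
    have h2 := cnt_smooth L δ a₀ hδ ha₀pos (by rw [← hS]; exact hs1) N' hN'1 hVN r
    have h3 := hC (r + 2)
    have h4 := hr₁ r hr
    rw [div_le_iff₀ hη] at h4
    have h5 : Real.exp δ * (1 + 1 / (a₀ * N')) * (({g | L.rho g ≤ r} : Set Γ).ncard : ℝ) ≤
        (1 + η) * (({g | L.rho g ≤ r} : Set Γ).ncard : ℝ) :=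
      mul_le_mul_of_nonneg_right hfac (Nat.cast_nonneg _)
    rw [div_mul_eq_mul_div, le_div_iff₀ (by linarith), hβ]
    simp only
    nlinarith
  have hpow : ∀ j : ℕ, ∀ r ≥ r₁, β (r + 2 * j) ≤ ((1 + 2 * η) / (1 - η)) ^ j * β r := by
    intro j
    induction j with
    | zero => intro r _; simp
    | succ j ih =>
        intro r hr
        have h1 := hstep (r + 2 * j) (by omega)
        have h2 := ih r hr
        have h3 : r + 2 * (j + 1) = r + 2 * j + 2 := by ring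
        rw [h3, pow_succ, mul_assoc]
        have h4 : 0 ≤ (1 + 2 * η) / (1 - η) := div_nonneg (by linarith) (by linarith)
        calc β (r + 2 * j + 2) ≤ (1 + 2 * η) / (1 - η) * β (r + 2 * j) := h1
          _ ≤ (1 + 2 * η) / (1 - η) * (((1 + 2 * η) / (1 - η)) ^ j * β r) :=
              mul_le_mul_of_nonneg_left h2 h4
          _ = _ := by ring
  refine ⟨max r₁ r₂, fun n hn => ?_⟩
  have hn1 : r₁ ≤ R * n := ((le_max_left _ _).trans hn).trans (Nat.le_mul_of_pos_left n (by omega))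
  have hn2 : r₂ ≤ R * n := ((le_max_right _ _).trans hn).trans (Nat.le_mul_of_pos_left n (by omega))
  have hup : (growth {s | L.rho s ≤ R} (n + 1) : ℝ) ≤ β (R * n + 2 * k) := by
    rw [hβ]
    simp only
    unfold growth
    have h1 : wordBall {s | L.rho s ≤ R} (n + 1) ⊆ ({g | L.rho g ≤ R * n + 2 * k} : Set Γ) := by
      intro g hg
      have h2 := ball_sub L R (n + 1) g hg
      show L.rho g ≤ R * n + 2 * k
      have h3 : R * (n + 1) = R * n + 2 * k := by rw [mul_add, mul_one]; omega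
      rw [← h3]
      exact h2
    exact_mod_cast Set.ncard_le_ncard h1 (L.rho_finite _)
  have hlow : (1 - 2 * η) * β (R * n) ≤ (growth {s | L.rho s ≤ R} n : ℝ) := by
    have h1 := Abs_split L M (R * n)
    have h2 := hC' (R * n)
    have h3 := hr₂ (R * n) hn2
    rw [div_le_iff₀ hη] at h3
    have h4 : (({g | L.rho g ≤ R * n ∧ ∀ v, M ≤ B.m (L.sec g v)} : Set Γ).ncard : ℝ) ≤
        (growth {s | L.rho s ≤ R} n : ℝ) := by
      unfold growth
      have h5 : ({g | L.rho g ≤ R * n ∧ ∀ v, M ≤ B.m (L.sec g v)} : Set Γ) ⊆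
          wordBall {s | L.rho s ≤ R} n := by
        rintro g ⟨hg1, hg2⟩
        exact hM g hg2 n hg1
      have h6 : (wordBall {s | L.rho s ≤ R} n).Finite :=
        (L.rho_finite (R * n)).subset fun g hg => ball_sub L R n g hg
      exact_mod_cast Set.ncard_le_ncard h5 h6
    rw [hβ]
    simp only
    linarith
  have h1 := hpow k (R * n) hn1
  have h2 : ((1 + 2 * η) / (1 - η)) ^ k * β (R * n) ≤ (1 + ε) * (1 - 2 * η) * β (R * n) :=
    mul_le_mul_of_nonneg_right hηε (hβ0 _)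
  have h3 : (1 + ε) * ((1 - 2 * η) * β (R * n)) ≤ (1 + ε) * (growth {s | L.rho s ≤ R} n : ℝ) :=
    mul_le_mul_of_nonneg_left hlow (by linarith)
  linarith

end Pool.Agent.H40.GG
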