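import Pool.Agent.H40.GG.Defs

/-! # Abstract set-up: a length function m on a group, a normal subgroup K of finite index, and a
level: a finite set V of vertices with sections in the group. -/

namespace Pool.Agent.H40.GG

/-- A length function m on Γ (values in ℕ, finite balls of subexponential size), with a normal
subgroup K of finite index on which m is even and such that from every element of length at least
two one can split off on the right an element of K of length two. -/
structure Base (Γ : Type) [Group Γ] where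
  m : Γ → ℕ
  K : Subgroup Γ
  m_one : m 1 = 0
  m_inv : ∀ x, m x⁻¹ = m x
  m_mul : ∀ x y, m (x * y) ≤ m x + m y
  fin : ∀ r, {x | m x ≤ r}.Finite
  even : ∀ x ∈ K, Even (m x)
  pair : ∀ x, 2 ≤ m x → ∃ y ∈ K, m y ≤ 2 ∧ m (x * y⁻¹) + 2 = m x
  findex : K.FiniteIndex
  normal : K.Normal
  subexp : ∀ δ : ℝ, 0 < δ → ∃ C : ℝ, ∀ r : ℕ,
    (({x | m x ≤ r} : Set Γ).ncard : ℝ) ≤ C * Real.exp (δ * r)

/-- A level: Γ acts on the finite set V, and every g in Γ has a section sec g v in Γ at every
v in V; all families of elements of K occur as families of sections; letters: Γ is generated as a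
monoid by elements x such that for every g with nontrivial sections there is s = x * e, e a family
of elements of K, of cost at most 1, that can be split off from g on the right without loss. -/
structure Level (Γ : Type) [Group Γ] (B : Base Γ) (V : Type) [Fintype V] where
  act : Γ →* Equiv.Perm V
  sec : Γ → V → Γ
  sec_mul : ∀ g h v, sec (g * h) v = sec g (act h v) * sec h v
  faithful : ∀ g h, act g = act h → (∀ v, sec g v = sec h v) → g = h
  emb : ∀ y : V → Γ, (∀ v, y v ∈ B.K) → ∃ g, act g = 1 ∧ ∀ v, sec g v = y v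
  letters : ∃ L : Set Γ, Submonoid.closure L = ⊤ ∧ ∀ x ∈ L, ∀ g, (∀ v, 1 ≤ B.m (sec g v)) →
    ∃ e, act e = 1 ∧ (∀ v, sec e v ∈ B.K) ∧
      (∑ v, B.m (sec (x * e) v)) ≤ 1 ∧
      (∑ v, B.m (sec (g * (x * e)⁻¹) v)) + (∑ v, B.m (sec (x * e) v)) = ∑ v, B.m (sec g v)

variable {Γ : Type} [Group Γ] {B : Base Γ} {V : Type} [Fintype V]

namespace Level

/-- The length of g on the level V: the sum of the lengths of its sections. -/
def rho (L : Level Γ B V) (g : Γ) : ℕ := ∑ v, B.m (L.sec g v)

theorem sec_one (L : Level Γ B V) (v : V) : L.sec 1 v = 1 := by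
  have h := L.sec_mul 1 1 v
  simp only [mul_one, map_one, Equiv.Perm.coe_one, id] at h
  exact (mul_eq_left.mp h.symm)

theorem sec_inv (L : Level Γ B V) (g : Γ) (v : V) :
    L.sec g⁻¹ v = (L.sec g ((L.act g)⁻¹ v))⁻¹ := by
  have h := L.sec_mul g g⁻¹ v
  rw [mul_inv_cancel, sec_one, map_inv] at h
  exact (inv_eq_of_mul_eq_one_right h.symm).symm

/-- sections of g * s⁻¹ -/
theorem sec_mul_inv (L : Level Γ B V) (g s : Γ) (v : V) :
    L.sec (g * s⁻¹) (L.act s v) = L.sec g v * (L.sec s v)⁻¹ := by
  rw [L.sec_mul, L.sec_inv, map_inv]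
  simp

theorem rho_one (L : Level Γ B V) : L.rho 1 = 0 := by
  simp [rho, sec_one, B.m_one]

theorem rho_inv (L : Level Γ B V) (g : Γ) : L.rho g⁻¹ = L.rho g := by
  unfold rho
  rw [← Equiv.sum_comp (L.act g) (fun v => B.m (L.sec g⁻¹ v))]
  refine Finset.sum_congr rfl fun v _ => ?_
  rw [sec_inv, B.m_inv]
  simp

theorem rho_mul (L : Level Γ B V) (g h : Γ) : L.rho (g * h) ≤ L.rho g + L.rho h := by
  unfold rho
  calc ∑ v, B.m (L.sec (g * h) v) ≤ ∑ v, (B.m (L.sec g (L.act h v)) + B.m (L.sec h v)) := by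
        refine Finset.sum_le_sum fun v _ => ?_
        rw [L.sec_mul]
        exact B.m_mul _ _
    _ = ∑ v, B.m (L.sec g (L.act h v)) + ∑ v, B.m (L.sec h v) := Finset.sum_add_distrib
    _ = ∑ v, B.m (L.sec g v) + ∑ v, B.m (L.sec h v) := by
        rw [Equiv.sum_comp (L.act h) (fun v => B.m (L.sec g v))]

/-- the reindexed length of g * s⁻¹ -/
theorem rho_mul_inv (L : Level Γ B V) (g s : Γ) :
    L.rho (g * s⁻¹) = ∑ v, B.m (L.sec g v * (L.sec s v)⁻¹) := by
  unfold rho
  rw [← Equiv.sum_comp (L.act s) (fun v => B.m (L.sec (g * s⁻¹) v))]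
  exact Finset.sum_congr rfl fun v _ => by rw [sec_mul_inv]

theorem m_le_rho (L : Level Γ B V) (g : Γ) (v : V) : B.m (L.sec g v) ≤ L.rho g :=
  Finset.single_le_sum (f := fun v => B.m (L.sec g v)) (fun _ _ => Nat.zero_le _)
    (Finset.mem_univ v)

theorem rho_prod (L : Level Γ B V) (l : List Γ) : L.rho l.prod ≤ (l.map L.rho).sum := by
  induction l with
  | nil => simp [rho_one]
  | cons x l ih =>
      simp only [List.prod_cons, List.map_cons, List.sum_cons]
      exact (L.rho_mul _ _).trans (by omega)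

/-- The balls of rho are finite. -/
theorem rho_finite (L : Level Γ B V) (r : ℕ) : {g | L.rho g ≤ r}.Finite := by
  have hf : (Set.univ ×ˢ {f | ∀ v, f v ∈ {x | B.m x ≤ r}} :
      Set (Equiv.Perm V × (V → Γ))).Finite := by
    classical
    exact Set.Finite.prod Set.finite_univ (Set.Finite.pi' fun _ => B.fin r)
  refine Set.Finite.of_finite_image (f := fun g => (L.act g, fun v => L.sec g v))
    (hf.subset ?_) ?_
  · rintro _ ⟨g, hg, rfl⟩
    refine ⟨Set.mem_univ _, fun v => ?_⟩
    exact (L.m_le_rho g v).trans hg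
  · intro g _ h _ hgh
    simp only [Prod.mk.injEq] at hgh
    exact L.faithful g h hgh.1 (fun v => congrFun hgh.2 v)

end Level

end Pool.Agent.H40.GG
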