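import Pool.Agent.H40.GG.CntU

/-! # Counting in one coset of the families of elements of K -/

namespace Pool.Agent.H40.GG

variable {Γ : Type} [Group Γ] {B : Base Γ} {V : Type} [Fintype V]

private theorem Cnt1_count {Γ V : Type} [Fintype V] [DecidableEq V] (S : V → Set Γ)
    (f : V → Γ → ℕ) (hfin : ∀ v l, ({y | y ∈ S v ∧ f v y = l} : Set Γ).Finite) (n : ℕ) :
    (({y | (∀ v, y v ∈ S v) ∧ ∑ v, f v (y v) = n} : Set (V → Γ)).ncard : ℝ) =
      PowerSeries.coeff n (∏ v, PowerSeries.mk fun l =>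
        (({y | y ∈ S v ∧ f v y = l} : Set Γ).ncard : ℝ)) := by
  classical
  rw [PowerSeries.coeff_prod]
  simp only [PowerSeries.coeff_mk]
  have hset : ({y | (∀ v, y v ∈ S v) ∧ ∑ v, f v (y v) = n} : Set (V → Γ)) =
      (((Finset.finsuppAntidiag Finset.univ n).biUnion
        (fun l : V →₀ ℕ => Fintype.piFinset (fun v => (hfin v (l v)).toFinset)) :
          Finset (V → Γ)) : Set (V → Γ)) := by
    ext y
    simp only [Set.mem_ofPred_eq, Finset.coe_biUnion, Set.mem_iUnion, Finset.mem_coe,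
      Fintype.mem_piFinset, Set.Finite.mem_toFinset, Finset.mem_finsuppAntidiag]
    constructor
    · rintro ⟨h1, h2⟩
      refine ⟨Finsupp.equivFunOnFinite.symm (fun v => f v (y v)),
        ⟨?_, Finset.subset_univ _⟩, fun v => ⟨h1 v, rfl⟩⟩
      exact h2
    · rintro ⟨l, ⟨h1, _⟩, h2⟩
      refine ⟨fun v => (h2 v).1, ?_⟩
      rw [← h1]
      exact Finset.sum_congr rfl (fun v _ => (h2 v).2)
  rw [hset, Set.ncard_coe_finset, Finset.card_biUnion]
  · push_cast
    refine Finset.sum_congr rfl fun l _ => ?_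
    rw [Fintype.card_piFinset]
    push_cast
    refine Finset.prod_congr rfl fun v _ => ?_
    rw [Set.ncard_eq_toFinset_card _ (hfin v (l v))]
  · intro l _ l' _ hne
    refine Finset.disjoint_left.2 ?_
    intro y hy hy'
    apply hne
    ext v
    rw [Fintype.mem_piFinset] at hy hy'
    have h1 := (Set.Finite.mem_toFinset _).1 (hy v)
    have h2 := (Set.Finite.mem_toFinset _).1 (hy' v)
    exact h1.2.symm.trans h2.2

open PowerSeries in
theorem fiber_count [DecidableEq V] (L : Level Γ B V) (t : Γ) (n : ℕ) (P : ℕ → Prop)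
    [DecidablePred P] :
    (({g | (L.act g = L.act t ∧ ∀ v, (L.sec t v)⁻¹ * L.sec g v ∈ B.K) ∧ L.rho g = n ∧
      ∀ v, P (B.m (L.sec g v))} : Set Γ).ncard : ℝ) =
    coeff n (∏ v, PowerSeries.mk fun l => if P l then (UU B (L.sec t v) l : ℝ) else 0) := by
  have hfin : ∀ (v : V) (l : ℕ), ({y | y ∈ ({y | y ∈ B.K ∧ P (B.m (L.sec t v * y))} : Set Γ) ∧
      B.m (L.sec t v * y) = l} : Set Γ).Finite := by
    intro v l
    refine (UU_finite B (L.sec t v) l).subset ?_
    rintro y ⟨h1, h2⟩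
    exact ⟨h1.1, h2⟩
  have h1 := Cnt1_count (fun v => ({y | y ∈ B.K ∧ P (B.m (L.sec t v * y))} : Set Γ))
    (fun v y => B.m (L.sec t v * y)) hfin n
  have h2 : (fun v => PowerSeries.mk fun l =>
      (({y | y ∈ ({y | y ∈ B.K ∧ P (B.m (L.sec t v * y))} : Set Γ) ∧
        B.m (L.sec t v * y) = l} : Set Γ).ncard : ℝ)) =
      fun v => PowerSeries.mk fun l => if P l then (UU B (L.sec t v) l : ℝ) else 0 := by
    funext v
    congr 1
    funext l
    by_cases hP : P l
    · rw [if_pos hP, UU]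
      congr 2
      ext y
      constructor
      · rintro ⟨h3, h4⟩
        exact ⟨h3.1, h4⟩
      · rintro ⟨h3, h4⟩
        exact ⟨⟨h3, h4.symm ▸ hP⟩, h4⟩
    · rw [if_neg hP]
      have : ({y | y ∈ ({y | y ∈ B.K ∧ P (B.m (L.sec t v * y))} : Set Γ) ∧
          B.m (L.sec t v * y) = l} : Set Γ) = ∅ := by
        ext y
        constructor
        · rintro ⟨h3, h4⟩
          exact absurd (h4 ▸ h3.2) hP
        · intro h; exact absurd h (Set.notMem_empty y)
      rw [this, Set.ncard_empty, Nat.cast_zero]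
  rw [← h2, ← h1]
  have h3 : ({y | (∀ v, y v ∈ ({y | y ∈ B.K ∧ P (B.m (L.sec t v * y))} : Set Γ)) ∧
      ∑ v, B.m (L.sec t v * y v) = n} : Set (V → Γ)) =
      (fun g v => (L.sec t v)⁻¹ * L.sec g v) ''
        ({g | (L.act g = L.act t ∧ ∀ v, (L.sec t v)⁻¹ * L.sec g v ∈ B.K) ∧ L.rho g = n ∧
          ∀ v, P (B.m (L.sec g v))} : Set Γ) := by
    ext y
    constructor
    · rintro ⟨hy1, hy2⟩
      obtain ⟨e, he1, he2⟩ := L.emb y (fun v => (hy1 v).1)
      have hs : ∀ v, L.sec (t * e) v = L.sec t v * y v := by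
        intro v
        rw [L.sec_mul, he1, he2]
        rfl
      refine ⟨t * e, ⟨⟨?_, ?_⟩, ?_, ?_⟩, ?_⟩
      · rw [map_mul, he1, mul_one]
      · intro v
        rw [hs, inv_mul_cancel_left]
        exact (hy1 v).1
      · rw [Level.rho, ← hy2]
        exact Finset.sum_congr rfl (fun v _ => by rw [hs])
      · intro v
        rw [hs]
        exact (hy1 v).2
      · funext v
        show (L.sec t v)⁻¹ * L.sec (t * e) v = y v
        rw [hs, inv_mul_cancel_left]
    · rintro ⟨g, ⟨⟨hg1, hg2⟩, hg3, hg4⟩, rfl⟩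
      refine ⟨fun v => ⟨hg2 v, ?_⟩, ?_⟩
      · show P (B.m (L.sec t v * ((L.sec t v)⁻¹ * L.sec g v)))
        rw [mul_inv_cancel_left]
        exact hg4 v
      · rw [← hg3, Level.rho]
        refine Finset.sum_congr rfl (fun v _ => ?_)
        show B.m (L.sec t v * ((L.sec t v)⁻¹ * L.sec g v)) = _
        rw [mul_inv_cancel_left]
  rw [h3, Set.InjOn.ncard_image]
  rintro g ⟨⟨hg1, _⟩, _⟩ g' ⟨⟨hg1', _⟩, _⟩ hgg
  refine L.faithful g g' (hg1.trans hg1'.symm) (fun v => ?_)
  exact mul_left_cancel (congrFun hgg v)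

end Pool.Agent.H40.GG
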