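import Mathlib

/-! # Smoothing of N-fold convolutions (power series with nonnegative coefficients)

Write F ≤ F' for coefficientwise inequality of real power series (nonnegative coefficients; products
are monotone).  Put u'(l) = a₀ ∑_k exp(-δ(k+1)) u(l + 2(k+1)) (summable by hc, hs).  Then
(i) 0 ≤ u' ≤ u (hc, hs1), (ii) u'(l+2) ≤ exp δ * u'(l) (the terms k ≥ 1 of u'(l)),
(iii) u(l+2) ≤ (exp δ / a₀) u'(l) (the term k = 0).
Let U, U', U'' = U - U' be the power series of u, u', u - u'; for v not in V' let W be the product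
of the mk (f v), and let a subscript 2 denote truncation to the coefficients l ≥ 2. N' = card V'.
U'_2 ≤ exp δ X² U', U_2 ≤ (exp δ / a₀) X² U', U''_2 ≤ U'', U''_2 ≤ U_2, W_2 ≤ W.
(U_2)^N' = (U'_2 + U''_2)^N' = U'_2 ∑_{j<N'} (U_2)^j (U''_2)^(N'-1-j) + (U''_2)^N'
 ≤ exp δ X² U' ∑_j U^j U''^(N'-1-j) + (exp δ/a₀) X² U' U''^(N'-1)
 ≤ exp δ X² (U^N' - U''^N') + (exp δ/(a₀ N')) X² U^N'      (N' U' U''^(N'-1) ≤ (U' + U'')^N')
 ≤ exp δ (1 + 1/(a₀ N')) X² U^N'.   (geom_sum₂_mul / Commute.mul_geom_sum₂)  Multiply by W_2 ≤ W. -/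

namespace Pool.Agent.H40.GG

open PowerSeries in
/-- coefficientwise inequality -/
def Conv_le (F G : PowerSeries ℝ) : Prop := ∀ n, coeff n F ≤ coeff n G

theorem Conv_le_refl (F : PowerSeries ℝ) : Conv_le F F := fun _ => le_refl _

theorem Conv_le_trans {F G H : PowerSeries ℝ} (h1 : Conv_le F G) (h2 : Conv_le G H) :
    Conv_le F H := fun n => (h1 n).trans (h2 n)

theorem Conv_add_le {F G F' G' : PowerSeries ℝ} (h1 : Conv_le F F') (h2 : Conv_le G G') :
    Conv_le (F + G) (F' + G') := fun n => by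
  rw [map_add, map_add]; exact add_le_add (h1 n) (h2 n)

theorem Conv_mul_nonneg {F G : PowerSeries ℝ} (h1 : Conv_le 0 F) (h2 : Conv_le 0 G) :
    Conv_le 0 (F * G) := fun n => by
  rw [map_zero, PowerSeries.coeff_mul]
  refine Finset.sum_nonneg fun p _ => mul_nonneg ?_ ?_
  · have := h1 p.1; rwa [map_zero] at this
  · have := h2 p.2; rwa [map_zero] at this

theorem Conv_mul_le {F G F' G' : PowerSeries ℝ} (h0 : Conv_le 0 F) (h1 : Conv_le F F')
    (h0' : Conv_le 0 G) (h2 : Conv_le G G') :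
    Conv_le (F * G) (F' * G') := fun n => by
  rw [PowerSeries.coeff_mul, PowerSeries.coeff_mul]
  refine Finset.sum_le_sum fun p _ => mul_le_mul (h1 _) (h2 _) ?_ ?_
  · have := h0' p.2; rwa [map_zero] at this
  · have := (Conv_le_trans h0 h1) p.1; rwa [map_zero] at this

theorem Conv_one_nonneg : Conv_le 0 (1 : PowerSeries ℝ) := fun n => by
  rw [map_zero, PowerSeries.coeff_one]; split_ifs <;> norm_num

theorem Conv_pow_nonneg {F : PowerSeries ℝ} (h1 : Conv_le 0 F) (m : ℕ) :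
    Conv_le 0 (F ^ m) := by
  induction m with
  | zero => rw [pow_zero]; exact Conv_one_nonneg
  | succ m ih => rw [pow_succ]; exact Conv_mul_nonneg ih h1

theorem Conv_pow_le {F F' : PowerSeries ℝ} (h0 : Conv_le 0 F) (h1 : Conv_le F F') (m : ℕ) :
    Conv_le (F ^ m) (F' ^ m) := by
  induction m with
  | zero => rw [pow_zero, pow_zero]; exact Conv_le_refl _
  | succ m ih =>
    rw [pow_succ, pow_succ]; exact Conv_mul_le (Conv_pow_nonneg h0 m) ih h0 h1

theorem Conv_sum_le {ι : Type} (s : Finset ι) (F G : ι → PowerSeries ℝ)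
    (h : ∀ i ∈ s, Conv_le (F i) (G i)) : Conv_le (∑ i ∈ s, F i) (∑ i ∈ s, G i) := fun n => by
  rw [map_sum, map_sum]; exact Finset.sum_le_sum fun i hi => h i hi n

theorem Conv_prod_nonneg {ι : Type} (s : Finset ι) (F : ι → PowerSeries ℝ)
    (h : ∀ i ∈ s, Conv_le 0 (F i)) : Conv_le 0 (∏ i ∈ s, F i) := by
  classical
  induction s using Finset.induction_on with
  | empty => rw [Finset.prod_empty]; exact Conv_one_nonneg
  | insert a s ha ih =>
    rw [Finset.prod_insert ha]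
    exact Conv_mul_nonneg (h a (Finset.mem_insert_self _ _))
      (ih fun i hi => h i (Finset.mem_insert_of_mem hi))

theorem Conv_prod_le {ι : Type} (s : Finset ι) (F G : ι → PowerSeries ℝ)
    (h0 : ∀ i ∈ s, Conv_le 0 (F i)) (h : ∀ i ∈ s, Conv_le (F i) (G i)) :
    Conv_le (∏ i ∈ s, F i) (∏ i ∈ s, G i) := by
  classical
  induction s using Finset.induction_on with
  | empty => rw [Finset.prod_empty, Finset.prod_empty]; exact Conv_le_refl _
  | insert a s ha ih =>
    rw [Finset.prod_insert ha, Finset.prod_insert ha]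
    exact Conv_mul_le (h0 a (Finset.mem_insert_self _ _)) (h a (Finset.mem_insert_self _ _))
      (Conv_prod_nonneg s F fun i hi => h0 i (Finset.mem_insert_of_mem hi))
      (ih (fun i hi => h0 i (Finset.mem_insert_of_mem hi))
        (fun i hi => h i (Finset.mem_insert_of_mem hi)))

theorem Conv_C_nonneg {a : ℝ} (ha : 0 ≤ a) : Conv_le 0 (PowerSeries.C a) := fun n => by
  rw [map_zero, PowerSeries.coeff_C]; split_ifs <;> [exact ha; exact le_refl _]

theorem Conv_X2_nonneg : Conv_le 0 ((PowerSeries.X : PowerSeries ℝ) ^ 2) := fun n => by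
  rw [map_zero, PowerSeries.coeff_X_pow]; split_ifs <;> norm_num

/-- the core inequality for the power -/
theorem Conv_core (U U' U'' U2 U2' U2'' D : PowerSeries ℝ) (a b : ℝ) (ha : 0 ≤ a) (hb : 0 ≤ b)
    (hD : Conv_le 0 D) (h0' : Conv_le 0 U') (h0'' : Conv_le 0 U'') (h02' : Conv_le 0 U2')
    (h02'' : Conv_le 0 U2'') (hU : U = U' + U'') (hU2 : U2 = U2' + U2'')
    (h1 : Conv_le U2' (PowerSeries.C a * (D * U'))) (h2 : Conv_le U2 (PowerSeries.C b * (D * U')))
    (h3 : Conv_le U2'' U'') (h4 : Conv_le U2 U) (m : ℕ) :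
    Conv_le (U2 ^ (m + 1)) (PowerSeries.C (a + b / ((m : ℝ) + 1)) * (D * U ^ (m + 1))) := by
  have h0U : Conv_le 0 U := by
    have := Conv_add_le h0' h0''; rw [add_zero] at this; rwa [hU]
  have h0U2 : Conv_le 0 U2 := by
    have := Conv_add_le h02' h02''; rw [add_zero] at this; rwa [hU2]
  have hU''U : Conv_le U'' U := by
    have := Conv_add_le h0' (Conv_le_refl U''); rw [zero_add] at this; rwa [hU]
  have hU2''U2 : Conv_le U2'' U2 := by
    have := Conv_add_le h02' (Conv_le_refl U2''); rw [zero_add] at this; rwa [hU2]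
  -- geometric sums
  have g2 : U2 ^ (m + 1) = U2' * (∑ i ∈ Finset.range (m + 1), U2 ^ i * U2'' ^ (m + 1 - 1 - i))
      + U2'' * U2'' ^ m := by
    have := (Commute.all U2 U2'').mul_geom_sum₂ (m + 1)
    have e : U2 - U2'' = U2' := by rw [hU2]; ring
    rw [e] at this
    rw [this]; ring
  have g : U ^ (m + 1) = U' * (∑ i ∈ Finset.range (m + 1), U ^ i * U'' ^ (m + 1 - 1 - i))
      + U'' ^ (m + 1) := by
    have := (Commute.all U U'').mul_geom_sum₂ (m + 1)
    have e : U - U'' = U' := by rw [hU]; ring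
    rw [e] at this
    rw [this]; ring
  set S2 := ∑ i ∈ Finset.range (m + 1), U2 ^ i * U2'' ^ (m + 1 - 1 - i) with hS2
  set S := ∑ i ∈ Finset.range (m + 1), U ^ i * U'' ^ (m + 1 - 1 - i) with hS
  have hS2S : Conv_le S2 S := by
    refine Conv_sum_le _ _ _ fun i _ => ?_
    exact Conv_mul_le (Conv_pow_nonneg h0U2 _) (Conv_pow_le h0U2 h4 _) (Conv_pow_nonneg h02'' _)
      (Conv_pow_le h02'' h3 _)
  have h0S2 : Conv_le 0 S2 := by
    have := Conv_sum_le (Finset.range (m + 1)) (fun _ => (0 : PowerSeries ℝ))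
      (fun i => U2 ^ i * U2'' ^ (m + 1 - 1 - i)) (fun i _ =>
      Conv_mul_nonneg (Conv_pow_nonneg h0U2 _) (Conv_pow_nonneg h02'' _))
    rwa [Finset.sum_const_zero] at this
  have hmS : Conv_le (PowerSeries.C ((m : ℝ) + 1) * U'' ^ m) S := by
    have := Conv_sum_le (Finset.range (m + 1)) (fun _ => U'' ^ m)
      (fun i => U ^ i * U'' ^ (m + 1 - 1 - i)) (fun i hi => ?_)
    · rw [Finset.sum_const, Finset.card_range, nsmul_eq_mul] at this
      have e : ((m + 1 : ℕ) : PowerSeries ℝ) = PowerSeries.C ((m : ℝ) + 1) := by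
        push_cast
        rw [map_add, map_one, map_natCast]
      rw [e] at this
      exact this
    · have hi' : i ≤ m := by rw [Finset.mem_range] at hi; omega
      have e : U'' ^ m = U'' ^ i * U'' ^ (m + 1 - 1 - i) := by
        rw [← pow_add]; congr 1; omega
      rw [e]
      exact Conv_mul_le (Conv_pow_nonneg h0'' _) (Conv_pow_le h0'' hU''U _)
        (Conv_pow_nonneg h0'' _) (Conv_le_refl _)
  -- first part
  have p1 : Conv_le (U2' * S2) ((PowerSeries.C a * (D * U')) * S) :=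
    Conv_mul_le h02' h1 h0S2 hS2S
  have p2 : Conv_le (U2'' * U2'' ^ m) ((PowerSeries.C b * (D * U')) * U'' ^ m) :=
    Conv_mul_le h02'' (Conv_le_trans hU2''U2 h2) (Conv_pow_nonneg h02'' _) (Conv_pow_le h02'' h3 _)
  have hm : (0 : ℝ) < (m : ℝ) + 1 := by positivity
  have p3 : Conv_le ((PowerSeries.C b * (D * U')) * U'' ^ m)
      ((PowerSeries.C (b / ((m : ℝ) + 1)) * (D * U')) * S) := by
    have e : (PowerSeries.C b * (D * U')) * U'' ^ m =
        (PowerSeries.C (b / ((m : ℝ) + 1)) * (D * U')) *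
          (PowerSeries.C ((m : ℝ) + 1) * U'' ^ m) := by
      have : PowerSeries.C b = PowerSeries.C (b / ((m : ℝ) + 1)) *
          (PowerSeries.C ((m : ℝ) + 1) : PowerSeries ℝ) := by
        rw [← map_mul]; congr 1; field_simp
      rw [this]; ring
    rw [e]
    exact Conv_mul_le (Conv_mul_nonneg (Conv_C_nonneg (by positivity)) (Conv_mul_nonneg hD h0'))
      (Conv_le_refl _) (Conv_mul_nonneg (Conv_C_nonneg hm.le) (Conv_pow_nonneg h0'' _)) hmS
  have p4 := Conv_add_le p1 (Conv_le_trans p2 p3)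
  rw [← g2] at p4
  refine Conv_le_trans p4 ?_
  have e : (PowerSeries.C a * (D * U')) * S + (PowerSeries.C (b / ((m : ℝ) + 1)) * (D * U')) * S
      = (PowerSeries.C (a + b / ((m : ℝ) + 1)) * D) * (U' * S) := by
    rw [map_add]; ring
  have e2 : PowerSeries.C (a + b / ((m : ℝ) + 1)) * (D * U ^ (m + 1)) =
      (PowerSeries.C (a + b / ((m : ℝ) + 1)) * D) * U ^ (m + 1) := by ring
  rw [e, e2]
  refine Conv_mul_le (Conv_mul_nonneg (Conv_C_nonneg (by positivity)) hD) (Conv_le_refl _) ?_ ?_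
  · refine Conv_mul_nonneg h0' (Conv_le_trans h0S2 hS2S)
  · rw [g]
    have := Conv_add_le (Conv_le_refl (U' * S)) (Conv_pow_nonneg h0'' (m + 1))
    rwa [add_zero] at this

open PowerSeries in
theorem conv_smooth {V : Type} [Fintype V] [DecidableEq V] (f : V → ℕ → ℝ)
    (hf : ∀ v l, 0 ≤ f v l) (V' : Finset V) (hV' : V'.Nonempty) (u : ℕ → ℝ)
    (hu : ∀ v ∈ V', f v = u) (c : ℕ → ℝ) (hc0 : ∀ k, 0 ≤ c k)
    (hc : ∀ k l, u (l + 2 * (k + 1)) ≤ c k * u l) (δ a₀ : ℝ) (hδ : 0 < δ) (ha₀ : 0 < a₀)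
    (hs : Summable fun k : ℕ => c k * Real.exp (-(δ * (k + 1))))
    (hs1 : a₀ * ∑' k : ℕ, c k * Real.exp (-(δ * (k + 1))) ≤ 1) (n : ℕ) :
    coeff (n + 2) (∏ v, PowerSeries.mk fun l => if 2 ≤ l then f v l else 0) ≤
      Real.exp δ * (1 + 1 / (a₀ * V'.card)) * coeff n (∏ v, PowerSeries.mk (f v)) := by
  obtain ⟨v0, hv0⟩ := hV'
  have hu0 : ∀ l, 0 ≤ u l := fun l => by rw [← hu v0 hv0]; exact hf v0 l
  -- the smoothing
  set t : ℕ → ℕ → ℝ := fun l k => Real.exp (-(δ * (k + 1))) * u (l + 2 * (k + 1)) with ht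
  have ht0 : ∀ l k, 0 ≤ t l k := fun l k => mul_nonneg (Real.exp_pos _).le (hu0 _)
  have htle : ∀ l k, t l k ≤ c k * Real.exp (-(δ * (k + 1))) * u l := fun l k => by
    have := mul_le_mul_of_nonneg_left (hc k l) (Real.exp_pos (-(δ * (k + 1)))).le
    calc t l k ≤ Real.exp (-(δ * (k + 1))) * (c k * u l) := this
      _ = _ := by ring
  have hts : ∀ l, Summable (t l) := fun l =>
    Summable.of_nonneg_of_le (ht0 l) (htle l) (hs.mul_right _)
  set u' : ℕ → ℝ := fun l => a₀ * ∑' k, t l k with hu'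
  have hu'0 : ∀ l, 0 ≤ u' l := fun l => mul_nonneg ha₀.le (tsum_nonneg (ht0 l))
  have hu'u : ∀ l, u' l ≤ u l := fun l => by
    have h1 : ∑' k, t l k ≤ ∑' k : ℕ, c k * Real.exp (-(δ * (k + 1))) * u l :=
      (hts l).tsum_le_tsum (htle l) (hs.mul_right _)
    rw [tsum_mul_right] at h1
    calc u' l ≤ a₀ * ((∑' k : ℕ, c k * Real.exp (-(δ * (k + 1)))) * u l) :=
          mul_le_mul_of_nonneg_left h1 ha₀.le
      _ = (a₀ * ∑' k : ℕ, c k * Real.exp (-(δ * (k + 1)))) * u l := by ring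
      _ ≤ 1 * u l := mul_le_mul_of_nonneg_right hs1 (hu0 l)
      _ = u l := one_mul _
  have hsplit : ∀ l, ∑' k, t l k = t l 0 + ∑' k, t l (k + 1) := fun l =>
    (hts l).tsum_eq_zero_add
  have hshift : ∀ l k, t l (k + 1) = Real.exp (-δ) * t (l + 2) k := fun l k => by
    simp only [ht]
    rw [← mul_assoc, ← Real.exp_add]
    congr 1
    · congr 1; push_cast; ring
    · congr 1; ring
  have hrec : ∀ l, u' l = a₀ * t l 0 + Real.exp (-δ) * u' (l + 2) := fun l => by
    simp only [hu']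
    rw [hsplit l]
    simp_rw [hshift l]
    rw [tsum_mul_left]; ring
  have hee : Real.exp δ * Real.exp (-δ) = 1 := by rw [← Real.exp_add, add_neg_cancel, Real.exp_zero]
  have hii : ∀ l, u' (l + 2) ≤ Real.exp δ * u' l := fun l => by
    have h1 : Real.exp δ * (Real.exp (-δ) * u' (l + 2)) = u' (l + 2) := by
      rw [← mul_assoc, hee, one_mul]
    have h2 : 0 ≤ Real.exp δ * (a₀ * t l 0) :=
      mul_nonneg (Real.exp_pos _).le (mul_nonneg ha₀.le (ht0 _ _))
    rw [hrec l, mul_add, h1]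
    linarith
  have hiii : ∀ l, u (l + 2) ≤ Real.exp δ / a₀ * u' l := fun l => by
    have e1 : t l 0 = Real.exp (-δ) * u (l + 2) := by
      simp only [ht]; norm_num
    have e2 : a₀ * t l 0 ≤ u' l := by
      rw [hrec l]
      have := mul_nonneg (Real.exp_pos (-δ)).le (hu'0 (l + 2))
      linarith
    have e3 : u (l + 2) = Real.exp δ / a₀ * (a₀ * t l 0) := by
      rw [e1]
      field_simp
      linear_combination (-(u (l + 2))) * hee
    rw [e3]
    exact mul_le_mul_of_nonneg_left e2 (div_nonneg (Real.exp_pos _).le ha₀.le)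
  -- power series
  set tr : (ℕ → ℝ) → PowerSeries ℝ := fun g => PowerSeries.mk fun l => if 2 ≤ l then g l else 0
    with htr
  have htrc : ∀ g l, coeff l (tr g) = if 2 ≤ l then g l else 0 := fun g l => by
    simp only [htr, PowerSeries.coeff_mk]
  have htr0 : ∀ g, (∀ l, 0 ≤ g l) → Conv_le 0 (tr g) := fun g hg l => by
    rw [map_zero, htrc]; split_ifs; exacts [hg l, le_refl _]
  have htrle : ∀ g, (∀ l, 0 ≤ g l) → Conv_le (tr g) (PowerSeries.mk g) := fun g hg l => by
    rw [htrc, PowerSeries.coeff_mk]; split_ifs; exacts [le_refl _, hg l]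
  have hX : ∀ (a : ℝ) (g g' : ℕ → ℝ), (∀ l, g (l + 2) ≤ a * g' l) →
      Conv_le (tr g) (PowerSeries.C a * (PowerSeries.X ^ 2 * PowerSeries.mk g')) := by
    intro a g g' h l
    rw [htrc, PowerSeries.coeff_C_mul, PowerSeries.coeff_X_pow_mul']
    by_cases h2 : 2 ≤ l
    · rw [if_pos h2, if_pos h2, PowerSeries.coeff_mk]
      obtain ⟨k, rfl⟩ : ∃ k, l = k + 2 := ⟨l - 2, by omega⟩
      have := h k
      simpa using this
    · rw [if_neg h2, if_neg h2, mul_zero]
  obtain ⟨m, hm⟩ : ∃ m, V'.card = m + 1 :=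
    ⟨V'.card - 1, by have := Finset.card_pos.mpr ⟨v0, hv0⟩; omega⟩
  have hd0 : ∀ l, 0 ≤ (fun l => u l - u' l) l := fun l => sub_nonneg.mpr (hu'u l)
  have core := Conv_core (PowerSeries.mk u) (PowerSeries.mk u')
    (PowerSeries.mk fun l => u l - u' l) (tr u) (tr u') (tr fun l => u l - u' l)
    (PowerSeries.X ^ 2) (Real.exp δ) (Real.exp δ / a₀) (Real.exp_pos _).le
    (div_nonneg (Real.exp_pos _).le ha₀.le) Conv_X2_nonneg
    (fun l => by rw [map_zero, PowerSeries.coeff_mk]; exact hu'0 l)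
    (fun l => by rw [map_zero, PowerSeries.coeff_mk]; exact hd0 l)
    (htr0 _ hu'0) (htr0 _ hd0)
    (by ext l; rw [map_add, PowerSeries.coeff_mk, PowerSeries.coeff_mk, PowerSeries.coeff_mk]; ring)
    (by
      ext l
      rw [map_add, htrc, htrc, htrc]
      split_ifs
      · ring
      · ring)
    (hX _ _ _ hii) (hX _ _ _ hiii) (htrle _ hd0) (htrle _ hu0) m
  -- splitting of the product
  have hL : ∏ v, (PowerSeries.mk fun l => if 2 ≤ l then f v l else 0) =
      (tr u) ^ (m + 1) * ∏ v ∈ V'ᶜ, tr (f v) := by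
    rw [← Finset.prod_mul_prod_compl V' (fun v => PowerSeries.mk fun l => if 2 ≤ l then f v l else 0)]
    congr 1
    rw [← hm, ← Finset.prod_const]
    refine Finset.prod_congr rfl fun v hv => ?_
    rw [hu v hv]
  have hR : ∏ v, PowerSeries.mk (f v) =
      (PowerSeries.mk u) ^ (m + 1) * ∏ v ∈ V'ᶜ, PowerSeries.mk (f v) := by
    rw [← Finset.prod_mul_prod_compl V' (fun v => PowerSeries.mk (f v))]
    congr 1
    rw [← hm, ← Finset.prod_const]
    refine Finset.prod_congr rfl fun v hv => ?_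
    rw [hu v hv]
  have hfin := Conv_mul_le (Conv_pow_nonneg (htr0 _ hu0) (m + 1)) core
    (Conv_prod_nonneg V'ᶜ (fun v => tr (f v)) (fun v _ => htr0 _ (hf v)))
    (Conv_prod_le V'ᶜ (fun v => tr (f v)) (fun v => PowerSeries.mk (f v))
      (fun v _ => htr0 _ (hf v)) (fun v _ => htrle _ (hf v))) (n + 2)
  rw [← hL] at hfin
  refine hfin.trans (le_of_eq ?_)
  rw [hR, mul_assoc, mul_assoc, PowerSeries.coeff_C_mul, PowerSeries.coeff_X_pow_mul, hm]
  congr 1
  push_cast
  field_simp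

end Pool.Agent.H40.GG
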