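import Pool.Agent.H40.GG.Cnt1
import Pool.Agent.H40.GG.Conv

/-! # The smoothing inequality for the balls of rho

Call g, t equivalent if act g = act t and (sec t v)⁻¹ * sec g v ∈ K for all v (finitely many classes:
the class is determined by (act g, v ↦ sec g v mod K), a point of a finite type as K has finite index).
For each class (representative t) and each n: fiber_count with P l := 2 ≤ l at n + 2 and with
P l := True at n, and conv_smooth with f v l = UU B (sec t v) l, V' a set of at least N' vertices whose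
sections sec t v lie in one left coset of K (pigeonhole, hN), u = UU B (sec t v₀), c = cU B (UU_step,
UU_coset); 1/(a₀ V'.card) ≤ 1/(a₀ N').  Sum over the classes and over n ≤ r; the g counted on the left
have rho g ≥ 2 (V is nonempty), so rho g = n + 2 with n ≤ r. -/

namespace Pool.Agent.H40.GG

variable {Γ : Type} [Group Γ] {B : Base Γ} {V : Type} [Fintype V]

/-- The class of g: its action and its sections modulo K. -/
noncomputable def Cnt2_cl (L : Level Γ B V) (g : Γ) : Equiv.Perm V × (V → Γ ⧸ B.K) :=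
  (L.act g, fun v => (L.sec g v : Γ ⧸ B.K))

theorem Cnt2_cl_eq (L : Level Γ B V) (g t : Γ) :
    Cnt2_cl L g = Cnt2_cl L t ↔ (L.act g = L.act t ∧ ∀ v, (L.sec t v)⁻¹ * L.sec g v ∈ B.K) := by
  unfold Cnt2_cl
  rw [Prod.mk.injEq, funext_iff]
  refine and_congr Iff.rfl (forall_congr' fun v => ?_)
  rw [eq_comm, QuotientGroup.eq]

theorem Cnt2_key (L : Level Γ B V) (δ a₀ : ℝ) (hδ : 0 < δ) (ha₀ : 0 < a₀)
    (hs1 : a₀ * ∑' k : ℕ, (cU B k : ℝ) * Real.exp (-(δ * (k + 1))) ≤ 1)
    (N' : ℕ) (hN' : 1 ≤ N') (hN : N' * B.K.index ≤ Fintype.card V) (n : ℕ)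
    (c : Equiv.Perm V × (V → Γ ⧸ B.K)) :
    (({g | Cnt2_cl L g = c ∧ L.rho g = n + 2 ∧ ∀ v, 2 ≤ B.m (L.sec g v)} : Set Γ).ncard : ℝ) ≤
      Real.exp δ * (1 + 1 / (a₀ * N')) *
        ({g | Cnt2_cl L g = c ∧ L.rho g = n} : Set Γ).ncard := by
  classical
  have hN0 : (0 : ℝ) < (N' : ℝ) := by exact_mod_cast hN'
  have hE : 0 ≤ Real.exp δ * (1 + 1 / (a₀ * N')) :=
    mul_nonneg (Real.exp_pos _).le (by positivity)
  by_cases hc : ∃ t, Cnt2_cl L t = c
  · obtain ⟨t, rfl⟩ := hc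
    -- the pigeonhole
    have : B.K.FiniteIndex := B.findex
    have : Fintype (Γ ⧸ B.K) := Fintype.ofFinite _
    have hidx : Fintype.card (Γ ⧸ B.K) * N' ≤ Fintype.card V := by
      rw [← Nat.card_eq_fintype_card, ← Subgroup.index_eq_card, mul_comm]
      exact hN
    obtain ⟨y, hy⟩ := Fintype.exists_le_card_fiber_of_mul_le_card
      (fun v => (L.sec t v : Γ ⧸ B.K)) hidx
    set V' : Finset V := Finset.univ.filter (fun v => (L.sec t v : Γ ⧸ B.K) = y) with hV'
    have hV'ne : V'.Nonempty := Finset.card_pos.mp (lt_of_lt_of_le hN' hy)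
    obtain ⟨v0, hv0⟩ := hV'ne
    have hv0' : (L.sec t v0 : Γ ⧸ B.K) = y := (Finset.mem_filter.mp hv0).2
    have h1 := fiber_count L t (n + 2) (fun l => 2 ≤ l)
    have h2 := fiber_count L t n (fun _ => True)
    have hcs := conv_smooth (fun v l => (UU B (L.sec t v) l : ℝ)) (fun _ _ => Nat.cast_nonneg _)
      V' ⟨v0, hv0⟩ (fun l => (UU B (L.sec t v0) l : ℝ))
      (by
        intro v hv
        have hv' : (L.sec t v : Γ ⧸ B.K) = y := (Finset.mem_filter.mp hv).2
        funext l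
        have hmem : (L.sec t v)⁻¹ * L.sec t v0 ∈ B.K := by
          rw [← QuotientGroup.eq, hv', hv0']
        exact_mod_cast UU_coset B _ _ hmem l)
      (fun k => (cU B k : ℝ)) (fun _ => Nat.cast_nonneg _)
      (by
        intro k l
        exact_mod_cast UU_step B (L.sec t v0) k l)
      δ a₀ hδ ha₀ (cU_summable B δ hδ) hs1 n
    have e1 : ({g | Cnt2_cl L g = Cnt2_cl L t ∧ L.rho g = n + 2 ∧
        ∀ v, 2 ≤ B.m (L.sec g v)} : Set Γ) =
        {g | (L.act g = L.act t ∧ ∀ v, (L.sec t v)⁻¹ * L.sec g v ∈ B.K) ∧ L.rho g = n + 2 ∧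
          ∀ v, 2 ≤ B.m (L.sec g v)} := by
      ext g
      simp only [Set.mem_ofPred_eq, Cnt2_cl_eq]
    have e2 : ({g | Cnt2_cl L g = Cnt2_cl L t ∧ L.rho g = n} : Set Γ) =
        {g | (L.act g = L.act t ∧ ∀ v, (L.sec t v)⁻¹ * L.sec g v ∈ B.K) ∧ L.rho g = n ∧
          ∀ v : V, True} := by
      ext g
      simp only [Set.mem_ofPred_eq, Cnt2_cl_eq, implies_true, and_true]
    rw [e1, e2, h1, h2]
    simp only [if_true]
    refine hcs.trans ?_
    have hcard : (N' : ℝ) ≤ (V'.card : ℝ) := by exact_mod_cast hy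
    have hnn : 0 ≤ PowerSeries.coeff n (∏ v, PowerSeries.mk
        (fun l => (UU B (L.sec t v) l : ℝ))) := by
      have := h2
      simp only [if_true] at this
      rw [← this]
      exact Nat.cast_nonneg _
    refine mul_le_mul_of_nonneg_right ?_ hnn
    refine mul_le_mul_of_nonneg_left ?_ (Real.exp_pos _).le
    have : 1 / (a₀ * (V'.card : ℝ)) ≤ 1 / (a₀ * N') :=
      one_div_le_one_div_of_le (by positivity) (mul_le_mul_of_nonneg_left hcard ha₀.le)
    linarith
  · have e1 : ({g | Cnt2_cl L g = c ∧ L.rho g = n + 2 ∧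
        ∀ v, 2 ≤ B.m (L.sec g v)} : Set Γ) = ∅ := by
      ext g
      constructor
      · rintro ⟨h, _⟩
        exact absurd ⟨g, h⟩ hc
      · intro h
        exact absurd h (Set.notMem_empty g)
    rw [e1, Set.ncard_empty, Nat.cast_zero]
    exact mul_nonneg hE (Nat.cast_nonneg _)

theorem cnt_smooth [Nonempty V] (L : Level Γ B V) (δ a₀ : ℝ) (hδ : 0 < δ) (ha₀ : 0 < a₀)
    (hs1 : a₀ * ∑' k : ℕ, (cU B k : ℝ) * Real.exp (-(δ * (k + 1))) ≤ 1)
    (N' : ℕ) (hN' : 1 ≤ N') (hN : N' * B.K.index ≤ Fintype.card V) (r : ℕ) :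
    (({g | L.rho g ≤ r + 2 ∧ ∀ v, 2 ≤ B.m (L.sec g v)} : Set Γ).ncard : ℝ) ≤
      Real.exp δ * (1 + 1 / (a₀ * N')) * ({g | L.rho g ≤ r} : Set Γ).ncard := by
  classical
  have : B.K.FiniteIndex := B.findex
  have : Fintype (Γ ⧸ B.K) := Fintype.ofFinite _
  have hfL : ({g | L.rho g ≤ r + 2 ∧ ∀ v, 2 ≤ B.m (L.sec g v)} : Set Γ).Finite :=
    (L.rho_finite (r + 2)).subset fun g hg => hg.1
  have hfR : ({g | L.rho g ≤ r} : Set Γ).Finite := L.rho_finite r
  have hge : ∀ g, (∀ v, 2 ≤ B.m (L.sec g v)) → 2 ≤ L.rho g := fun g hg =>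
    (hg (Classical.arbitrary V)).trans (L.m_le_rho g _)
  rw [Set.ncard_eq_toFinset_card _ hfL, Set.ncard_eq_toFinset_card _ hfR]
  have hL := Finset.card_eq_sum_card_fiberwise (s := hfL.toFinset)
    (t := (Finset.univ : Finset (Equiv.Perm V × (V → Γ ⧸ B.K))) ×ˢ Finset.range (r + 1))
    (f := fun g => (Cnt2_cl L g, L.rho g - 2)) (by
      intro g hg
      have hg' := (Set.Finite.mem_toFinset _).1 hg
      have h1 := hg'.1
      have h2 := hge g hg'.2
      simp only [Finset.coe_product, Finset.coe_univ, Finset.coe_range, Set.mem_prod,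
        Set.mem_univ, Set.mem_Iio, true_and]
      omega)
  have hR := Finset.card_eq_sum_card_fiberwise (s := hfR.toFinset)
    (t := (Finset.univ : Finset (Equiv.Perm V × (V → Γ ⧸ B.K))) ×ˢ Finset.range (r + 1))
    (f := fun g => (Cnt2_cl L g, L.rho g)) (by
      intro g hg
      have hg' := (Set.Finite.mem_toFinset _).1 hg
      have h1 : L.rho g ≤ r := hg'
      simp only [Finset.coe_product, Finset.coe_univ, Finset.coe_range, Set.mem_prod,
        Set.mem_univ, Set.mem_Iio, true_and]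
      omega)
  rw [hL, hR]
  push_cast
  rw [Finset.mul_sum]
  refine Finset.sum_le_sum fun p hp => ?_
  obtain ⟨c, n⟩ := p
  have hn : n ≤ r := by
    have := (Finset.mem_product.1 hp).2
    rw [Finset.mem_range] at this
    omega
  have hk := Cnt2_key L δ a₀ hδ ha₀ hs1 N' hN' hN n c
  have e1 : ({g | Cnt2_cl L g = c ∧ L.rho g = n + 2 ∧ ∀ v, 2 ≤ B.m (L.sec g v)} : Set Γ) =
      ((hfL.toFinset.filter fun g => (Cnt2_cl L g, L.rho g - 2) = (c, n) : Finset Γ) :
        Set Γ) := by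
    ext g
    simp only [Finset.coe_filter, Set.Finite.mem_toFinset, Set.mem_ofPred_eq, Prod.mk.injEq]
    constructor
    · rintro ⟨h1, h2, h3⟩
      exact ⟨⟨by omega, h3⟩, h1, by omega⟩
    · rintro ⟨⟨h1, h2⟩, h3, h4⟩
      have := hge g h2
      exact ⟨h3, by omega, h2⟩
  have e2 : ({g | Cnt2_cl L g = c ∧ L.rho g = n} : Set Γ) =
      ((hfR.toFinset.filter fun g => (Cnt2_cl L g, L.rho g) = (c, n) : Finset Γ) :
        Set Γ) := by
    ext g
    simp only [Finset.coe_filter, Set.Finite.mem_toFinset, Set.mem_ofPred_eq, Prod.mk.injEq]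
    constructor
    · rintro ⟨h1, h2⟩
      exact ⟨by omega, h1, h2⟩
    · rintro ⟨h1, h3, h4⟩
      exact ⟨h3, h4⟩
  rw [e1, e2, Set.ncard_coe_finset, Set.ncard_coe_finset] at hk
  exact hk

end Pool.Agent.H40.GG
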