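import Pool.Agent.H40.GG.Base

/-! # The sphere functions of the cosets of K

peel: iterate B.pair j times; the product of the j pieces y lies in K, m y ≤ 2 j, and
m x ≤ m (x y⁻¹) + m y forces m y = 2 j.
UU_step: y ∈ K with m (x y) = l + 2(k+1): peel X = x y: X = (x z) y', y' ∈ K, m y' = 2(k+1),
z = y y'⁻¹ ∈ K, m (x z) = l; y ↦ (y', z) is injective.
cU_summable: cU k ≤ ncard {m ≤ 2(k+1)} ≤ C exp (δ/4 * 2 (k+1)). -/

namespace Pool.Agent.H40.GG

variable {Γ : Type} [Group Γ]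

/-- The number of y in K with m (x y) = l. -/
noncomputable def UU (B : Base Γ) (x : Γ) (l : ℕ) : ℕ := ({y | y ∈ B.K ∧ B.m (x * y) = l} : Set Γ).ncard

/-- The number of y in K with m y = 2 (k+1). -/
noncomputable def cU (B : Base Γ) (k : ℕ) : ℕ := ({y | y ∈ B.K ∧ B.m y = 2 * (k + 1)} : Set Γ).ncard

theorem peel (B : Base Γ) (x : Γ) (j : ℕ) (h : 2 * j ≤ B.m x) :
    ∃ y ∈ B.K, B.m y = 2 * j ∧ B.m (x * y⁻¹) + 2 * j = B.m x := by
  induction j with
  | zero =>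
      refine ⟨1, B.K.one_mem, ?_, ?_⟩
      · rw [B.m_one]
      · rw [inv_one, mul_one, Nat.mul_zero, Nat.add_zero]
  | succ j ih =>
      obtain ⟨y, hy, hmy, hxy⟩ := ih (by omega)
      obtain ⟨y1, hy1, hm1, hx1⟩ := B.pair (x * y⁻¹) (by omega)
      have e : x * (y1 * y)⁻¹ = x * y⁻¹ * y1⁻¹ := by
        rw [mul_inv_rev, mul_assoc]
      have h1 : B.m (y1 * y) ≤ B.m y1 + B.m y := B.m_mul _ _
      have h2 : B.m x ≤ B.m (x * (y1 * y)⁻¹) + B.m (y1 * y) := by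
        have h3 := B.m_mul (x * (y1 * y)⁻¹) (y1 * y)
        rw [inv_mul_cancel_right] at h3
        exact h3
      have h4 : B.m (x * (y1 * y)⁻¹) = B.m (x * y⁻¹ * y1⁻¹) := by rw [e]
      refine ⟨y1 * y, B.K.mul_mem hy1 hy, ?_, ?_⟩
      · omega
      · omega

theorem UU_finite (B : Base Γ) (x : Γ) (l : ℕ) : ({y | y ∈ B.K ∧ B.m (x * y) = l} : Set Γ).Finite := by
  have hf : ((fun y => x * y) ⁻¹' {z | B.m z ≤ l}).Finite :=
    (B.fin l).preimage (fun a _ b _ h => mul_left_cancel h)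
  refine hf.subset ?_
  intro y hy
  exact hy.2.le

theorem UU_step (B : Base Γ) (x : Γ) (k l : ℕ) : UU B x (l + 2 * (k + 1)) ≤ cU B k * UU B x l := by
  have hA : ({y | y ∈ B.K ∧ B.m y = 2 * (k + 1)} : Set Γ).Finite :=
    (B.fin (2 * (k + 1))).subset (fun y hy => hy.2.le)
  have hB := UU_finite B x l
  have hsub : ({y | y ∈ B.K ∧ B.m (x * y) = l + 2 * (k + 1)} : Set Γ) ⊆
      (fun p : Γ × Γ => p.2 * p.1) ''
        (({y | y ∈ B.K ∧ B.m y = 2 * (k + 1)} : Set Γ) ×ˢ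
          ({y | y ∈ B.K ∧ B.m (x * y) = l} : Set Γ)) := by
    rintro y ⟨hyK, hym⟩
    obtain ⟨y', hy', hm', hx'⟩ := peel B (x * y) (k + 1) (by omega)
    refine ⟨(y', y * y'⁻¹), ⟨⟨hy', hm'⟩, ⟨B.K.mul_mem hyK (B.K.inv_mem hy'), ?_⟩⟩, ?_⟩
    · have e : x * (y * y'⁻¹) = x * y * y'⁻¹ := (mul_assoc _ _ _).symm
      change B.m (x * (y * y'⁻¹)) = l
      rw [e]
      omega
    · exact inv_mul_cancel_right y y'
  have hP := hA.prod hB
  calc UU B x (l + 2 * (k + 1))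
      = ({y | y ∈ B.K ∧ B.m (x * y) = l + 2 * (k + 1)} : Set Γ).ncard := rfl
    _ ≤ ((fun p : Γ × Γ => p.2 * p.1) ''
        (({y | y ∈ B.K ∧ B.m y = 2 * (k + 1)} : Set Γ) ×ˢ
          ({y | y ∈ B.K ∧ B.m (x * y) = l} : Set Γ))).ncard :=
        Set.ncard_le_ncard hsub (hP.image _)
    _ ≤ (({y | y ∈ B.K ∧ B.m y = 2 * (k + 1)} : Set Γ) ×ˢ
          ({y | y ∈ B.K ∧ B.m (x * y) = l} : Set Γ)).ncard := Set.ncard_image_le hP
    _ = cU B k * UU B x l := Set.ncard_prod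

theorem UU_coset (B : Base Γ) (x x' : Γ) (h : x⁻¹ * x' ∈ B.K) (l : ℕ) : UU B x l = UU B x' l := by
  have e : ({y | y ∈ B.K ∧ B.m (x * y) = l} : Set Γ) =
      (fun y => (x⁻¹ * x') * y) '' ({y | y ∈ B.K ∧ B.m (x' * y) = l} : Set Γ) := by
    ext y
    constructor
    · rintro ⟨hyK, hym⟩
      refine ⟨(x⁻¹ * x')⁻¹ * y, ⟨B.K.mul_mem (B.K.inv_mem h) hyK, ?_⟩, ?_⟩
      · have e1 : x' * ((x⁻¹ * x')⁻¹ * y) = x * y := by group
        rw [e1]
        exact hym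
      · exact mul_inv_cancel_left (x⁻¹ * x') y
    · rintro ⟨z, ⟨hzK, hzm⟩, rfl⟩
      refine ⟨B.K.mul_mem h hzK, ?_⟩
      have e1 : x * ((x⁻¹ * x') * z) = x' * z := by group
      change B.m (x * ((x⁻¹ * x') * z)) = l
      rw [e1]
      exact hzm
  unfold UU
  rw [e]
  exact Set.ncard_image_of_injective _ (fun a b hab => mul_left_cancel hab)

theorem cU_summable (B : Base Γ) (δ : ℝ) (hδ : 0 < δ) :
    Summable fun k : ℕ => (cU B k : ℝ) * Real.exp (-(δ * (k + 1))) := by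
  obtain ⟨C, hC⟩ := B.subexp (δ / 4) (by positivity)
  have hg : Summable fun k : ℕ => C * Real.exp (-(δ / 2)) * (Real.exp (-(δ / 2))) ^ k := by
    refine Summable.mul_left _ ?_
    refine summable_geometric_of_lt_one (Real.exp_pos _).le ?_
    rw [Real.exp_lt_one_iff]
    linarith
  refine Summable.of_nonneg_of_le (fun k => by positivity) (fun k => ?_) hg
  have h1 : (cU B k : ℝ) ≤ C * Real.exp (δ / 4 * ((2 * (k + 1) : ℕ) : ℝ)) := by
    refine le_trans ?_ (hC (2 * (k + 1)))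
    have h2 : cU B k ≤ ({x | B.m x ≤ 2 * (k + 1)} : Set Γ).ncard :=
      Set.ncard_le_ncard (fun y hy => hy.2.le) (B.fin _)
    exact_mod_cast h2
  calc (cU B k : ℝ) * Real.exp (-(δ * (k + 1)))
      ≤ (C * Real.exp (δ / 4 * ((2 * (k + 1) : ℕ) : ℝ))) * Real.exp (-(δ * (k + 1))) :=
        mul_le_mul_of_nonneg_right h1 (Real.exp_pos _).le
    _ = C * Real.exp (-(δ / 2)) * (Real.exp (-(δ / 2))) ^ k := by
        rw [← Real.exp_nat_mul, mul_assoc, mul_assoc, ← Real.exp_add, ← Real.exp_add]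
        congr 2
        push_cast
        ring

end Pool.Agent.H40.GG
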