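import Mathlib

/-! # The first Grigorchuk group: definitions used in the final statement -/

namespace Pool.Agent.H40.GG

/-- The automorphism a of the rooted binary tree; the vertices are the finite words over 0, 1
(List Bool, false is 0, true is 1): it changes the first letter of a nonempty word. -/
def aFun : List Bool → List Bool
  | [] => []
  | x :: w => (!x) :: w

mutual
  /-- b(0w) = 0 a(w), b(1w) = 1 c(w). -/
  def bFun : List Bool → List Bool
    | [] => []
    | false :: w => false :: aFun w
    | true :: w => true :: cFun w
  /-- c(0w) = 0 a(w), c(1w) = 1 d(w). -/
  def cFun : List Bool → List Bool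
    | [] => []
    | false :: w => false :: aFun w
    | true :: w => true :: dFun w
  /-- d(0w) = 0 w, d(1w) = 1 b(w). -/
  def dFun : List Bool → List Bool
    | [] => []
    | false :: w => false :: w
    | true :: w => true :: bFun w
end

theorem aFun_aFun (w : List Bool) : aFun (aFun w) = w := by
  cases w <;> simp [aFun]

theorem bcd_invol : ∀ w : List Bool, bFun (bFun w) = w ∧ cFun (cFun w) = w ∧ dFun (dFun w) = w
  | [] => by simp [bFun, cFun, dFun]
  | false :: w => by simp [bFun, cFun, dFun, aFun_aFun]
  | true :: w => by
      have h := bcd_invol w
      simp [bFun, cFun, dFun, h.1, h.2.1, h.2.2]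

/-- The automorphism a as a permutation of the words. -/
def a : Equiv.Perm (List Bool) := Function.Involutive.toPerm aFun aFun_aFun
/-- The automorphism b as a permutation of the words. -/
def b : Equiv.Perm (List Bool) := Function.Involutive.toPerm bFun (fun w => (bcd_invol w).1)
/-- The automorphism c as a permutation of the words. -/
def c : Equiv.Perm (List Bool) := Function.Involutive.toPerm cFun (fun w => (bcd_invol w).2.1)
/-- The automorphism d as a permutation of the words. -/
def d : Equiv.Perm (List Bool) := Function.Involutive.toPerm dFun (fun w => (bcd_invol w).2.2)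

/-- The first Grigorchuk group: the group of permutations of the words generated by a, b, c, d. -/
def grig : Subgroup (Equiv.Perm (List Bool)) := Subgroup.closure {a, b, c, d}

/-- The elements of word length at most n over S: the products of at most n factors x with
x in S or x⁻¹ in S. -/
def wordBall {Γ : Type} [Group Γ] (S : Set Γ) (n : ℕ) : Set Γ :=
  {g | ∃ l : List Γ, l.length ≤ n ∧ (∀ x ∈ l, x ∈ S ∨ x⁻¹ ∈ S) ∧ l.prod = g}

/-- The growth function: the number of elements of word length at most n over S. -/
noncomputable def growth {Γ : Type} [Group Γ] (S : Set Γ) (n : ℕ) : ℕ := (wordBall S n).ncard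

end Pool.Agent.H40.GG
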