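import Pool.Agent.H40.GG.KDefs

/-! # Level k: action and sections -/

namespace Pool.Agent.H40.GG

theorem actF_mul : ∀ (k : ℕ) (g h : G) (v : VV k), actF k (g * h) v = actF k g (actF k h v)
  | 0, _, _, _ => rfl
  | k + 1, g, h, v => by
      simp only [actF]
      rw [sw_mul, s1_mul, actF_mul k]
      rfl

theorem secF_mul : ∀ (k : ℕ) (g h : G) (v : VV k),
    secF k (g * h) v = secF k g (actF k h v) * secF k h v
  | 0, _, _, _ => rfl
  | k + 1, g, h, v => by
      simp only [secF, actF]
      rw [s1_mul, secF_mul k]

theorem actF_one : ∀ (k : ℕ) (v : VV k), actF k 1 v = v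
  | 0, _ => rfl
  | k + 1, v => by
      simp only [actF]
      rw [sw_one, s1_one, actF_one k]
      rfl

theorem secF_one : ∀ (k : ℕ) (v : VV k), secF k 1 v = 1
  | 0, _ => rfl
  | k + 1, v => by
      simp only [secF]
      rw [s1_one, secF_one k]

/-- The action on level k as a homomorphism to the permutations. -/
noncomputable def actH (k : ℕ) : G →* Equiv.Perm (VV k) where
  toFun g :=
    { toFun := actF k g
      invFun := actF k g⁻¹
      left_inv := fun v => by rw [← actF_mul, inv_mul_cancel, actF_one]
      right_inv := fun v => by rw [← actF_mul, mul_inv_cancel, actF_one] }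
  map_one' := by
    apply Equiv.ext
    intro v
    exact actF_one k v
  map_mul' g h := by
    apply Equiv.ext
    intro v
    exact actF_mul k g h v

theorem actH_apply (k : ℕ) (g : G) (v : VV k) : actH k g v = actF k g v := rfl

theorem faithfulF : ∀ (k : ℕ) (g h : G), (∀ v, actF k g v = actF k h v) →
    (∀ v, secF k g v = secF k h v) → g = h
  | 0, g, h, _, hs => hs ()
  | k + 1, g, h, ha, hs => by
      have hsw : ∀ x, sw g x = sw h x := by
        intro x
        obtain ⟨v⟩ := VV_nonempty k
        have := ha ((x, v) : Bool × VV k)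
        exact congrArg Prod.fst this
      have h1 : ∀ x, s1 g x = s1 h x := by
        intro x
        refine faithfulF k _ _ (fun v => ?_) (fun v => ?_)
        · exact congrArg Prod.snd (ha ((x, v) : Bool × VV k))
        · exact hs ((x, v) : Bool × VV k)
      exact ext_dec g h (Equiv.ext hsw) h1

/-- If pairs of elements of a subgroup K are (as first level sections) elements of K, then all
families of elements of K on level k are families of sections of elements of K. -/
theorem embF (K : Subgroup G)
    (hK : ∀ x ∈ K, ∀ y ∈ K, ∃ g ∈ K, sw g = 1 ∧ s1 g false = x ∧ s1 g true = y) :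
    ∀ (k : ℕ) (y : VV k → G), (∀ v, y v ∈ K) →
      ∃ g ∈ K, (∀ v, actF k g v = v) ∧ ∀ v, secF k g v = y v
  | 0, y, hy => ⟨y (), hy (), fun _ => rfl, fun _ => rfl⟩
  | k + 1, y, hy => by
      obtain ⟨g0, hg0, ha0, hs0⟩ := embF K hK k (fun v => y ((false, v) : Bool × VV k))
        (fun v => hy _)
      obtain ⟨g1, hg1, ha1, hs1⟩ := embF K hK k (fun v => y ((true, v) : Bool × VV k))
        (fun v => hy _)
      obtain ⟨g, hg, hsw, h0, h1⟩ := hK g0 hg0 g1 hg1
      refine ⟨g, hg, ?_, ?_⟩
      · rintro ⟨x, v⟩
        cases x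
        · simp only [actF, hsw, h0, ha0]; rfl
        · simp only [actF, hsw, h1, ha1]; rfl
      · rintro ⟨x, v⟩
        cases x
        · simp only [secF, h0, hs0]
        · simp only [secF, h1, hs1]

end Pool.Agent.H40.GG
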