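import Pool.Agent.H40.GG.MM
import Pool.Agent.H40.GG.Lev

/-! # Sections of the generators on level k, and the letters property -/

namespace Pool.Agent.H40.GG

theorem Let_gA_mem : gA ∈ QQ := Subgroup.subset_closure (by simp)

theorem Let_gD_mem : gD ∈ QQ := Subgroup.subset_closure (by simp)

theorem Let_secA : ∀ (k : ℕ) (v : VV k), secF k gA v ∈ QQ
  | 0, _ => Let_gA_mem
  | k + 1, v => by
      simp only [secF]
      rw [s1_gA, secF_one]
      exact Subgroup.one_mem _

theorem Let_step (k : ℕ) (x : G) (h0 : ∀ v, secF k (s1 x false) v ∈ QQ)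
    (h1 : (∀ v, secF k (s1 x true) v ∈ QQ) ∨
      ∃ v₀, (secF k (s1 x true) v₀ = gB ∨ secF k (s1 x true) v₀ = gC) ∧
        ∀ v, v ≠ v₀ → secF k (s1 x true) v ∈ QQ) :
    (∀ v, secF (k + 1) x v ∈ QQ) ∨
      ∃ v₀, (secF (k + 1) x v₀ = gB ∨ secF (k + 1) x v₀ = gC) ∧
        ∀ v, v ≠ v₀ → secF (k + 1) x v ∈ QQ := by
  rcases h1 with h1 | ⟨v₀, hv, h1⟩
  · left
    rintro ⟨y, v⟩
    cases y
    · exact h0 v
    · exact h1 v
  · right
    refine ⟨((true, v₀) : Bool × VV k), hv, ?_⟩
    rintro ⟨y, v⟩ hne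
    cases y
    · exact h0 v
    · refine h1 v ?_
      intro h
      exact hne (by rw [h])

theorem gen_sec (k : ℕ) (x : G) (hx : x = gA ∨ x = gB ∨ x = gC ∨ x = gD) :
    (∀ v, secF k x v ∈ QQ) ∨
      ∃ v₀, (secF k x v₀ = gB ∨ secF k x v₀ = gC) ∧ ∀ v, v ≠ v₀ → secF k x v ∈ QQ := by
  induction k generalizing x with
  | zero =>
    rcases hx with h | h | h | h
    · left; intro v; rw [h]; exact Let_gA_mem
    · right
      refine ⟨(), Or.inl (by rw [h]; rfl), ?_⟩
      intro v hv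
      exact absurd rfl hv
    · right
      refine ⟨(), Or.inr (by rw [h]; rfl), ?_⟩
      intro v hv
      exact absurd rfl hv
    · left; intro v; rw [h]; exact Let_gD_mem
  | succ k ih =>
    rcases hx with h | h | h | h
    · left; intro v; rw [h]; exact Let_secA (k + 1) v
    · rw [h]
      refine Let_step k gB ?_ ?_
      · rw [s1_gB_false]; exact Let_secA k
      · rw [s1_gB_true]; exact ih gC (by simp)
    · rw [h]
      refine Let_step k gC ?_ ?_
      · rw [s1_gC_false]; exact Let_secA k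
      · rw [s1_gC_true]; exact ih gD (by simp)
    · rw [h]
      refine Let_step k gD ?_ ?_
      · rw [s1_gD_false]
        intro v
        rw [secF_one]
        exact Subgroup.one_mem _
      · rw [s1_gD_true]; exact ih gB (by simp)

theorem Let_mm_gC : mm gC ≤ 1 := by
  rw [gC_eq, mm_mul_QQ gB gD Let_gD_mem]
  exact mm_gB

/-- The generators have length at most one on every level. -/
theorem gen_rho (k : ℕ) (x : G) (hx : x = gA ∨ x = gB ∨ x = gC ∨ x = gD) :
    (∑ v, mm (secF k x v)) ≤ 1 := by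
  rcases gen_sec k x hx with h | ⟨v₀, hv, h⟩
  · rw [Finset.sum_eq_zero (fun v _ => mm_QQ _ (h v))]
    exact Nat.zero_le _
  · rw [Finset.sum_eq_single v₀ (fun v _ hne => mm_QQ _ (h v hne))
      (fun hn => absurd (Finset.mem_univ _) hn)]
    rcases hv with hv | hv
    · rw [hv]; exact mm_gB
    · rw [hv]; exact Let_mm_gC

theorem Let_sum (k : ℕ) (g s : G)
    (h : ∀ v, mm (secF k g v * (secF k s v)⁻¹) + mm (secF k s v) = mm (secF k g v)) :
    (∑ v, mm (secF k (g * s⁻¹) v)) + (∑ v, mm (secF k s v)) = ∑ v, mm (secF k g v) := by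
  rw [← Equiv.sum_comp (actH k s) (fun v => mm (secF k (g * s⁻¹) v)), ← Finset.sum_add_distrib]
  refine Finset.sum_congr rfl fun v _ => ?_
  rw [actH_apply]
  have e : secF k (g * s⁻¹) (actF k s v) = secF k g v * (secF k s v)⁻¹ := by
    rw [eq_mul_inv_iff_mul_eq, ← secF_mul, inv_mul_cancel_right]
  rw [e]
  exact h v

theorem lettersF (k : ℕ) (x : G) (hx : x = gA ∨ x = gB ∨ x = gC ∨ x = gD) (g : G)
    (hg : ∀ v, 1 ≤ mm (secF k g v)) :
    ∃ e : G, (∀ v, actF k e v = v) ∧ (∀ v, secF k e v ∈ KK) ∧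
      (∑ v, mm (secF k (x * e) v)) ≤ 1 ∧
      (∑ v, mm (secF k (g * (x * e)⁻¹) v)) + (∑ v, mm (secF k (x * e) v)) =
        ∑ v, mm (secF k g v) := by
  classical
  rcases gen_sec k x hx with h | ⟨v₀, hv, h⟩
  · refine ⟨1, fun v => actF_one k v, fun v => ?_, ?_, ?_⟩
    · rw [secF_one]; exact Subgroup.one_mem _
    · rw [mul_one]; exact gen_rho k x hx
    · rw [mul_one]
      apply Let_sum
      intro v
      rw [mm_mul_QQ _ _ (Subgroup.inv_mem _ (h v)), mm_QQ _ (h v), add_zero]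
  · obtain ⟨w, q, hq, hX, hm⟩ := mm_fact (secF k g v₀) (hg v₀)
    -- the wanted section at the special vertex
    obtain ⟨s', hy, hle, hXs⟩ : ∃ s' : G, (secF k x v₀)⁻¹ * s' ∈ KK ∧ mm s' ≤ 1 ∧
        mm (secF k g v₀ * s'⁻¹) = mm w := by
      rcases hv with hv | hv
      · refine ⟨q⁻¹ * gB * q, ?_, ?_, ?_⟩
        · rw [hv]
          have h1 := comm_mod q hq
          have h2 : (q * gB)⁻¹ * (gB * q) = gB⁻¹ * (q⁻¹ * gB * q) := by group
          rwa [h2] at h1
        · rw [mm_mul_QQ _ _ hq, mm_QQ_mul _ _ (Subgroup.inv_mem _ hq)]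
          exact mm_gB
        · have h2 : secF k g v₀ * (q⁻¹ * gB * q)⁻¹ = w * q := by
            rw [hX]; group
          rw [h2, mm_mul_QQ _ _ hq]
      · refine ⟨gD * (q⁻¹ * gB * q), ?_, ?_, ?_⟩
        · rw [hv, ← gD_mul_gB]
          have h1 := comm_mod q hq
          have h2 : (q * gB)⁻¹ * (gB * q) = (gD * gB)⁻¹ * (gD * (q⁻¹ * gB * q)) := by group
          rwa [h2] at h1
        · rw [mm_QQ_mul _ _ Let_gD_mem, mm_mul_QQ _ _ hq, mm_QQ_mul _ _ (Subgroup.inv_mem _ hq)]
          exact mm_gB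
        · have h2 : secF k g v₀ * (gD * (q⁻¹ * gB * q))⁻¹ = w * (q * gD⁻¹) := by
            rw [hX]; group
          rw [h2, mm_mul_QQ _ _ (Subgroup.mul_mem _ hq (Subgroup.inv_mem _ Let_gD_mem))]
    obtain ⟨e, heK, hea, hes⟩ := embF KK KK_pair k
      (fun v => if v = v₀ then (secF k x v₀)⁻¹ * s' else 1) (by
        intro v
        by_cases hvv : v = v₀
        · simp only [if_pos hvv]; exact hy
        · simp only [if_neg hvv]; exact Subgroup.one_mem _)
    have hxe : ∀ v, secF k (x * e) v = if v = v₀ then s' else secF k x v := by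
      intro v
      rw [secF_mul, hea, hes]
      by_cases hvv : v = v₀
      · rw [if_pos hvv, if_pos hvv, hvv, mul_inv_cancel_left]
      · rw [if_neg hvv, if_neg hvv, mul_one]
    have hs1 : mm s' = 1 := by
      have h1 : mm (secF k g v₀) ≤ mm (secF k g v₀ * s'⁻¹) + mm s' := by
        have := mm_mul (secF k g v₀ * s'⁻¹) s'
        rwa [inv_mul_cancel_right] at this
      omega
    refine ⟨e, hea, fun v => ?_, ?_, ?_⟩
    · rw [hes]
      by_cases hvv : v = v₀
      · rw [if_pos hvv]; exact hy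
      · rw [if_neg hvv]; exact Subgroup.one_mem _
    · rw [Finset.sum_eq_single v₀ (fun v _ hne => by
          rw [hxe, if_neg hne]; exact mm_QQ _ (h v hne))
        (fun hn => absurd (Finset.mem_univ _) hn), hxe, if_pos rfl]
      exact hle
    · apply Let_sum
      intro v
      rw [hxe]
      by_cases hvv : v = v₀
      · rw [if_pos hvv, hvv, hXs, hs1, hm]
      · rw [if_neg hvv, mm_mul_QQ _ _ (Subgroup.inv_mem _ (h v hvv)), mm_QQ _ (h v hvv), add_zero]

end Pool.Agent.H40.GG
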