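import Pool.Agent.H40.GG.K2

/-! # The length mm

WW i * WW j ⊆ WW (i + j), (WW n)⁻¹ = WW n, every g lies in some WW n (gC = gB * gD), WW n is
finite (QQ is).  mm_fact: write g = h * gB * q with h ∈ WW (mm g - 1).
mm_pair: x = h b q₁ b q₂ with mm h + 2 = mm x; y = (q₁ q₂)⁻¹ b q₁ b q₂ lies in K because b commutes
with QQ modulo K (comm_mod) and b² = 1, and x y⁻¹ = h q₁ q₂.
mm_par: g ∈ WW n implies par g = swp ^ n. -/

namespace Pool.Agent.H40.GG

theorem MM_WW_QQ {n : ℕ} {g q : G} (hg : g ∈ WW n) (hq : q ∈ QQ) : g * q ∈ WW n := by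
  cases n with
  | zero => exact QQ.mul_mem hg hq
  | succ n =>
      obtain ⟨h, hh, q', hq', rfl⟩ := hg
      exact ⟨h, hh, q' * q, QQ.mul_mem hq' hq, by group⟩

theorem MM_WW_mul {n m : ℕ} {g h : G} (hg : g ∈ WW n) (hh : h ∈ WW m) : g * h ∈ WW (n + m) := by
  induction m generalizing h with
  | zero => exact MM_WW_QQ hg hh
  | succ m ih =>
      obtain ⟨h', hh', q, hq, rfl⟩ := hh
      exact ⟨g * h', ih hh', q, hq, by group⟩

theorem MM_one_WW : (1 : G) ∈ WW 0 := QQ.one_mem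

theorem MM_gB_WW : gB ∈ WW 1 := ⟨1, MM_one_WW, 1, QQ.one_mem, by simp⟩

theorem MM_gA_QQ : gA ∈ QQ := Subgroup.subset_closure (by simp)

theorem MM_gD_QQ : gD ∈ QQ := Subgroup.subset_closure (by simp)

theorem MM_WW_inv {n : ℕ} {g : G} (hg : g ∈ WW n) : g⁻¹ ∈ WW n := by
  induction n generalizing g with
  | zero => exact QQ.inv_mem hg
  | succ n ih =>
      obtain ⟨h, hh, q, hq, rfl⟩ := hg
      have h1 : q⁻¹ * gB ∈ WW (0 + 1) :=
        MM_WW_mul (show q⁻¹ ∈ WW 0 from QQ.inv_mem hq) MM_gB_WW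
      have h2 := MM_WW_mul h1 (ih hh)
      have e : (h * gB * q)⁻¹ = q⁻¹ * gB * h⁻¹ := by
        rw [mul_inv_rev, mul_inv_rev, inv_gB]; group
      rw [e]
      have e2 : n + 1 = 0 + 1 + n := by omega
      rw [e2]
      exact h2

theorem MM_exists (g : G) : ∃ n, g ∈ WW n := by
  have h := mclosure_gen ▸ Submonoid.mem_top g
  refine Submonoid.closure_induction (M := G) (s := {gA, gB, gC, gD})
      (motive := fun y _ => ∃ n, y ∈ WW n) ?_ ?_ ?_ h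
  · rintro y (rfl | rfl | rfl | rfl)
    · exact ⟨0, MM_gA_QQ⟩
    · exact ⟨1, MM_gB_WW⟩
    · refine ⟨1, ?_⟩
      rw [gC_eq]
      exact MM_WW_QQ MM_gB_WW MM_gD_QQ
    · exact ⟨0, MM_gD_QQ⟩
  · exact ⟨0, MM_one_WW⟩
  · rintro y z _ _ ⟨n, hn⟩ ⟨m, hm⟩
    exact ⟨n + m, MM_WW_mul hn hm⟩

theorem mm_spec (g : G) : g ∈ WW (mm g) := Nat.sInf_mem (s := {n | g ∈ WW n}) (MM_exists g)

theorem mm_le {g : G} {n : ℕ} (h : g ∈ WW n) : mm g ≤ n := Nat.sInf_le h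

theorem mm_QQ (q : G) (hq : q ∈ QQ) : mm q = 0 := Nat.le_zero.1 (mm_le (n := 0) hq)

theorem mm_one : mm 1 = 0 := mm_QQ 1 QQ.one_mem

theorem mm_inv (g : G) : mm g⁻¹ = mm g := by
  apply le_antisymm
  · exact mm_le (MM_WW_inv (mm_spec g))
  · have := mm_le (MM_WW_inv (mm_spec g⁻¹))
    rwa [inv_inv] at this

theorem mm_mul (g h : G) : mm (g * h) ≤ mm g + mm h := mm_le (MM_WW_mul (mm_spec g) (mm_spec h))

theorem mm_gB : mm gB ≤ 1 := mm_le MM_gB_WW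

theorem mm_mul_QQ (g q : G) (hq : q ∈ QQ) : mm (g * q) = mm g := by
  apply le_antisymm
  · have := mm_mul g q
    rwa [mm_QQ q hq, add_zero] at this
  · have := mm_mul (g * q) q⁻¹
    rwa [mm_QQ q⁻¹ (QQ.inv_mem hq), add_zero, mul_assoc, mul_inv_cancel, mul_one] at this

theorem mm_QQ_mul (g q : G) (hq : q ∈ QQ) : mm (q * g) = mm g := by
  apply le_antisymm
  · have := mm_mul q g
    rwa [mm_QQ q hq, zero_add] at this
  · have := mm_mul q⁻¹ (q * g)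
    rwa [mm_QQ q⁻¹ (QQ.inv_mem hq), zero_add, ← mul_assoc, inv_mul_cancel, one_mul] at this

theorem mm_fact (g : G) (hg : 1 ≤ mm g) : ∃ h q, q ∈ QQ ∧ g = h * gB * q ∧ mm h + 1 = mm g := by
  obtain ⟨n, hn⟩ : ∃ n, mm g = n + 1 := ⟨mm g - 1, by omega⟩
  have h1 := mm_spec g
  rw [hn] at h1
  obtain ⟨h, hh, q, hq, e⟩ := h1
  refine ⟨h, q, hq, e, ?_⟩
  have h2 := mm_le hh
  have h3 : mm g ≤ mm h + 1 := by
    have h4 := mm_mul h gB
    have h5 := mm_gB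
    rw [e, mm_mul_QQ _ q hq]
    omega
  omega

theorem MM_WW_finite (n : ℕ) : (WW n).Finite := by
  induction n with
  | zero => exact QQ_finite
  | succ n ih =>
      have h := Set.Finite.image2 (fun h q : G => h * gB * q) ih QQ_finite
      refine h.subset ?_
      rintro g ⟨h, hh, q, hq, rfl⟩
      exact ⟨h, hh, q, hq, rfl⟩

theorem mm_fin (r : ℕ) : {g : G | mm g ≤ r}.Finite := by
  have h : (⋃ n ∈ Finset.range (r + 1), WW n).Finite := by
    apply Set.Finite.biUnion (Finset.finite_toSet _)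
    intro n _
    exact MM_WW_finite n
  refine h.subset ?_
  intro g hg
  rw [Set.mem_iUnion₂]
  have hg' : mm g ≤ r := hg
  exact ⟨mm g, Finset.mem_range.2 (by omega), mm_spec g⟩

theorem MM_par {n : ℕ} {g : G} (hg : g ∈ WW n) : par g = swp ^ n := by
  induction n generalizing g with
  | zero => rw [pow_zero]; exact par_QQ g hg
  | succ n ih =>
      obtain ⟨h, hh, q, hq, rfl⟩ := hg
      rw [par_mul, par_mul, ih hh, par_gB, par_QQ q hq, mul_one, pow_succ]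

theorem MM_swp_sq : swp * swp = 1 := by
  apply Equiv.ext
  intro x
  cases x <;> rfl

theorem mm_even (x : G) (hx : x ∈ KK) : Even (mm x) := by
  have h1 := MM_par (mm_spec x)
  rw [par_KK x hx] at h1
  by_contra hne
  rw [Nat.not_even_iff_odd] at hne
  obtain ⟨k, hk⟩ := hne
  rw [hk, pow_succ, pow_mul, pow_two, MM_swp_sq, one_pow, one_mul] at h1
  exact swp_ne_one h1.symm

theorem mm_pair (x : G) (hx : 2 ≤ mm x) : ∃ y ∈ KK, mm y ≤ 2 ∧ mm (x * y⁻¹) + 2 = mm x := by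
  obtain ⟨h1, q2, hq2, e1, m1⟩ := mm_fact x (by omega)
  obtain ⟨h, q1, hq1, e2, m2⟩ := mm_fact h1 (by omega)
  refine ⟨(q1 * q2)⁻¹ * gB * q1 * gB * q2, ?_, ?_, ?_⟩
  · have hk := comm_mod q1 hq1
    have h3 := KK_normal.conj_mem _ hk gB
    have h4 := KK_normal.conj_mem _ h3 q2⁻¹
    have e : (q1 * q2)⁻¹ * gB * q1 * gB * q2
        = q2⁻¹ * (gB * ((q1 * gB)⁻¹ * (gB * q1)) * gB⁻¹) * q2⁻¹⁻¹ := by
      rw [inv_inv, mul_inv_rev, mul_inv_rev]
      nth_rewrite 2 [inv_gB]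
      group
    rw [e]
    exact h4
  · have i1 := mm_mul ((q1 * q2)⁻¹ * gB * q1 * gB) q2
    have i2 := mm_mul ((q1 * q2)⁻¹ * gB * q1) gB
    have i3 := mm_mul ((q1 * q2)⁻¹ * gB) q1
    have i4 := mm_mul ((q1 * q2)⁻¹) gB
    have j1 := mm_QQ q2 hq2
    have j2 := mm_QQ q1 hq1
    have j3 := mm_QQ ((q1 * q2)⁻¹) (QQ.inv_mem (QQ.mul_mem hq1 hq2))
    have j4 := mm_gB
    omega
  · have e : x * ((q1 * q2)⁻¹ * gB * q1 * gB * q2)⁻¹ = h * (q1 * q2) := by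
      rw [e1, e2]
      group
    rw [e, mm_mul_QQ h _ (QQ.mul_mem hq1 hq2)]
    omega

end Pool.Agent.H40.GG
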