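import Pool.Agent.H40.GG.Sub1
import Pool.Agent.H40.GG.MM

/-! # Subexponential growth

Let γ r = ncard {g | LL g ≤ r}.  By LL_contr and ext_dec the map g ↦ (sw g, s1 g false, s1 g true)
is injective from {LL ≤ r} to Perm Bool × {(x, y) | LL x + LL y ≤ s}, s = 6 (r + 5) / 7, hence
γ r ≤ 2 * ∑ i ∈ range (s + 1), γ i * γ (s - i).
If γ i ≤ C exp (t i) for all i (C ≥ 1, t > 0), then γ r ≤ 2 (s + 1) C² exp (t s) and, since
s ≤ (6/7)(r + 5), γ r ≤ C' exp ((13/14) t r) with C' = sup over r of the quotient.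
LL_ball gives the start t = log 4 (C = 4); iterate (13/14)^j t → 0.
Finally {mm ≤ r} ⊆ {LL ≤ 20 r + 14}: every q in QQ has LL q ≤ 14 (QQ_cases), and
LL (h * gB * q) ≤ LL h + 6 + 14. -/

namespace Pool.Agent.H40.GG

private theorem Sub2_card_perm : Fintype.card (Equiv.Perm Bool) = 2 := by
  rw [Fintype.card_perm, Fintype.card_bool]; rfl

theorem LL_rec (r : ℕ) : ({g : G | LL g ≤ r} : Set G).ncard ≤
    2 * ∑ i ∈ Finset.range (6 * (r + 5) / 7 + 1), ({g : G | LL g ≤ i} : Set G).ncard *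
      ({g : G | LL g ≤ 6 * (r + 5) / 7 - i} : Set G).ncard := by
  classical
  have hB : ∀ i, ({g : G | LL g ≤ i} : Set G).ncard = (LL_ball i).1.toFinset.card := fun i =>
    Set.ncard_eq_toFinset_card _ (LL_ball i).1
  simp only [hB]
  set s := 6 * (r + 5) / 7 with hs
  set T : Finset (G × G) := (Finset.range (s + 1)).biUnion fun i =>
    (LL_ball i).1.toFinset ×ˢ (LL_ball (s - i)).1.toFinset with hT
  have hTc : T.card ≤ ∑ i ∈ Finset.range (s + 1), (LL_ball i).1.toFinset.card *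
      (LL_ball (s - i)).1.toFinset.card := by
    refine Finset.card_biUnion_le.trans (Finset.sum_le_sum fun i _ => ?_)
    rw [Finset.card_product]
  have hcard : (LL_ball r).1.toFinset.card ≤
      ((Finset.univ : Finset (Equiv.Perm Bool)) ×ˢ T).card := by
    refine Finset.card_le_card_of_injOn (fun g => (sw g, (s1 g false, s1 g true))) ?_ ?_
    · intro g hg
      have hg' : LL g ≤ r := by simpa using hg
      have hc := LL_contr g
      have hsum : LL (s1 g false) + LL (s1 g true) ≤ s := by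
        rw [hs, Nat.le_div_iff_mul_le (by norm_num)]
        omega
      have hmem : (s1 g false, s1 g true) ∈ T := by
        rw [hT, Finset.mem_biUnion]
        refine ⟨LL (s1 g false), Finset.mem_range.mpr (by omega), ?_⟩
        rw [Finset.mem_product]
        constructor
        · simp
        · simp only [Set.Finite.mem_toFinset, Set.mem_setOf_eq]
          omega
      simp only [Finset.coe_product, Set.mem_prod, Finset.mem_coe]
      exact ⟨Finset.mem_univ _, hmem⟩
    · intro g _ h _ hgh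
      simp only [Prod.mk.injEq] at hgh
      refine ext_dec g h hgh.1 fun x => ?_
      cases x
      · exact hgh.2.1
      · exact hgh.2.2
  rw [Finset.card_product, Finset.card_univ, Sub2_card_perm] at hcard
  exact hcard.trans (Nat.mul_le_mul_left 2 hTc)

private theorem Sub2_step (γ : ℕ → ℕ)
    (hrec : ∀ r, γ r ≤ 2 * ∑ i ∈ Finset.range (6 * (r + 5) / 7 + 1), γ i *
      γ (6 * (r + 5) / 7 - i)) (t : ℝ) (ht : 0 < t)
    (h : ∃ C : ℝ, 0 ≤ C ∧ ∀ r : ℕ, (γ r : ℝ) ≤ C * Real.exp (t * r)) :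
    ∃ C : ℝ, 0 ≤ C ∧ ∀ r : ℕ, (γ r : ℝ) ≤ C * Real.exp (13 / 14 * t * r) := by
  obtain ⟨C, hC, h⟩ := h
  refine ⟨2 * C ^ 2 * Real.exp (30 / 7 * t) * (14 / t + 6), by positivity, fun r => ?_⟩
  set s := 6 * (r + 5) / 7 with hs
  have hs1 : 7 * s ≤ 6 * (r + 5) := by
    rw [hs]; exact Nat.mul_div_le _ _
  have hs2 : (7 : ℝ) * s ≤ 6 * (r + 5) := by exact_mod_cast hs1
  have h1 : (γ r : ℝ) ≤ 2 * ∑ i ∈ Finset.range (s + 1), (γ i : ℝ) * (γ (s - i) : ℝ) := by
    exact_mod_cast hrec r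
  have h2 : ∑ i ∈ Finset.range (s + 1), (γ i : ℝ) * (γ (s - i) : ℝ) ≤
      ((s : ℝ) + 1) * (C ^ 2 * Real.exp (t * s)) := by
    have : ∀ i ∈ Finset.range (s + 1), (γ i : ℝ) * (γ (s - i) : ℝ) ≤
        C ^ 2 * Real.exp (t * s) := by
      intro i hi
      have hi' : i ≤ s := by
        have := Finset.mem_range.mp hi
        omega
      calc (γ i : ℝ) * (γ (s - i) : ℝ) ≤ (C * Real.exp (t * i)) *
            (C * Real.exp (t * ((s - i : ℕ) : ℝ))) :=
            mul_le_mul (h i) (h (s - i)) (by positivity) (by positivity)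
        _ = C ^ 2 * (Real.exp (t * i) * Real.exp (t * ((s - i : ℕ) : ℝ))) := by ring
        _ = C ^ 2 * Real.exp (t * s) := by
            rw [← Real.exp_add, Nat.cast_sub hi']
            congr 2
            ring
    refine (Finset.sum_le_sum this).trans (le_of_eq ?_)
    rw [Finset.sum_const, Finset.card_range, nsmul_eq_mul]
    push_cast
    ring
  have h3 : Real.exp (t * s) ≤ Real.exp (30 / 7 * t) * Real.exp (6 / 7 * t * r) := by
    rw [← Real.exp_add]
    apply Real.exp_le_exp.mpr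
    nlinarith
  have hr0 : (0 : ℝ) ≤ r := Nat.cast_nonneg r
  have h4 : (s : ℝ) + 1 ≤ (14 / t + 6) * Real.exp (t * r / 14) := by
    have he := Real.add_one_le_exp (t * r / 14)
    have h5 : (s : ℝ) + 1 ≤ r + 6 := by linarith
    have h6 : (14 / t + 6) * (t * r / 14 + 1) = r + 14 / t + 6 * (t * r / 14) + 6 := by
      field_simp
      ring
    have h7 : 0 ≤ 14 / t := by positivity
    have h8 : 0 ≤ 6 * (t * r / 14) := by positivity
    have h9 : (14 / t + 6) * (t * r / 14 + 1) ≤ (14 / t + 6) * Real.exp (t * r / 14) :=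
      mul_le_mul_of_nonneg_left he (by positivity)
    linarith
  calc (γ r : ℝ) ≤ 2 * (((s : ℝ) + 1) * (C ^ 2 * Real.exp (t * s))) := h1.trans (by linarith)
    _ ≤ 2 * (((14 / t + 6) * Real.exp (t * r / 14)) *
        (C ^ 2 * (Real.exp (30 / 7 * t) * Real.exp (6 / 7 * t * r)))) := by
        gcongr
    _ = 2 * C ^ 2 * Real.exp (30 / 7 * t) * (14 / t + 6) *
        (Real.exp (t * r / 14) * Real.exp (6 / 7 * t * r)) := by ring
    _ = 2 * C ^ 2 * Real.exp (30 / 7 * t) * (14 / t + 6) * Real.exp (13 / 14 * t * r) := by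
        rw [← Real.exp_add]
        congr 2
        ring

private theorem Sub2_iter (γ : ℕ → ℕ)
    (hrec : ∀ r, γ r ≤ 2 * ∑ i ∈ Finset.range (6 * (r + 5) / 7 + 1), γ i *
      γ (6 * (r + 5) / 7 - i)) (t : ℝ) (ht : 0 < t)
    (h : ∃ C : ℝ, 0 ≤ C ∧ ∀ r : ℕ, (γ r : ℝ) ≤ C * Real.exp (t * r)) (j : ℕ) :
    ∃ C : ℝ, 0 ≤ C ∧ ∀ r : ℕ, (γ r : ℝ) ≤ C * Real.exp ((13 / 14) ^ j * t * r) := by
  induction j with
  | zero => simpa using h
  | succ j ih =>
      have := Sub2_step γ hrec ((13 / 14) ^ j * t) (by positivity) ih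
      obtain ⟨C, hC, h1⟩ := this
      refine ⟨C, hC, fun r => ?_⟩
      have h2 := h1 r
      have h3 : (13 / 14 : ℝ) ^ (j + 1) * t * r = 13 / 14 * ((13 / 14) ^ j * t) * r := by ring
      rw [h3]
      exact h2

theorem LL_subexp (δ : ℝ) (hδ : 0 < δ) : ∃ C : ℝ, ∀ r : ℕ,
    (({g : G | LL g ≤ r} : Set G).ncard : ℝ) ≤ C * Real.exp (δ * r) := by
  have h0 : ∃ C : ℝ, 0 ≤ C ∧ ∀ r : ℕ,
      ((({g : G | LL g ≤ r} : Set G).ncard : ℕ) : ℝ) ≤ C * Real.exp (Real.log 4 * r) := by
    refine ⟨4, by norm_num, fun r => ?_⟩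
    have h1 : ((({g : G | LL g ≤ r} : Set G).ncard : ℕ) : ℝ) ≤ 4 ^ (r + 1) := by
      exact_mod_cast (LL_ball r).2
    have h2 : Real.exp (Real.log 4 * r) = 4 ^ r := by
      rw [mul_comm, Real.exp_nat_mul, Real.exp_log (by norm_num)]
    rw [h2]
    refine h1.trans (le_of_eq ?_)
    ring
  have hlog : 0 < Real.log 4 := Real.log_pos (by norm_num)
  obtain ⟨j, hj⟩ := exists_pow_lt_of_lt_one (show 0 < δ / Real.log 4 by positivity)
    (show (13 / 14 : ℝ) < 1 by norm_num)
  have hj' : (13 / 14 : ℝ) ^ j * Real.log 4 ≤ δ := by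
    have := (lt_div_iff₀ hlog).mp hj
    exact this.le
  obtain ⟨C, hC, h1⟩ := Sub2_iter (fun r => ({g : G | LL g ≤ r} : Set G).ncard) LL_rec
    (Real.log 4) hlog h0 j
  refine ⟨C, fun r => (h1 r).trans ?_⟩
  apply mul_le_mul_of_nonneg_left _ hC
  apply Real.exp_le_exp.mpr
  exact mul_le_mul_of_nonneg_right hj' (Nat.cast_nonneg r)

private theorem Sub2_QQ (q : G) (hq : q ∈ QQ) : LL q ≤ 14 := by
  rcases QQ_cases q hq with h | h | h | h | h | h | h | h
  · have := LL_le []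
    simp at this
    rw [h]; omega
  · have := LL_le [0]
    simp [lt, wt] at this
    rw [h]; omega
  · have := LL_le [3]
    simp [lt, wt] at this
    rw [h]; omega
  · have := LL_le [0, 3]
    simp [lt, wt] at this
    rw [h]; omega
  · have := LL_le [3, 0]
    simp [lt, wt] at this
    rw [h]; omega
  · have := LL_le [0, 3, 0]
    simp [lt, wt] at this
    rw [h, mul_assoc]; omega
  · have := LL_le [3, 0, 3]
    simp [lt, wt] at this
    rw [h, mul_assoc]; omega
  · have := LL_le [0, 3, 0, 3]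
    simp [lt, wt] at this
    rw [h, mul_assoc, mul_assoc]; omega

private theorem Sub2_gB : LL gB ≤ 6 := by
  have := LL_le [1]
  simp [lt, wt] at this
  exact this

private theorem Sub2_WW : ∀ (n : ℕ) (g : G), g ∈ WW n → LL g ≤ 20 * n + 14
  | 0, g, hg => by
      have := Sub2_QQ g hg
      omega
  | n + 1, g, hg => by
      obtain ⟨h, hh, q, hq, rfl⟩ := hg
      have h1 := Sub2_WW n h hh
      have h2 := Sub2_QQ q hq
      have h3 := LL_mul (h * gB) q
      have h4 := LL_mul h gB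
      have h5 := Sub2_gB
      omega

theorem mm_subexp (δ : ℝ) (hδ : 0 < δ) : ∃ C : ℝ, ∀ r : ℕ,
    (({g : G | mm g ≤ r} : Set G).ncard : ℝ) ≤ C * Real.exp (δ * r) := by
  obtain ⟨C, hC⟩ := LL_subexp (δ / 20) (by positivity)
  refine ⟨C * Real.exp (14 * δ / 20), fun r => ?_⟩
  have hsub : ({g : G | mm g ≤ r} : Set G) ⊆ {g : G | LL g ≤ 20 * r + 14} := by
    intro g hg
    have h1 := Sub2_WW (mm g) g (mm_spec g)
    have h2 : mm g ≤ r := hg
    show LL g ≤ 20 * r + 14
    omega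
  have h1 : (({g : G | mm g ≤ r} : Set G).ncard : ℝ) ≤
      (({g : G | LL g ≤ 20 * r + 14} : Set G).ncard : ℝ) := by
    exact_mod_cast Set.ncard_le_ncard hsub (LL_ball _).1
  refine h1.trans ((hC (20 * r + 14)).trans (le_of_eq ?_))
  rw [mul_assoc, ← Real.exp_add]
  congr 2
  push_cast
  ring

end Pool.Agent.H40.GG
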