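import Pool.Agent.H40.GG.Abs
import Pool.Agent.H40.GG.Let
import Pool.Agent.H40.GG.Sub2

/-! # Assembly for the first Grigorchuk group

bGG: the base data (m = mm, K = KK).  lGG k: the level data (act = actH k, sec = secF k, emb from embF
and KK_pair, letters from mclosure_gen and lettersF).
main_G: for F finite in G: every g has a bound C with rho_k g ≤ C for all k (closure_induction:
generators have rho ≤ 1 by gen_rho; rho_mul, rho_inv); R even ≥ 2 above all of them; N₀ from abs_main;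
k with 2^k ≥ N₀; S = {rho_k ≤ R} (finite by rho_finite) contains F and the generators. -/

namespace Pool.Agent.H40.GG

noncomputable def bGG : Base G where
  m := mm
  K := KK
  m_one := mm_one
  m_inv := mm_inv
  m_mul := mm_mul
  fin := mm_fin
  even := mm_even
  pair := mm_pair
  findex := KK_findex
  normal := KK_normal
  subexp := mm_subexp

noncomputable def lGG (k : ℕ) : Level G bGG (VV k) where
  act := actH k
  sec := secF k
  sec_mul := fun g h v => secF_mul k g h v
  faithful := fun g h ha hs => faithfulF k g h (fun v => congrArg (fun p => p v) ha) hs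
  emb := fun y hy => by
    obtain ⟨g, _, ha, hs⟩ := embF KK KK_pair k y hy
    exact ⟨g, Equiv.ext ha, hs⟩
  letters := by
    refine ⟨{gA, gB, gC, gD}, mclosure_gen, ?_⟩
    intro x hx g hg
    obtain ⟨e, ha, hs, h1, h2⟩ := lettersF k x (by simpa using hx) g hg
    exact ⟨e, Equiv.ext ha, hs, h1, h2⟩

theorem Fin_bound (g : G) : ∃ C : ℕ, ∀ k, (lGG k).rho g ≤ C := by
  have h := closure_gen ▸ Subgroup.mem_top g
  refine Subgroup.closure_induction (G := G) (k := {gA, gB, gC, gD})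
    (p := fun g _ => ∃ C : ℕ, ∀ k, (lGG k).rho g ≤ C) ?_ ?_ ?_ ?_ h
  · intro y hy
    exact ⟨1, fun k => gen_rho k y (by simpa using hy)⟩
  · exact ⟨0, fun k => by rw [Level.rho_one]⟩
  · rintro y z _ _ ⟨C, hC⟩ ⟨D, hD⟩
    exact ⟨C + D, fun k => ((lGG k).rho_mul y z).trans (add_le_add (hC k) (hD k))⟩
  · rintro y _ ⟨C, hC⟩
    exact ⟨C, fun k => by rw [Level.rho_inv]; exact hC k⟩

theorem main_G (F : Finset G) (ε : ℝ) (hε : 0 < ε) : ∃ S : Finset G, F ⊆ S ∧
    Subgroup.closure (S : Set G) = ⊤ ∧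
    ∃ n₀ : ℕ, ∀ n ≥ n₀, (growth (S : Set G) (n + 1) : ℝ) ≤ (1 + ε) * growth (S : Set G) n := by
  have := G_infinite
  choose C hC using Fin_bound
  obtain ⟨R, hR, hR2, hF⟩ : ∃ R : ℕ, Even R ∧ 2 ≤ R ∧ ∀ g ∈ F, C g ≤ R := by
    refine ⟨2 * (F.sup C + 1), even_two_mul _, by omega, fun g hg => ?_⟩
    have := Finset.le_sup (f := C) hg
    omega
  obtain ⟨N₀, hN⟩ := abs_main bGG R hR hR2 ε hε
  obtain ⟨k, hk⟩ : ∃ k : ℕ, N₀ ≤ 2 ^ k := ⟨N₀, Nat.lt_two_pow_self.le⟩
  have hfin := (lGG k).rho_finite R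
  obtain ⟨n₀, hn⟩ := hN (VV k) (lGG k) (by rw [VV_card]; exact hk)
  refine ⟨hfin.toFinset, ?_, ?_, n₀, ?_⟩
  · intro g hg
    rw [Set.Finite.mem_toFinset]
    exact (hC g k).trans (hF g hg)
  · rw [Set.Finite.coe_toFinset, eq_top_iff, ← closure_gen]
    apply Subgroup.closure_mono
    intro x hx
    exact (gen_rho k x (by simpa using hx)).trans (by omega)
  · intro n hn'
    rw [Set.Finite.coe_toFinset]
    exact hn n hn'

theorem Fin_ball {Γ Δ : Type} [Group Γ] [Group Δ] (φ : Γ →* Δ) (S : Set Γ) (n : ℕ) :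
    wordBall (φ '' S) n = φ '' wordBall S n := by
  ext g
  constructor
  · rintro ⟨l, hl, hx, rfl⟩
    have key : ∀ l : List Δ, (∀ x ∈ l, x ∈ φ '' S ∨ x⁻¹ ∈ φ '' S) →
        ∃ l' : List Γ, l'.length = l.length ∧ (∀ x ∈ l', x ∈ S ∨ x⁻¹ ∈ S) ∧
          φ l'.prod = l.prod := by
      intro l
      induction l with
      | nil => exact fun _ => ⟨[], rfl, by simp, by simp⟩
      | cons y l ih =>
          intro h
          obtain ⟨l', h1, h2, h3⟩ := ih fun x hx => h x (List.mem_cons_of_mem _ hx)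
          rcases h y List.mem_cons_self with ⟨z, hz, hzy⟩ | ⟨z, hz, hzy⟩
          · refine ⟨z :: l', by simp [h1], ?_, by simp [h3, hzy]⟩
            intro x hx
            rcases List.mem_cons.1 hx with rfl | hx
            · exact Or.inl hz
            · exact h2 x hx
          · refine ⟨z⁻¹ :: l', by simp [h1], ?_, by simp [h3, hzy]⟩
            intro x hx
            rcases List.mem_cons.1 hx with rfl | hx
            · exact Or.inr (by simpa using hz)
            · exact h2 x hx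
    obtain ⟨l', h1, h2, h3⟩ := key l hx
    exact ⟨l'.prod, ⟨l', by omega, h2, rfl⟩, h3⟩
  · rintro ⟨_, ⟨l, hl, hx, rfl⟩, rfl⟩
    refine ⟨l.map φ, by simpa using hl, ?_, by rw [map_list_prod]⟩
    intro x hx'
    obtain ⟨y, hy, rfl⟩ := List.mem_map.1 hx'
    rcases hx y hy with h | h
    · exact Or.inl ⟨y, h, rfl⟩
    · exact Or.inr ⟨y⁻¹, h, map_inv _ _⟩

theorem Fin_growth {Γ Δ : Type} [Group Γ] [Group Δ] (φ : Γ →* Δ) (hφ : Function.Injective φ)
    (S : Set Γ) (n : ℕ) : growth (φ '' S) n = growth S n := by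
  rw [growth, growth, Fin_ball, Set.ncard_image_of_injective _ hφ]

/-- The same for subsets of the ambient group of permutations of the words. -/
theorem main (F : Finset (Equiv.Perm (List Bool))) (hF : ∀ x ∈ F, x ∈ grig) (ε : ℝ) (hε : 0 < ε) :
    ∃ S : Finset (Equiv.Perm (List Bool)), F ⊆ S ∧
      Subgroup.closure (S : Set (Equiv.Perm (List Bool))) = grig ∧
      ∃ n₀ : ℕ, ∀ n ≥ n₀, (growth (S : Set (Equiv.Perm (List Bool))) (n + 1) : ℝ) ≤
        (1 + ε) * growth (S : Set (Equiv.Perm (List Bool))) n := by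
  classical
  obtain ⟨F', hF'⟩ : ∃ F' : Finset G, F' = F.attach.image fun x => (⟨x.1, hF x.1 x.2⟩ : G) :=
    ⟨_, rfl⟩
  obtain ⟨S, h1, h2, n₀, h3⟩ := main_G F' ε hε
  refine ⟨S.map ⟨grig.subtype, grig.subtype_injective⟩, ?_, ?_, n₀, ?_⟩
  · intro x hx
    rw [Finset.mem_map]
    refine ⟨⟨x, hF x hx⟩, h1 ?_, rfl⟩
    rw [hF']
    exact Finset.mem_image.2 ⟨⟨x, hx⟩, Finset.mem_attach _ _, rfl⟩
  · rw [Finset.coe_map]
    change Subgroup.closure (grig.subtype '' (S : Set G)) = grig
    rw [← MonoidHom.map_closure, h2, ← MonoidHom.range_eq_map, Subgroup.range_subtype]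
  · intro n hn
    rw [Finset.coe_map]
    change (growth (grig.subtype '' (S : Set G)) (n + 1) : ℝ) ≤
      (1 + ε) * growth (grig.subtype '' (S : Set G)) n
    rw [Fin_growth _ grig.subtype_injective, Fin_growth _ grig.subtype_injective]
    exact h3 n hn

end Pool.Agent.H40.GG
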