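import Pool.Agent.H40.GG.KDefs

/-! # The branching subgroup K

Proofs.
comm_mod: [b,a] ∈ K by definition, bd = db, and K is normal; closure induction over q in QQ = ⟨a,d⟩
(the set of q with (q b)⁻¹ (b q) ∈ K, i.e. b q b⁻¹ q⁻¹ ∈ K, is a subgroup because K is normal: in
G ⧸ K it is the centralizer of b).
KK_pair: first ∀ y ∈ K ∃ g ∈ K, sw g = 1, s1 g false = 1, s1 g true = y.  The set of such y is a
normal subgroup: products and inverses by sw_mul, s1_mul, s1_inv; conjugation by z in G: there is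
h in G with sw h = 1 and s1 h true = z (closure induction: gA gB gA (sections gC at false, gA at
true), gD (gB at true), gB (gC at true), gC (gD at true)), and h g h⁻¹ ∈ K.  It contains
[a,b]: g = [gA gB gA, gD] has sections 1 and [gA, gB], and g ∈ K because modulo K
gA gB gA = gB commutes with gD.  Conjugation by gA exchanges the two sections.  Multiply.
KK_findex: every g in G is q * gB^e * k with q ∈ QQ, e ∈ {0,1}, k ∈ K (Subgroup.closure_induction
with left multiplication, or: in G ⧸ K the set is closed under multiplication by generators), and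
QQ is finite: the eight elements 1, a, d, ad, da, ada, dad, adad ((ad)^4 = 1: (a d)^2 = a d a d
has root action 1 and both sections gB). -/

namespace Pool.Agent.H40.GG

theorem K1_P : gA * gD * gA * gD * (gA * gD * gA * gD) = 1 := by
  have hsw : sw (gA * gD * gA * gD) = 1 := by
    simp only [sw_mul, sw_gA, sw_gD, mul_one]
    apply Equiv.ext
    intro x
    cases x <;> rfl
  have hs : ∀ x, s1 (gA * gD * gA * gD) x = gB := by
    intro x
    simp only [s1_mul, sw_mul, sw_gA, sw_gD, s1_gA, Equiv.Perm.coe_one, id, one_mul, mul_one]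
    cases x
    · have : swp false = true := rfl
      rw [this, s1_gD_false, s1_gD_true, mul_one]
    · have : swp true = false := rfl
      rw [this, s1_gD_false, s1_gD_true, one_mul]
  apply ext_dec
  · rw [sw_mul, hsw, sw_one, one_mul]
  · intro x
    rw [s1_mul, hs, hs, s1_one, gB_mul_self]

theorem K1_P2 : gA * gD * gA * gD = gD * gA * gD * gA := by
  have h := eq_inv_of_mul_eq_one_left K1_P
  rw [h]
  simp only [mul_inv_rev, inv_gA, inv_gD, mul_assoc]

theorem K1_aa (x : G) : gA * (gA * x) = x := by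
  rw [← mul_assoc, gA_mul_self, one_mul]

theorem K1_dd (x : G) : gD * (gD * x) = x := by
  rw [← mul_assoc, gD_mul_self, one_mul]

theorem K1_cases (q : G) (hq : q ∈ QQ) : q = 1 ∨ q = gA ∨ q = gD ∨ q = gA * gD ∨ q = gD * gA ∨
    q = gA * gD * gA ∨ q = gD * gA * gD ∨ q = gA * gD * gA * gD := by
  have hmul : ∀ x ∈ ({gA, gD} : Set G), ∀ y : G,
      (y = 1 ∨ y = gA ∨ y = gD ∨ y = gA * gD ∨ y = gD * gA ∨
      y = gA * gD * gA ∨ y = gD * gA * gD ∨ y = gA * gD * gA * gD) →
      (x * y = 1 ∨ x * y = gA ∨ x * y = gD ∨ x * y = gA * gD ∨ x * y = gD * gA ∨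
      x * y = gA * gD * gA ∨ x * y = gD * gA * gD ∨ x * y = gA * gD * gA * gD) := by
    rintro x (rfl | rfl) y (rfl | rfl | rfl | rfl | rfl | rfl | rfl | rfl)
    · right; left; rw [mul_one]
    · left; exact gA_mul_self
    · right; right; right; left; rfl
    · right; right; left; rw [K1_aa]
    · right; right; right; right; right; left; simp only [mul_assoc]
    · right; right; right; right; left; simp only [mul_assoc, K1_aa]
    · right; right; right; right; right; right; right; simp only [mul_assoc]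
    · right; right; right; right; right; right; left; simp only [mul_assoc, K1_aa]
    · right; right; left; rw [mul_one]
    · right; right; right; right; left; rfl
    · left; exact gD_mul_self
    · right; right; right; right; right; right; left; simp only [mul_assoc]
    · right; left; rw [K1_dd]
    · right; right; right; right; right; right; right; rw [K1_P2]; simp only [mul_assoc]
    · right; right; right; left; simp only [mul_assoc, K1_dd]
    · right; right; right; right; right; left; rw [K1_P2]; simp only [mul_assoc, K1_dd]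
  have hinv : ∀ x ∈ ({gA, gD} : Set G), x⁻¹ = x := by
    rintro x (rfl | rfl)
    · exact inv_gA
    · exact inv_gD
  refine Subgroup.closure_induction_left (G := G) (s := {gA, gD})
    (p := fun q _ => q = 1 ∨ q = gA ∨ q = gD ∨ q = gA * gD ∨ q = gD * gA ∨
    q = gA * gD * gA ∨ q = gD * gA * gD ∨ q = gA * gD * gA * gD) ?_ ?_ ?_ hq
  · left; rfl
  · intro x hx y _ hy
    exact hmul x hx y hy
  · intro x hx y _ hy
    rw [hinv x hx]
    exact hmul x hx y hy

theorem QQ_finite : (QQ : Set G).Finite := by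
  refine Set.Finite.subset (s := {1, gA, gD, gA * gD, gD * gA, gA * gD * gA, gD * gA * gD,
    gA * gD * gA * gD}) (Set.toFinite _) ?_
  intro q hq
  rcases K1_cases q hq with h | h | h | h | h | h | h | h <;> simp [h]

/-- The eight elements of QQ. -/
theorem QQ_cases (q : G) (hq : q ∈ QQ) : q = 1 ∨ q = gA ∨ q = gD ∨ q = gA * gD ∨ q = gD * gA ∨
    q = gA * gD * gA ∨ q = gD * gA * gD ∨ q = gA * gD * gA * gD := by
  exact K1_cases q hq

theorem K1_ab : Commute (QuotientGroup.mk' KK gA) (QuotientGroup.mk' KK gB) := by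
  have h : gA * gB * gA⁻¹ * gB⁻¹ ∈ KK := Subgroup.subset_normalClosure rfl
  have h2 : QuotientGroup.mk' KK (gA * gB * gA⁻¹ * gB⁻¹) = 1 :=
    (QuotientGroup.eq_one_iff _).2 h
  rw [map_mul, map_mul, map_mul, map_inv, map_inv] at h2
  have h3 := mul_inv_eq_one.1 h2
  exact mul_inv_eq_iff_eq_mul.1 h3

theorem K1_db : Commute (QuotientGroup.mk' KK gD) (QuotientGroup.mk' KK gB) := by
  change QuotientGroup.mk' KK gD * QuotientGroup.mk' KK gB =
    QuotientGroup.mk' KK gB * QuotientGroup.mk' KK gD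
  rw [← map_mul, ← map_mul, gB_gD_comm]

theorem K1_qb (q : G) (hq : q ∈ QQ) :
    Commute (QuotientGroup.mk' KK q) (QuotientGroup.mk' KK gB) := by
  refine Subgroup.closure_induction (G := G) (k := {gA, gD})
    (p := fun q _ => Commute (QuotientGroup.mk' KK q) (QuotientGroup.mk' KK gB)) ?_ ?_ ?_ ?_ hq
  · rintro y (rfl | rfl)
    · exact K1_ab
    · exact K1_db
  · rw [map_one]
    exact Commute.one_left _
  · intro y z _ _ hy hz
    rw [map_mul]
    exact hy.mul_left hz
  · intro y _ hy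
    rw [map_inv]
    exact hy.inv_left

theorem comm_mod (q : G) (hq : q ∈ QQ) : (q * gB)⁻¹ * (gB * q) ∈ KK := by
  apply QuotientGroup.eq.1
  exact K1_qb q hq

theorem K1_lift (z : G) : ∃ h : G, sw h = 1 ∧ s1 h true = z := by
  have h := closure_gen ▸ Subgroup.mem_top z
  refine Subgroup.closure_induction (G := G) (k := {gA, gB, gC, gD})
    (p := fun z _ => ∃ h : G, sw h = 1 ∧ s1 h true = z) ?_ ?_ ?_ ?_ h
  · rintro y (rfl | rfl | rfl | rfl)
    · refine ⟨gA * gC * gA, ?_, ?_⟩
      · simp only [sw_mul, sw_gA, sw_gC, mul_one]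
        apply Equiv.ext
        intro x
        cases x <;> rfl
      · simp only [s1_mul, sw_gA, sw_gC, s1_gA, one_mul, mul_one]
        exact s1_gC_false
    · exact ⟨gD, sw_gD, s1_gD_true⟩
    · exact ⟨gB, sw_gB, s1_gB_true⟩
    · exact ⟨gC, sw_gC, s1_gC_true⟩
  · exact ⟨1, sw_one, s1_one _⟩
  · rintro y z _ _ ⟨h, h1, h2⟩ ⟨k, k1, k2⟩
    refine ⟨h * k, ?_, ?_⟩
    · rw [sw_mul, h1, k1, one_mul]
    · rw [s1_mul, k1, Equiv.Perm.coe_one, id, h2, k2]
  · rintro y _ ⟨h, h1, h2⟩
    refine ⟨h⁻¹, ?_, ?_⟩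
    · rw [sw_inv, h1, inv_one]
    · rw [s1_inv, h1, inv_one, Equiv.Perm.coe_one, id, h2]

/-- The elements y with (1, y) in the image of K. -/
def K1_Y : Subgroup G where
  carrier := {y | ∃ g ∈ KK, sw g = 1 ∧ s1 g false = 1 ∧ s1 g true = y}
  one_mem' := ⟨1, Subgroup.one_mem _, sw_one, s1_one _, s1_one _⟩
  mul_mem' := by
    rintro y z ⟨g, hg, h1, h2, h3⟩ ⟨k, hk, k1, k2, k3⟩
    refine ⟨g * k, Subgroup.mul_mem _ hg hk, ?_, ?_, ?_⟩
    · rw [sw_mul, h1, k1, one_mul]
    · rw [s1_mul, k1, Equiv.Perm.coe_one, id, h2, k2, one_mul]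
    · rw [s1_mul, k1, Equiv.Perm.coe_one, id, h3, k3]
  inv_mem' := by
    rintro y ⟨g, hg, h1, h2, h3⟩
    refine ⟨g⁻¹, Subgroup.inv_mem _ hg, ?_, ?_, ?_⟩
    · rw [sw_inv, h1, inv_one]
    · rw [s1_inv, h1, inv_one, Equiv.Perm.coe_one, id, h2, inv_one]
    · rw [s1_inv, h1, inv_one, Equiv.Perm.coe_one, id, h3]

theorem K1_conj (h g : G) (h1 : sw h = 1) (g1 : sw g = 1) (x : Bool) :
    sw (h * g * h⁻¹) = 1 ∧ s1 (h * g * h⁻¹) x = s1 h x * s1 g x * (s1 h x)⁻¹ := by
  constructor
  · rw [sw_mul, sw_mul, sw_inv, h1, g1, one_mul, one_mul, inv_one]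
  · rw [s1_mul, s1_mul, s1_inv, sw_inv, h1, g1, inv_one, Equiv.Perm.coe_one]
    rfl

theorem K1_Y_normal : K1_Y.Normal := by
  constructor
  rintro y ⟨g, hg, h1, h2, h3⟩ z
  obtain ⟨h, k1, k2⟩ := K1_lift z
  refine ⟨h * g * h⁻¹, KK_normal.conj_mem g hg h, (K1_conj h g k1 h1 false).1, ?_, ?_⟩
  · rw [(K1_conj h g k1 h1 false).2, h2, mul_one, mul_inv_cancel]
  · rw [(K1_conj h g k1 h1 true).2, h3, k2]

theorem K1_X : sw (gA * gB * gA) = 1 ∧ s1 (gA * gB * gA) false = gC ∧
    s1 (gA * gB * gA) true = gA := by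
  refine ⟨?_, ?_, ?_⟩
  · simp only [sw_mul, sw_gA, sw_gB, mul_one]
    apply Equiv.ext
    intro x
    cases x <;> rfl
  · simp only [s1_mul, sw_gA, sw_gB, s1_gA, one_mul, mul_one]
    exact s1_gB_true
  · simp only [s1_mul, sw_gA, sw_gB, s1_gA, one_mul, mul_one]
    exact s1_gB_false

theorem K1_gen : gA * gB * gA⁻¹ * gB⁻¹ ∈ K1_Y := by
  obtain ⟨x1, x2, x3⟩ := K1_X
  refine ⟨gA * gB * gA * gD * (gA * gB * gA)⁻¹ * gD⁻¹, ?_, ?_, ?_, ?_⟩
  · apply (QuotientGroup.eq_one_iff _).1
    change QuotientGroup.mk' KK _ = 1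
    have hX : QuotientGroup.mk' KK (gA * gB * gA) = QuotientGroup.mk' KK gB := by
      rw [map_mul, map_mul, K1_ab.eq, mul_assoc, ← map_mul _ gA gA, gA_mul_self, map_one, mul_one]
    rw [map_mul, map_mul, map_mul, map_inv, hX, ← K1_db.eq, map_inv, mul_inv_cancel_right,
      mul_inv_cancel]
  · rw [sw_mul, (K1_conj _ gD x1 sw_gD false).1, sw_inv, sw_gD, inv_one, one_mul]
  · rw [s1_mul, sw_inv, sw_gD, inv_one, Equiv.Perm.coe_one, id, (K1_conj _ gD x1 sw_gD false).2,
      s1_inv, sw_gD, inv_one, Equiv.Perm.coe_one, id, s1_gD_false, mul_one, mul_inv_cancel,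
      inv_one, one_mul]
  · rw [s1_mul, sw_inv, sw_gD, inv_one, Equiv.Perm.coe_one, id, (K1_conj _ gD x1 sw_gD true).2,
      s1_inv, sw_gD, inv_one, Equiv.Perm.coe_one, id, s1_gD_true, x3]

theorem K1_half : KK ≤ K1_Y := by
  haveI := K1_Y_normal
  apply Subgroup.normalClosure_le_normal
  rintro x rfl
  exact K1_gen

theorem KK_pair : ∀ x ∈ KK, ∀ y ∈ KK, ∃ g ∈ KK, sw g = 1 ∧ s1 g false = x ∧ s1 g true = y := by
  intro x hx y hy
  obtain ⟨g, hg, h1, h2, h3⟩ := K1_half hx
  obtain ⟨k, hk, k1, k2, k3⟩ := K1_half hy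
  have hs : sw (gA * g * gA⁻¹) = 1 := by
    rw [sw_mul, sw_mul, sw_inv, h1, mul_one, mul_inv_cancel]
  have ht : ∀ x, s1 (gA * g * gA⁻¹) x = s1 g (swp x) := by
    intro x
    rw [inv_gA, s1_mul, s1_mul, s1_gA, s1_gA, one_mul, mul_one, sw_gA]
  refine ⟨gA * g * gA⁻¹ * k, Subgroup.mul_mem _ (KK_normal.conj_mem g hg gA) hk, ?_, ?_, ?_⟩
  · rw [sw_mul, hs, k1, one_mul]
  · rw [s1_mul, k1, Equiv.Perm.coe_one, id, ht, k2, mul_one]
    exact h3
  · rw [s1_mul, k1, Equiv.Perm.coe_one, id, ht, k3]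
    have : swp true = false := rfl
    rw [this, h2, one_mul]

theorem K1_all (g : G) : ∃ q ∈ QQ, QuotientGroup.mk' KK g = QuotientGroup.mk' KK q ∨
    QuotientGroup.mk' KK g = QuotientGroup.mk' KK q * QuotientGroup.mk' KK gB := by
  have hA : gA ∈ QQ := Subgroup.subset_closure (by simp)
  have hD : gD ∈ QQ := Subgroup.subset_closure (by simp)
  have hBB : QuotientGroup.mk' KK gB * QuotientGroup.mk' KK gB = 1 := by
    rw [← map_mul, gB_mul_self, map_one]
  have h := closure_gen ▸ Subgroup.mem_top g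
  refine Subgroup.closure_induction (G := G) (k := {gA, gB, gC, gD})
    (p := fun g _ => ∃ q ∈ QQ, QuotientGroup.mk' KK g = QuotientGroup.mk' KK q ∨
    QuotientGroup.mk' KK g = QuotientGroup.mk' KK q * QuotientGroup.mk' KK gB) ?_ ?_ ?_ ?_ h
  · rintro y (rfl | rfl | rfl | rfl)
    · exact ⟨gA, hA, Or.inl rfl⟩
    · exact ⟨1, Subgroup.one_mem _, Or.inr (by rw [map_one, one_mul])⟩
    · refine ⟨gD, hD, Or.inr ?_⟩
      rw [gC_eq, map_mul, K1_db.eq]
    · exact ⟨gD, hD, Or.inl rfl⟩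
  · exact ⟨1, Subgroup.one_mem _, Or.inl rfl⟩
  · rintro y z _ _ ⟨q, hq, h1⟩ ⟨r, hr, h2⟩
    have hc := K1_qb r hr
    refine ⟨q * r, Subgroup.mul_mem _ hq hr, ?_⟩
    rw [map_mul, map_mul]
    rcases h1 with h1 | h1 <;> rcases h2 with h2 | h2
    · left
      rw [h1, h2]
    · right
      rw [h1, h2, mul_assoc]
    · right
      rw [h1, h2, mul_assoc, mul_assoc, hc.eq]
    · left
      rw [h1, h2, hc.eq, mul_assoc, ← mul_assoc (QuotientGroup.mk' KK gB), hBB, one_mul]
  · rintro y _ ⟨q, hq, h1⟩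
    have hc := K1_qb q⁻¹ (Subgroup.inv_mem _ hq)
    refine ⟨q⁻¹, Subgroup.inv_mem _ hq, ?_⟩
    rcases h1 with h1 | h1
    · left
      rw [map_inv, h1, map_inv]
    · right
      rw [map_inv, h1, mul_inv_rev, hc.eq, map_inv, ← map_inv _ gB, inv_gB]

theorem KK_findex : KK.FiniteIndex := by
  haveI : Finite (G ⧸ KK) := by
    have hf : (Set.univ : Set (G ⧸ KK)).Finite := by
      refine Set.Finite.subset
        ((QQ_finite.image (fun q => QuotientGroup.mk' KK q)).union
        (QQ_finite.image (fun q => QuotientGroup.mk' KK q * QuotientGroup.mk' KK gB))) ?_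
      intro x _
      obtain ⟨g, rfl⟩ := QuotientGroup.mk'_surjective KK x
      obtain ⟨q, hq, h | h⟩ := K1_all g
      · left
        exact ⟨q, hq, h.symm⟩
      · right
        exact ⟨q, hq, h.symm⟩
    exact Set.finite_univ_iff.1 hf
  exact Subgroup.finiteIndex_of_finite_quotient

end Pool.Agent.H40.GG
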