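import Pool.Agent.H40.GG.K1

/-! # Parity

par g = sw (s1 g false) * sw (s1 g true) is a homomorphism to the commutative group Perm Bool
(use sw_mul, s1_mul and that sw h permutes {false, true}: Perm Bool has the two elements 1, swp);
it is trivial on gA, gD, hence on QQ, it is swp on gB, and trivial on K (commutator, normality). -/

namespace Pool.Agent.H40.GG

theorem swp_ne_one : swp ≠ 1 := by
  intro h
  have h1 : swp true = (1 : Equiv.Perm Bool) true := by rw [h]
  exact absurd h1 (by decide)

theorem perm_bool_comm (σ τ : Equiv.Perm Bool) : σ * τ = τ * σ := by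
  revert σ τ
  decide

theorem K2_four (a b c d : Equiv.Perm Bool) : a * b * (c * d) = a * c * (b * d) := by
  rw [mul_assoc, mul_assoc, ← mul_assoc b c d, perm_bool_comm b c, mul_assoc c b d]

theorem par_mul (g h : G) : par (g * h) = par g * par h := by
  unfold par
  rw [s1_mul, s1_mul, sw_mul, sw_mul]
  have hne : sw h false ≠ sw h true := by
    intro he
    exact absurd ((sw h).injective he) (by decide)
  cases h0 : sw h false with
  | false =>
    cases h1 : sw h true with
    | false => exact absurd (h0.trans h1.symm) hne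
    | true => rw [K2_four]
  | true =>
    cases h1 : sw h true with
    | false =>
      rw [K2_four, perm_bool_comm (sw (s1 g true)) (sw (s1 g false))]
    | true => exact absurd (h0.trans h1.symm) hne

theorem par_one : par 1 = 1 := by
  unfold par
  rw [s1_one, s1_one, sw_one, mul_one]

/-- The parity as a homomorphism. -/
noncomputable def K2_parH : G →* Equiv.Perm Bool := MonoidHom.mk' par par_mul

theorem K2_parH_apply (g : G) : K2_parH g = par g := rfl

theorem K2_par_gA : par gA = 1 := by
  unfold par
  rw [s1_gA, s1_gA, sw_one, mul_one]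

theorem K2_par_gD : par gD = 1 := by
  unfold par
  rw [s1_gD_false, s1_gD_true, sw_one, sw_gB, mul_one]

theorem par_QQ (q : G) (hq : q ∈ QQ) : par q = 1 := by
  have hle : QQ ≤ K2_parH.ker := by
    unfold QQ
    rw [Subgroup.closure_le]
    intro x hx
    rcases hx with rfl | hx
    · exact K2_par_gA
    · rw [Set.mem_singleton_iff] at hx
      subst hx
      exact K2_par_gD
  exact hle hq

theorem par_gB : par gB = swp := by
  unfold par
  rw [s1_gB_false, s1_gB_true, sw_gA, sw_gC, mul_one]

theorem par_KK (x : G) (hx : x ∈ KK) : par x = 1 := by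
  have hle : KK ≤ K2_parH.ker := by
    unfold KK
    apply Subgroup.normalClosure_le_normal
    intro y hy
    rw [Set.mem_singleton_iff] at hy
    subst hy
    show K2_parH (gA * gB * gA⁻¹ * gB⁻¹) = 1
    rw [map_mul, map_mul, map_mul, map_inv, map_inv,
      perm_bool_comm (K2_parH gA) (K2_parH gB), mul_assoc (K2_parH gB), mul_inv_cancel,
      mul_one, mul_inv_cancel]
  exact hle hx

theorem K2_surj (z : G) : ∃ g : G, sw g = 1 ∧ s1 g true = z := by
  have h := closure_gen ▸ Subgroup.mem_top z
  refine Subgroup.closure_induction (G := G) (k := {gA, gB, gC, gD})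
    (p := fun z _ => ∃ g : G, sw g = 1 ∧ s1 g true = z) ?_ ?_ ?_ ?_ h
  · rintro y (rfl | rfl | rfl | rfl)
    · refine ⟨gA * gB * gA, ?_, ?_⟩
      · rw [sw_mul, sw_mul, sw_gA, sw_gB, mul_one]
        decide
      · rw [s1_mul, s1_mul, sw_gA, s1_gA, s1_gA, mul_one, one_mul]
        exact s1_gB_false
    · exact ⟨gD, sw_gD, s1_gD_true⟩
    · exact ⟨gB, sw_gB, s1_gB_true⟩
    · exact ⟨gC, sw_gC, s1_gC_true⟩
  · exact ⟨1, sw_one, s1_one true⟩
  · rintro y z _ _ ⟨g, hg, hg1⟩ ⟨k, hk, hk1⟩
    refine ⟨g * k, ?_, ?_⟩
    · rw [sw_mul, hg, hk, mul_one]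
    · rw [s1_mul, hk, Equiv.Perm.one_apply, hg1, hk1]
  · rintro y _ ⟨g, hg, hg1⟩
    refine ⟨g⁻¹, ?_, ?_⟩
    · rw [sw_inv, hg, inv_one]
    · rw [s1_inv, hg, inv_one, Equiv.Perm.one_apply, hg1]

/-- G is infinite: g ↦ s1 g true maps the elements with sw g = 1 (which are not all of G) onto G. -/
theorem G_infinite : Infinite G := by
  by_contra hinf
  rw [not_infinite_iff_finite] at hinf
  let f : G → G := fun g => (K2_surj g).choose
  have hf : ∀ g, sw (f g) = 1 ∧ s1 (f g) true = g := fun g => (K2_surj g).choose_spec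
  have hinj : Function.Injective f := by
    intro x y hxy
    rw [← (hf x).2, ← (hf y).2, hxy]
  obtain ⟨g, hg⟩ := Finite.surjective_of_injective hinj gA
  have h1 := (hf g).1
  rw [hg, sw_gA] at h1
  exact swp_ne_one h1

end Pool.Agent.H40.GG
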