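import Pool.Agent.H40.GG.Sec

/-! # Definitions for the first Grigorchuk group: K, Q, parity, the length mm -/

namespace Pool.Agent.H40.GG

/-- The subgroup K: the normal closure of the commutator of a and b. -/
def KK : Subgroup G := Subgroup.normalClosure {gA * gB * gA⁻¹ * gB⁻¹}

instance KK_normal : KK.Normal := Subgroup.normalClosure_normal

/-- The (dihedral, finite) subgroup generated by a and d. -/
def QQ : Subgroup G := Subgroup.closure {gA, gD}

/-- The parity of g: product of the root actions of its two first level sections. -/
noncomputable def par (g : G) : Equiv.Perm Bool := sw (s1 g false) * sw (s1 g true)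

/-- WW n: the products q₀ b q₁ b ... b qₙ with all qᵢ in QQ. -/
def WW : ℕ → Set G
  | 0 => {g | g ∈ QQ}
  | n + 1 => {g | ∃ h ∈ WW n, ∃ q ∈ QQ, g = h * gB * q}

/-- The length of g: the least number of letters b in a word in a, b, d that represents g. -/
noncomputable def mm (g : G) : ℕ := sInf {n | g ∈ WW n}

/-- The vertices of level k. -/
def VV : ℕ → Type
  | 0 => Unit
  | k + 1 => Bool × VV k

instance VV_fintype : ∀ k, Fintype (VV k)
  | 0 => inferInstanceAs (Fintype Unit)
  | k + 1 => by
      haveI := VV_fintype k
      exact inferInstanceAs (Fintype (Bool × VV k))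

instance VV_deceq : ∀ k, DecidableEq (VV k)
  | 0 => inferInstanceAs (DecidableEq Unit)
  | k + 1 => by
      haveI := VV_deceq k
      exact inferInstanceAs (DecidableEq (Bool × VV k))

instance VV_nonempty : ∀ k, Nonempty (VV k)
  | 0 => ⟨()⟩
  | k + 1 => by
      have := VV_nonempty k
      exact inferInstanceAs (Nonempty (Bool × VV k))

/-- The action of g on level k. -/
noncomputable def actF : (k : ℕ) → G → VV k → VV k
  | 0, _, v => v
  | k + 1, g, v => ((sw g v.1, actF k (s1 g v.1) v.2) : Bool × VV k)

/-- The section of g at the vertex v of level k. -/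
noncomputable def secF : (k : ℕ) → G → VV k → G
  | 0, g, _ => g
  | k + 1, g, v => secF k (s1 g v.1) v.2

theorem VV_card (k : ℕ) : Fintype.card (VV k) = 2 ^ k := by
  induction k with
  | zero => rfl
  | succ k ih =>
      have : Fintype.card (VV (k + 1)) = Fintype.card (Bool × VV k) := rfl
      rw [this, Fintype.card_prod, ih, Fintype.card_bool, pow_succ, mul_comm]

end Pool.Agent.H40.GG
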