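import Pool.Agent.H40.GG.Base

/-! # Root action and first level sections of the elements of the first Grigorchuk group -/

namespace Pool.Agent.H40.GG

/-- The first Grigorchuk group as a type. -/
abbrev G : Type := ↥grig

theorem a_mem : a ∈ grig := Subgroup.subset_closure (by simp)
theorem b_mem : b ∈ grig := Subgroup.subset_closure (by simp)
theorem c_mem : c ∈ grig := Subgroup.subset_closure (by simp)
theorem d_mem : d ∈ grig := Subgroup.subset_closure (by simp)

def gA : G := ⟨a, a_mem⟩
def gB : G := ⟨b, b_mem⟩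
def gC : G := ⟨c, c_mem⟩
def gD : G := ⟨d, d_mem⟩

/-- The swap of the two letters. -/
def swp : Equiv.Perm Bool := Equiv.boolNot

theorem closure_gen : Subgroup.closure ({gA, gB, gC, gD} : Set G) = ⊤ := by
  rw [eq_top_iff]
  rintro ⟨x, hx⟩ -
  refine Subgroup.closure_induction (G := Equiv.Perm (List Bool)) (k := {a, b, c, d})
    (p := fun x hx => (⟨x, hx⟩ : G) ∈ Subgroup.closure ({gA, gB, gC, gD} : Set G))
    ?_ ?_ ?_ ?_ hx
  · rintro y (rfl | rfl | rfl | rfl)
    · exact Subgroup.subset_closure (by simp [gA])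
    · exact Subgroup.subset_closure (by simp [gB])
    · exact Subgroup.subset_closure (by simp [gC])
    · exact Subgroup.subset_closure (by simp [gD])
  · exact Subgroup.one_mem _
  · intro y z hy hz h1 h2
    exact Subgroup.mul_mem _ h1 h2
  · intro y hy h1
    exact Subgroup.inv_mem _ h1

theorem gA_mul_self : gA * gA = 1 := by
  apply Subtype.ext; apply Equiv.ext; intro w
  exact aFun_aFun w
theorem gB_mul_self : gB * gB = 1 := by
  apply Subtype.ext; apply Equiv.ext; intro w
  exact (bcd_invol w).1
theorem gC_mul_self : gC * gC = 1 := by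
  apply Subtype.ext; apply Equiv.ext; intro w
  exact (bcd_invol w).2.1
theorem gD_mul_self : gD * gD = 1 := by
  apply Subtype.ext; apply Equiv.ext; intro w
  exact (bcd_invol w).2.2

theorem bc_fun : ∀ w : List Bool, bFun (cFun w) = dFun w ∧ cFun (dFun w) = bFun w ∧
    dFun (bFun w) = cFun w
  | [] => by simp [bFun, cFun, dFun]
  | false :: w => by simp [bFun, cFun, dFun, aFun_aFun]
  | true :: w => by
      have h := bc_fun w
      simp [bFun, cFun, dFun, h.1, h.2.1, h.2.2]

theorem gB_mul_gC : gB * gC = gD := by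
  apply Subtype.ext; apply Equiv.ext; intro w
  exact (bc_fun w).1
theorem gC_mul_gD : gC * gD = gB := by
  apply Subtype.ext; apply Equiv.ext; intro w
  exact (bc_fun w).2.1
theorem gD_mul_gB : gD * gB = gC := by
  apply Subtype.ext; apply Equiv.ext; intro w
  exact (bc_fun w).2.2

/-- Every element has a root action and sections. -/
theorem exists_dec (g : G) : ∃ (σ : Equiv.Perm Bool) (h : Bool → G), ∀ x w,
    (g : Equiv.Perm (List Bool)) (x :: w) = σ x :: (h x : Equiv.Perm (List Bool)) w := by
  have h := closure_gen ▸ Subgroup.mem_top g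
  refine Subgroup.closure_induction (G := G) (k := {gA, gB, gC, gD})
    (p := fun g _ => ∃ (σ : Equiv.Perm Bool) (h : Bool → G), ∀ x w,
      (g : Equiv.Perm (List Bool)) (x :: w) = σ x :: (h x : Equiv.Perm (List Bool)) w)
    ?_ ?_ ?_ ?_ h
  · rintro y (rfl | rfl | rfl | rfl)
    · exact ⟨swp, fun _ => 1, fun x w => rfl⟩
    · refine ⟨1, fun x => if x then gC else gA, fun x w => ?_⟩
      cases x <;> rfl
    · refine ⟨1, fun x => if x then gD else gA, fun x w => ?_⟩
      cases x <;> rfl
    · refine ⟨1, fun x => if x then gB else 1, fun x w => ?_⟩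
      cases x <;> rfl
  · exact ⟨1, fun _ => 1, fun x w => rfl⟩
  · rintro y z _ _ ⟨σ, h, hy⟩ ⟨τ, k, hz⟩
    refine ⟨σ * τ, fun x => h (τ x) * k x, fun x w => ?_⟩
    simp only [Subgroup.coe_mul, Equiv.Perm.coe_mul, Function.comp_apply, hz, hy]
  · rintro y _ ⟨σ, h, hy⟩
    refine ⟨σ⁻¹, fun x => (h (σ⁻¹ x))⁻¹, fun x w => ?_⟩
    simp only [Subgroup.coe_inv]
    rw [Equiv.Perm.inv_eq_iff_eq, hy]
    simp

/-- The action of g on the first level. -/
noncomputable def sw (g : G) : Equiv.Perm Bool := (exists_dec g).choose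
/-- The section of g at the vertex x of the first level. -/
noncomputable def s1 (g : G) : Bool → G := (exists_dec g).choose_spec.choose

theorem app (g : G) (x : Bool) (w : List Bool) : (g : Equiv.Perm (List Bool)) (x :: w) =
    sw g x :: (s1 g x : Equiv.Perm (List Bool)) w :=
  (exists_dec g).choose_spec.choose_spec x w

/-- The decomposition is unique. -/
theorem dec_unique (g : G) (σ : Equiv.Perm Bool) (h : Bool → G)
    (H : ∀ x w, (g : Equiv.Perm (List Bool)) (x :: w) =
      σ x :: (h x : Equiv.Perm (List Bool)) w) : sw g = σ ∧ ∀ x, s1 g x = h x := by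
  constructor
  · apply Equiv.ext
    intro x
    have := (app g x []).symm.trans (H x [])
    exact (List.cons.inj this).1
  · intro x
    apply Subtype.ext; apply Equiv.ext
    intro w
    have := (app g x w).symm.trans (H x w)
    exact (List.cons.inj this).2

theorem app_nil (g : G) : (g : Equiv.Perm (List Bool)) [] = [] := by
  by_contra hne
  obtain ⟨x, w, hw⟩ := List.exists_cons_of_ne_nil hne
  have h1 := app g⁻¹ x w
  have h2 : ((g⁻¹ : G) : Equiv.Perm (List Bool)) ((g : Equiv.Perm (List Bool)) []) = [] := by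
    rw [Subgroup.coe_inv]
    exact Equiv.symm_apply_apply _ _
  rw [← hw, h2] at h1
  exact absurd h1 (by simp)

theorem sw_mul (g h : G) : sw (g * h) = sw g * sw h :=
  (dec_unique (g * h) (sw g * sw h) (fun x => s1 g (sw h x) * s1 h x) (fun x w => by
    simp only [Subgroup.coe_mul, Equiv.Perm.coe_mul, Function.comp_apply, app])).1
theorem s1_mul (g h : G) (x : Bool) : s1 (g * h) x = s1 g (sw h x) * s1 h x :=
  (dec_unique (g * h) (sw g * sw h) (fun x => s1 g (sw h x) * s1 h x) (fun x w => by
    simp only [Subgroup.coe_mul, Equiv.Perm.coe_mul, Function.comp_apply, app])).2 x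
theorem sw_one : sw 1 = 1 := (dec_unique 1 1 (fun _ => 1) (fun _ _ => rfl)).1
theorem s1_one (x : Bool) : s1 1 x = 1 := (dec_unique 1 1 (fun _ => 1) (fun _ _ => rfl)).2 x
theorem sw_inv (g : G) : sw g⁻¹ = (sw g)⁻¹ := by
  have := sw_mul g g⁻¹
  rw [mul_inv_cancel, sw_one] at this
  exact (inv_eq_of_mul_eq_one_right this.symm).symm
theorem s1_inv (g : G) (x : Bool) : s1 g⁻¹ x = (s1 g ((sw g)⁻¹ x))⁻¹ := by
  have := s1_mul g g⁻¹ x
  rw [mul_inv_cancel, s1_one, sw_inv] at this
  exact (inv_eq_of_mul_eq_one_right this.symm).symm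

/-- An element is determined by its root action and its sections. -/
theorem ext_dec (g h : G) (hs : sw g = sw h) (h1 : ∀ x, s1 g x = s1 h x) : g = h := by
  apply Subtype.ext; apply Equiv.ext
  intro w
  cases w with
  | nil => rw [app_nil, app_nil]
  | cons x w => rw [app, app, hs, h1]

theorem sw_gA : sw gA = swp := (dec_unique gA swp (fun _ => 1) (fun _ _ => rfl)).1
theorem s1_gA (x : Bool) : s1 gA x = 1 := (dec_unique gA swp (fun _ => 1) (fun _ _ => rfl)).2 x
theorem dec_gB : sw gB = 1 ∧ ∀ x, s1 gB x = if x then gC else gA :=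
  dec_unique gB 1 (fun x => if x then gC else gA) (fun x w => by cases x <;> rfl)
theorem dec_gC : sw gC = 1 ∧ ∀ x, s1 gC x = if x then gD else gA :=
  dec_unique gC 1 (fun x => if x then gD else gA) (fun x w => by cases x <;> rfl)
theorem dec_gD : sw gD = 1 ∧ ∀ x, s1 gD x = if x then gB else 1 :=
  dec_unique gD 1 (fun x => if x then gB else 1) (fun x w => by cases x <;> rfl)
theorem sw_gB : sw gB = 1 := dec_gB.1
theorem sw_gC : sw gC = 1 := dec_gC.1
theorem sw_gD : sw gD = 1 := dec_gD.1
theorem s1_gB_false : s1 gB false = gA := by simp [dec_gB.2]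
theorem s1_gB_true : s1 gB true = gC := by simp [dec_gB.2]
theorem s1_gC_false : s1 gC false = gA := by simp [dec_gC.2]
theorem s1_gC_true : s1 gC true = gD := by simp [dec_gC.2]
theorem s1_gD_false : s1 gD false = 1 := by simp [dec_gD.2]
theorem s1_gD_true : s1 gD true = gB := by simp [dec_gD.2]

theorem inv_gA : gA⁻¹ = gA := inv_eq_of_mul_eq_one_right gA_mul_self
theorem inv_gB : gB⁻¹ = gB := inv_eq_of_mul_eq_one_right gB_mul_self
theorem inv_gC : gC⁻¹ = gC := inv_eq_of_mul_eq_one_right gC_mul_self
theorem inv_gD : gD⁻¹ = gD := inv_eq_of_mul_eq_one_right gD_mul_self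
theorem gB_mul_gD : gB * gD = gC := by
  rw [← gB_mul_gC, ← mul_assoc, gB_mul_self, one_mul]
theorem gC_eq : gC = gB * gD := gB_mul_gD.symm
theorem gB_gD_comm : gB * gD = gD * gB := by rw [gB_mul_gD, gD_mul_gB]

/-- The monoid generated by the four generators is everything. -/
theorem mclosure_gen : Submonoid.closure ({gA, gB, gC, gD} : Set G) = ⊤ := by
  rw [eq_top_iff]
  intro g _
  have h := closure_gen ▸ Subgroup.mem_top g
  refine Subgroup.closure_induction (G := G) (k := {gA, gB, gC, gD})
    (p := fun g _ => g ∈ Submonoid.closure ({gA, gB, gC, gD} : Set G)) ?_ ?_ ?_ ?_ h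
  · intro y hy
    exact Submonoid.subset_closure hy
  · exact Submonoid.one_mem _
  · intro y z _ _ h1 h2
    exact Submonoid.mul_mem _ h1 h2
  · intro y _ h1
    refine Submonoid.closure_induction (M := G) (s := {gA, gB, gC, gD})
      (motive := fun y _ => y⁻¹ ∈ Submonoid.closure ({gA, gB, gC, gD} : Set G)) ?_ ?_ ?_ h1
    · rintro z (rfl | rfl | rfl | rfl)
      · rw [inv_gA]; exact Submonoid.subset_closure (by simp)
      · rw [inv_gB]; exact Submonoid.subset_closure (by simp)
      · rw [inv_gC]; exact Submonoid.subset_closure (by simp)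
      · rw [inv_gD]; exact Submonoid.subset_closure (by simp)
    · rw [inv_one]; exact Submonoid.one_mem _
    · intro z w _ _ hz hw
      rw [mul_inv_rev]
      exact Submonoid.mul_mem _ hw hz

end Pool.Agent.H40.GG
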