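import Pool.Agent.H40.GG.K1

/-! # Weighted length and contraction

Letters: Fin 4 (0 = a, 1 = b, 2 = c, 3 = d) with weights 5, 6, 4, 2.  LL g is the least weight of a
word that represents g.
contraction: LL (s1 g false) + LL (s1 g true) ≤ (6/7) (LL g + 5).
Proof: (1) every word can be changed, without changing the product and without increasing the
weight, into an alternating one (no two neighbours are both a, no two neighbours are both in
{b, c, d}): a a = 1, x x = 1, and the product of two different ones of b, c, d is the third, whose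
weight is at most the sum of the two weights (6 ≤ 4 + 2).  Induction on the word (cons).
(2) for an alternating word l: (number of letters in {b,c,d}) ≤ (number of letters a) + 1, so
sum over the letters x of l in {b,c,d} of (w x + 5) ≤ wt l + 5.
(3) for any word l with product g: LL (s1 g false) + LL (s1 g true) ≤ sum of phi x, where
phi a = 0, phi b = 9 (sections a, c), phi c = 7 (sections a, d), phi d = 6 (sections 1, b)
(induction on l, s1_mul; sw g permutes {false, true}).
(4) 7 phi x ≤ 6 (w x + 5) for x in {b, c, d}: 63 ≤ 66, 49 ≤ 54, 42 ≤ 42. -/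

namespace Pool.Agent.H40.GG

/-- The weights of the letters a, b, c, d. -/
def wt : Fin 4 → ℕ := ![5, 6, 4, 2]
/-- The letters. -/
def lt : Fin 4 → G := ![gA, gB, gC, gD]

/-- The weighted length. -/
noncomputable def LL (g : G) : ℕ := sInf {n | ∃ l : List (Fin 4), (l.map lt).prod = g ∧
  (l.map wt).sum = n}

theorem Sub1_word (g : G) : ∃ l : List (Fin 4), (l.map lt).prod = g := by
  have h : g ∈ Submonoid.closure ({gA, gB, gC, gD} : Set G) := mclosure_gen ▸ Submonoid.mem_top g
  refine Submonoid.closure_induction (M := G) (s := {gA, gB, gC, gD})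
    (motive := fun y _ => ∃ l : List (Fin 4), (l.map lt).prod = y) ?_ ?_ ?_ h
  · rintro z (rfl | rfl | rfl | rfl)
    · exact ⟨[0], by simp [lt]⟩
    · exact ⟨[1], by simp [lt]⟩
    · exact ⟨[2], by simp [lt]⟩
    · exact ⟨[3], by simp [lt]⟩
  · exact ⟨[], rfl⟩
  · rintro x y _ _ ⟨l, rfl⟩ ⟨m, rfl⟩
    exact ⟨l ++ m, by simp⟩

theorem LL_spec (g : G) : ∃ l : List (Fin 4), (l.map lt).prod = g ∧ (l.map wt).sum = LL g := by
  have hne : {n | ∃ l : List (Fin 4), (l.map lt).prod = g ∧ (l.map wt).sum = n}.Nonempty := by
    obtain ⟨l, hl⟩ := Sub1_word g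
    exact ⟨_, l, hl, rfl⟩
  exact Nat.sInf_mem hne

theorem LL_le (l : List (Fin 4)) : LL (l.map lt).prod ≤ (l.map wt).sum := by
  exact Nat.sInf_le ⟨l, rfl, rfl⟩

theorem LL_mul (g h : G) : LL (g * h) ≤ LL g + LL h := by
  obtain ⟨l, hl, hl'⟩ := LL_spec g
  obtain ⟨m, hm, hm'⟩ := LL_spec h
  have := LL_le (l ++ m)
  rw [List.map_append, List.prod_append, hl, hm, List.map_append, List.sum_append, hl', hm'] at this
  exact this

/-- Alternating words. -/
def Sub1_alt : List (Fin 4) → Prop
  | [] => True
  | [_] => True
  | x :: y :: l => ((x = 0) ≠ (y = 0)) ∧ Sub1_alt (y :: l)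

theorem Sub1_alt_tail (x : Fin 4) (l : List (Fin 4)) (h : Sub1_alt (x :: l)) : Sub1_alt l := by
  cases l with
  | nil => trivial
  | cons y l => exact h.2

theorem Sub1_alt_cons (x y : Fin 4) (l : List (Fin 4)) (h : Sub1_alt (x :: l))
    (hxy : (x = 0) = (y = 0)) : Sub1_alt (y :: l) := by
  cases l with
  | nil => trivial
  | cons z l => exact ⟨hxy ▸ h.1, h.2⟩

theorem Sub1_two (x y : Fin 4) (h : (x = 0) = (y = 0)) :
    (lt x * lt y = 1) ∨ ∃ z : Fin 4, (x = 0) = (z = 0) ∧ lt x * lt y = lt z ∧
      wt z ≤ wt x + wt y := by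
  have cb : gC * gB = gD := by rw [← gB_mul_gD, mul_assoc, gD_mul_gB, ← gB_mul_gD, ← mul_assoc,
    gB_mul_self, one_mul]
  have dc : gD * gC = gB := by rw [← gD_mul_gB, ← mul_assoc, gD_mul_self, one_mul]
  have db : gD * gB = gC := gD_mul_gB
  fin_cases x <;> fin_cases y
  · left; exact gA_mul_self
  · simp at h
  · simp at h
  · simp at h
  · simp at h
  · left; exact gB_mul_self
  · right; exact ⟨3, by simp, gB_mul_gC, by decide⟩
  · right; exact ⟨2, by simp, gB_mul_gD, by decide⟩
  · simp at h
  · right; exact ⟨3, by simp, cb, by decide⟩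
  · left; exact gC_mul_self
  · right; exact ⟨1, by simp, gC_mul_gD, by decide⟩
  · simp at h
  · right; exact ⟨2, by simp, db, by decide⟩
  · right; exact ⟨1, by simp, dc, by decide⟩
  · left; exact gD_mul_self

theorem Sub1_red (l : List (Fin 4)) : ∃ m : List (Fin 4), Sub1_alt m ∧
    (m.map lt).prod = (l.map lt).prod ∧ (m.map wt).sum ≤ (l.map wt).sum := by
  induction l with
  | nil => exact ⟨[], trivial, rfl, le_rfl⟩
  | cons x l ih =>
      obtain ⟨m, hm, hp, hw⟩ := ih
      cases m with
      | nil =>
          refine ⟨[x], trivial, ?_, ?_⟩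
          · simp only [List.map_cons, List.map_nil, List.prod_cons, List.prod_nil] at hp ⊢
            rw [← hp]
          · simp only [List.map_cons, List.map_nil, List.sum_cons, List.sum_nil] at hw ⊢
            omega
      | cons y m =>
          by_cases hxy : (x = 0) = (y = 0)
          · rcases Sub1_two x y hxy with h1 | ⟨z, hz, h1, h2⟩
            · refine ⟨m, Sub1_alt_tail y m hm, ?_, ?_⟩
              · simp only [List.map_cons, List.prod_cons] at hp ⊢
                rw [← hp, ← mul_assoc, h1, one_mul]
              · simp only [List.map_cons, List.sum_cons] at hw ⊢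
                omega
            · refine ⟨z :: m, Sub1_alt_cons y z m hm (hxy.symm.trans hz), ?_, ?_⟩
              · simp only [List.map_cons, List.prod_cons] at hp ⊢
                rw [← hp, ← mul_assoc, h1]
              · simp only [List.map_cons, List.sum_cons] at hw ⊢
                omega
          · refine ⟨x :: y :: m, ⟨hxy, hm⟩, ?_, ?_⟩
            · simp only [List.map_cons, List.prod_cons] at hp ⊢
              rw [hp]
            · simp only [List.map_cons, List.sum_cons] at hw ⊢
              omega

/-- The contribution of a letter. -/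
def Sub1_psi (x : Fin 4) : ℕ := if x = 0 then 0 else wt x + 5

theorem Sub1_psi_sum (l : List (Fin 4)) (h : Sub1_alt l) :
    (l.map Sub1_psi).sum ≤ (l.map wt).sum + 5 ∧
    (∀ y m, l = y :: m → y = 0 → (l.map Sub1_psi).sum ≤ (l.map wt).sum) := by
  induction l with
  | nil => exact ⟨by simp, fun y m h => absurd h (by simp)⟩
  | cons x l ih =>
      obtain ⟨ih1, ih2⟩ := ih (Sub1_alt_tail x l h)
      have key : x = 0 → ((x :: l).map Sub1_psi).sum ≤ ((x :: l).map wt).sum := by
        rintro rfl
        simp only [List.map_cons, List.sum_cons]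
        have e1 : Sub1_psi 0 = 0 := rfl
        have e2 : wt 0 = 5 := rfl
        omega
      refine ⟨?_, ?_⟩
      · by_cases hx : x = 0
        · exact (key hx).trans (Nat.le_add_right _ _)
        · have e1 : Sub1_psi x = wt x + 5 := by simp [Sub1_psi, hx]
          have h2 : (l.map Sub1_psi).sum ≤ (l.map wt).sum := by
            cases l with
            | nil => simp
            | cons y m =>
                refine ih2 y m rfl ?_
                have := h.1
                by_contra hy
                exact this (by simp [hx, hy])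
          simp only [List.map_cons, List.sum_cons]
          omega
      · intro y m hl hy
        have : x = y := (List.cons.inj hl).1
        exact key (this.trans hy)

/-- The contribution of a letter to the lengths of the sections. -/
def Sub1_phi : Fin 4 → ℕ := ![0, 9, 7, 6]

theorem Sub1_phi_psi (x : Fin 4) : 7 * Sub1_phi x ≤ 6 * Sub1_psi x := by
  revert x; decide

theorem Sub1_LL_one : LL 1 = 0 := by
  have := LL_le []
  simpa using this

theorem Sub1_LL_lt (x : Fin 4) : LL (lt x) ≤ wt x := by
  have := LL_le [x]
  simpa using this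

theorem Sub1_LL_letter (x : Fin 4) :
    LL (s1 (lt x) false) + LL (s1 (lt x) true) ≤ Sub1_phi x := by
  have hA : LL gA ≤ 5 := Sub1_LL_lt 0
  have hB : LL gB ≤ 6 := Sub1_LL_lt 1
  have hC : LL gC ≤ 4 := Sub1_LL_lt 2
  have hD : LL gD ≤ 2 := Sub1_LL_lt 3
  fin_cases x
  · change LL (s1 gA false) + LL (s1 gA true) ≤ 0
    rw [s1_gA, s1_gA, Sub1_LL_one]
  · change LL (s1 gB false) + LL (s1 gB true) ≤ 9
    rw [s1_gB_false, s1_gB_true]; omega
  · change LL (s1 gC false) + LL (s1 gC true) ≤ 7
    rw [s1_gC_false, s1_gC_true]; omega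
  · change LL (s1 gD false) + LL (s1 gD true) ≤ 6
    rw [s1_gD_false, s1_gD_true, Sub1_LL_one]; omega

theorem Sub1_sum (f : Bool → ℕ) (σ : Equiv.Perm Bool) :
    f (σ false) + f (σ true) = f false + f true := by
  have h := Equiv.sum_comp σ f
  simp only [Fintype.sum_bool] at h
  omega

theorem Sub1_sec (l : List (Fin 4)) :
    LL (s1 (l.map lt).prod false) + LL (s1 (l.map lt).prod true) ≤ (l.map Sub1_phi).sum := by
  induction l with
  | nil => simp [s1_one, Sub1_LL_one]
  | cons x l ih =>
      simp only [List.map_cons, List.prod_cons, List.sum_cons]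
      rw [s1_mul, s1_mul]
      have h1 := LL_mul (s1 (lt x) (sw (l.map lt).prod false)) (s1 (l.map lt).prod false)
      have h2 := LL_mul (s1 (lt x) (sw (l.map lt).prod true)) (s1 (l.map lt).prod true)
      have h3 := Sub1_LL_letter x
      have h4 := Sub1_sum (fun v => LL (s1 (lt x) v)) (sw (l.map lt).prod)
      omega

theorem LL_contr (g : G) : 7 * (LL (s1 g false) + LL (s1 g true)) ≤ 6 * (LL g + 5) := by
  obtain ⟨l, hl, hw⟩ := LL_spec g
  obtain ⟨m, hm, hp, hmw⟩ := Sub1_red l
  have h1 := Sub1_sec m
  rw [hp, hl] at h1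
  have h2 := (Sub1_psi_sum m hm).1
  have h3 : 7 * (m.map Sub1_phi).sum ≤ 6 * (m.map Sub1_psi).sum := by
    clear h1 h2 hm hp hmw
    induction m with
    | nil => simp
    | cons x m ih =>
        simp only [List.map_cons, List.sum_cons]
        have := Sub1_phi_psi x
        omega
  omega

theorem Sub1_fin (n : ℕ) : ∃ s : Finset G, 3 * s.card + 1 ≤ 4 ^ (n + 1) ∧
    ∀ l : List (Fin 4), l.length ≤ n → (l.map lt).prod ∈ s := by
  classical
  induction n with
  | zero =>
      refine ⟨{1}, by simp, ?_⟩
      intro l hl
      have : l = [] := List.length_eq_zero_iff.mp (Nat.le_zero.mp hl)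
      subst this
      simp
  | succ n ih =>
      obtain ⟨s, hs, hl⟩ := ih
      refine ⟨insert 1 (Finset.univ.biUnion fun x : Fin 4 => s.image fun g => lt x * g), ?_, ?_⟩
      · have h1 : (Finset.univ.biUnion fun x : Fin 4 => s.image fun g => lt x * g).card ≤
            4 * s.card := by
          refine Finset.card_biUnion_le.trans ?_
          calc ∑ x : Fin 4, (s.image fun g => lt x * g).card ≤ ∑ _x : Fin 4, s.card :=
                Finset.sum_le_sum fun x _ => Finset.card_image_le
            _ = 4 * s.card := by simp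
        have h2 := Finset.card_insert_le (1 : G)
          (Finset.univ.biUnion fun x : Fin 4 => s.image fun g => lt x * g)
        rw [pow_succ]
        omega
      · intro l hlen
        cases l with
        | nil => simp
        | cons x l =>
            refine Finset.mem_insert_of_mem (Finset.mem_biUnion.mpr ⟨x, Finset.mem_univ _, ?_⟩)
            simp only [List.map_cons, List.prod_cons]
            refine Finset.mem_image.mpr ⟨_, hl l ?_, rfl⟩
            simpa using hlen

theorem Sub1_len (l : List (Fin 4)) : l.length ≤ (l.map wt).sum := by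
  induction l with
  | nil => simp
  | cons x l ih =>
      have : 1 ≤ wt x := by revert x; decide
      simp only [List.length_cons, List.map_cons, List.sum_cons]
      omega

/-- The balls of LL are finite, of exponential size. -/
theorem LL_ball (r : ℕ) : {g : G | LL g ≤ r}.Finite ∧
    ({g : G | LL g ≤ r} : Set G).ncard ≤ 4 ^ (r + 1) := by
  obtain ⟨s, hs, hl⟩ := Sub1_fin r
  have hsub : {g : G | LL g ≤ r} ⊆ (s : Set G) := by
    intro g hg
    obtain ⟨l, hlg, hw⟩ := LL_spec g
    have := hl l ((Sub1_len l).trans (hw.le.trans hg))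
    rw [hlg] at this
    exact this
  refine ⟨s.finite_toSet.subset hsub, ?_⟩
  have h1 := Set.ncard_le_ncard hsub s.finite_toSet
  rw [Set.ncard_coe_finset] at h1
  omega

end Pool.Agent.H40.GG
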