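import Pool.Agent.H40.GG.CntU

/-! # Zero defect, part 1: elements with all sections in K

even_peel: induction on t / 2; since rho g ≥ t ≥ 2 and all m (sec g v) are even, some section has
m ≥ 2; split off a pair there (B.pair, emb with 1 at the other vertices).
even_ball: let q ∈ {2, 4, ..., R} with rho g - q = R i.  Split off e of length q on the right
(even_peel), the rest g'' = g e⁻¹ has rho = R i: if i = 0, take u = 1, w = g (so i = 0); if i ≥ 1 split
off successively i - 1 elements of length R; what remains has length R, so g'' is a product of i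
elements of the ball. -/

namespace Pool.Agent.H40.GG

variable {Γ : Type} [Group Γ] {B : Base Γ} {V : Type} [Fintype V]

private theorem ZD1_rho_even (L : Level Γ B V) (g : Γ) (hg : ∀ v, L.sec g v ∈ B.K) :
    Even (L.rho g) := by
  unfold Level.rho
  exact Finset.even_sum _ (fun v _ => B.even _ (hg v))

private theorem ZD1_sec (L : Level Γ B V) (g e : Γ) (he : L.act e = 1) (v : V) :
    L.sec (g * e⁻¹) v = L.sec g v * (L.sec e v)⁻¹ := by
  have h := L.sec_mul_inv g e v
  rw [he] at h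
  exact h

private theorem ZD1_step (L : Level Γ B V) (g : Γ) (hg : ∀ v, L.sec g v ∈ B.K)
    (h2 : 1 ≤ L.rho g) : ∃ e, L.act e = 1 ∧ (∀ v, L.sec e v ∈ B.K) ∧ L.rho e ≤ 2 ∧
      L.rho (g * e⁻¹) + 2 = L.rho g := by
  classical
  have hex : ∃ v₀, 2 ≤ B.m (L.sec g v₀) := by
    by_contra hcon
    push Not at hcon
    have h0 : L.rho g = 0 := by
      unfold Level.rho
      refine Finset.sum_eq_zero fun v _ => ?_
      obtain ⟨k, hk⟩ := B.even _ (hg v)
      have := hcon v
      omega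
    omega
  obtain ⟨v₀, hv₀⟩ := hex
  obtain ⟨y, hyK, hy2, hy⟩ := B.pair _ hv₀
  have hupd : ∀ v, Function.update (fun _ : V => (1 : Γ)) v₀ y v ∈ B.K := by
    intro v
    by_cases hv : v = v₀
    · subst hv
      rw [Function.update_self]
      exact hyK
    · rw [Function.update_of_ne hv]
      exact B.K.one_mem
  obtain ⟨e, he1, he2⟩ := L.emb _ hupd
  refine ⟨e, he1, fun v => by rw [he2 v]; exact hupd v, ?_, ?_⟩
  · unfold Level.rho
    rw [← Finset.add_sum_erase _ _ (Finset.mem_univ v₀), he2 v₀, Function.update_self]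
    have : ∑ v ∈ Finset.univ.erase v₀, B.m (L.sec e v) = 0 := by
      refine Finset.sum_eq_zero fun v hv => ?_
      rw [he2 v, Function.update_of_ne (Finset.ne_of_mem_erase hv), B.m_one]
    omega
  · rw [L.rho_mul_inv]
    unfold Level.rho
    rw [← Finset.add_sum_erase _ _ (Finset.mem_univ v₀),
      ← Finset.add_sum_erase Finset.univ (fun v => B.m (L.sec g v)) (Finset.mem_univ v₀),
      he2 v₀, Function.update_self]
    have : ∑ v ∈ Finset.univ.erase v₀, B.m (L.sec g v * (L.sec e v)⁻¹) =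
        ∑ v ∈ Finset.univ.erase v₀, B.m (L.sec g v) := by
      refine Finset.sum_congr rfl fun v hv => ?_
      rw [he2 v, Function.update_of_ne (Finset.ne_of_mem_erase hv), inv_one, mul_one]
    omega

theorem even_peel (L : Level Γ B V) (g : Γ) (hg : ∀ v, L.sec g v ∈ B.K) (t : ℕ) (ht : Even t)
    (htg : t ≤ L.rho g) : ∃ e, L.act e = 1 ∧ (∀ v, L.sec e v ∈ B.K) ∧ L.rho e = t ∧
      L.rho (g * e⁻¹) + t = L.rho g := by
  obtain ⟨k, rfl⟩ := ht
  induction k generalizing g with
  | zero =>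
      refine ⟨1, map_one _, fun v => ?_, ?_, ?_⟩
      · rw [L.sec_one]
        exact B.K.one_mem
      · rw [L.rho_one]
      · rw [inv_one, mul_one]
        simp
  | succ k ih =>
      obtain ⟨e₁, h1, h2, h3, h4⟩ := ZD1_step L g hg (by omega)
      have hg1 : ∀ v, L.sec (g * e₁⁻¹) v ∈ B.K := by
        intro v
        rw [ZD1_sec L g e₁ h1]
        exact B.K.mul_mem (hg v) (B.K.inv_mem (h2 v))
      obtain ⟨e₂, k1, k2, k3, k4⟩ := ih (g * e₁⁻¹) hg1 (by omega)
      have hge : g * (e₂ * e₁)⁻¹ = g * e₁⁻¹ * e₂⁻¹ := by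
        rw [mul_inv_rev, mul_assoc]
      refine ⟨e₂ * e₁, ?_, fun v => ?_, ?_, ?_⟩
      · rw [map_mul, h1, k1, one_mul]
      · rw [L.sec_mul, h1]
        exact B.K.mul_mem (k2 v) (h2 v)
      · have h5 := L.rho_mul e₂ e₁
        have h6 := L.rho_mul (g * (e₂ * e₁)⁻¹) (e₂ * e₁)
        rw [inv_mul_cancel_right, hge] at h6
        omega
      · rw [hge]
        omega

private theorem ZD1_blocks (L : Level Γ B V) (R : ℕ) (hR : Even R) (i : ℕ) :
    ∀ (g : Γ), (∀ v, L.sec g v ∈ B.K) → L.rho g = R * (i + 1) →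
      ∃ l : List Γ, l.length = i + 1 ∧ (∀ x ∈ l, L.rho x ≤ R) ∧ l.prod = g := by
  induction i with
  | zero =>
      intro g hg h
      refine ⟨[g], rfl, ?_, by simp⟩
      intro x hx
      rw [List.mem_singleton] at hx
      rw [hx, h]
      omega
  | succ i ih =>
      intro g hg h
      have hle : R ≤ L.rho g := by
        rw [h]
        exact Nat.le_mul_of_pos_right R (Nat.succ_pos _)
      obtain ⟨e, h1, h2, h3, h4⟩ := even_peel L g⁻¹ (fun v => by
        rw [L.sec_inv]; exact B.K.inv_mem (hg _)) R hR (by rw [L.rho_inv]; exact hle)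
      rw [L.rho_inv] at h4
      have hg1 : ∀ v, L.sec (e * g) v ∈ B.K := by
        intro v
        rw [L.sec_mul]
        exact B.K.mul_mem (h2 _) (hg v)
      have h5 : L.rho (e * g) = R * (i + 1) := by
        have h6 : g⁻¹ * e⁻¹ = (e * g)⁻¹ := by rw [mul_inv_rev]
        rw [h6, L.rho_inv, h] at h4
        have h7 : R * (i + 1 + 1) = R * (i + 1) + R := by ring
        omega
      obtain ⟨l, l1, l2, l3⟩ := ih (e * g) hg1 h5
      refine ⟨e⁻¹ :: l, by simp [l1], ?_, ?_⟩
      · intro x hx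
        rcases List.mem_cons.1 hx with rfl | hx
        · rw [L.rho_inv, h3]
        · exact l2 x hx
      · rw [List.prod_cons, l3, inv_mul_cancel_left]

theorem even_ball (L : Level Γ B V) (R : ℕ) (hR : Even R) (hR2 : 2 ≤ R) (g : Γ)
    (hg : ∀ v, L.sec g v ∈ B.K) (h1 : 1 ≤ L.rho g) :
    ∃ i u w q, g = u * w ∧ u ∈ wordBall {s | L.rho s ≤ R} i ∧ L.rho w ≤ q ∧ 1 ≤ q ∧ q ≤ R ∧
      L.rho g = R * i + q := by
  have hdm := Nat.div_add_mod (L.rho g - 1) R
  have hlt := Nat.mod_lt (L.rho g - 1) (show 0 < R by omega)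
  obtain ⟨i, hi⟩ : ∃ i, i = (L.rho g - 1) / R := ⟨_, rfl⟩
  obtain ⟨p, hp⟩ : ∃ p, p = (L.rho g - 1) % R := ⟨_, rfl⟩
  rw [← hi, ← hp] at hdm
  rw [← hp] at hlt
  rcases Nat.eq_zero_or_pos i with h0 | h0
  · subst h0
    refine ⟨0, 1, g, L.rho g, (one_mul g).symm, ⟨[], le_refl _, by simp, rfl⟩, le_refl _, h1, ?_,
      by simp⟩
    rw [Nat.mul_zero] at hdm
    omega
  · obtain ⟨j, rfl⟩ : ∃ j, i = j + 1 := ⟨i - 1, by omega⟩
    have hq : L.rho g = R * (j + 1) + (p + 1) := by omega
    have hqe : Even (p + 1) := by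
      have h3 := ZD1_rho_even L g hg
      rw [hq, Nat.even_add] at h3
      exact h3.1 (hR.mul_right _)
    obtain ⟨e, k1, k2, k3, k4⟩ := even_peel L g hg (p + 1) hqe (by omega)
    have hg1 : ∀ v, L.sec (g * e⁻¹) v ∈ B.K := by
      intro v
      rw [ZD1_sec L g e k1]
      exact B.K.mul_mem (hg v) (B.K.inv_mem (k2 v))
    obtain ⟨l, l1, l2, l3⟩ := ZD1_blocks L R hR j (g * e⁻¹) hg1 (by omega)
    exact ⟨j + 1, g * e⁻¹, e, p + 1, (inv_mul_cancel_right g e).symm,
      ⟨l, l1.le, fun x hx => Or.inl (l2 x hx), l3⟩, k3.le, by omega, by omega, hq⟩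

end Pool.Agent.H40.GG
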